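import Mathlib

/-!
Periodic bump functions.
-/

open MeasureTheory Metric Set Filter Topology
open scoped ContDiff Real

namespace Pool.Agent.LibMather41

/-- Unnormalised periodic bump, positive exactly on `(1/16,3/16) + ℤ`. -/
noncomputable def b0 (t : ℝ) : ℝ :=
  Real.smoothTransition (Real.cos (2 * π * (t - 1 / 8)) - Real.cos (π / 8))

theorem b0_contDiff : ContDiff ℝ ∞ b0 := by
  unfold b0
  exact Real.smoothTransition.contDiff.comp (by fun_prop)

theorem b0_nonneg (t : ℝ) : 0 ≤ b0 t := Real.smoothTransition.nonneg _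

theorem b0_le_one (t : ℝ) : b0 t ≤ 1 := Real.smoothTransition.le_one _

theorem b0_add_one (t : ℝ) : b0 (t + 1) = b0 t := by
  unfold b0
  congr 2
  rw [show 2 * π * (t + 1 - 1 / 8) = 2 * π * (t - 1 / 8) + 2 * π by ring, Real.cos_add_two_pi]

theorem b0_eq_zero {t : ℝ} (h : ∀ n : ℤ, t ≤ n + 1 / 16 ∨ n + 3 / 16 ≤ t) : b0 t = 0 := by
  unfold b0
  apply Real.smoothTransition.zero_of_nonpos
  set n := round (t - 1 / 8) with hn
  set u := t - 1 / 8 - n with hu
  have hu1 : |u| ≤ 1 / 2 := abs_sub_round (t - 1 / 8)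
  have hu2 : 1 / 16 ≤ |u| := by
    rcases h n with h1 | h1
    · rw [abs_of_nonpos (by linarith)]; linarith
    · rw [abs_of_nonneg (by linarith)]; linarith
  have e : Real.cos (2 * π * (t - 1 / 8)) = Real.cos (2 * π * |u|) := by
    have h2 : 2 * π * (t - 1 / 8) = 2 * π * u + n * (2 * π) := by rw [hu]; ring
    rw [h2, Real.cos_add_int_mul_two_pi]
    rw [← Real.cos_abs (2 * π * u), abs_mul, abs_of_pos (by positivity : (0:ℝ) < 2 * π)]
  rw [e, sub_nonpos]
  have hpi := Real.pi_pos
  apply Real.cos_le_cos_of_nonneg_of_le_pi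
  · positivity
  · nlinarith
  · nlinarith

theorem b0_pos : 0 < b0 (1 / 8) := by
  unfold b0
  apply Real.smoothTransition.pos_of_pos
  rw [sub_self, mul_zero, Real.cos_zero, sub_pos]
  have hpi := Real.pi_pos
  have := Real.cos_lt_cos_of_nonneg_of_le_pi (x := 0) (y := π / 8) le_rfl (by linarith)
    (by linarith)
  rwa [Real.cos_zero] at this

/-- The mass. -/
noncomputable def mB : ℝ := ∫ t in (0 : ℝ)..1, b0 t

theorem mB_pos : 0 < mB := by
  unfold mB
  apply intervalIntegral.integral_pos (by norm_num) b0_contDiff.continuous.continuousOn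
    (fun t _ => b0_nonneg t)
  exact ⟨1 / 8, by norm_num, b0_pos⟩

/-- The normalised bump. -/
noncomputable def bb (t : ℝ) : ℝ := b0 t / mB

theorem bb_contDiff : ContDiff ℝ ∞ bb := b0_contDiff.div_const _

theorem bb_nonneg (t : ℝ) : 0 ≤ bb t := div_nonneg (b0_nonneg t) mB_pos.le

theorem bb_le (t : ℝ) : bb t ≤ 1 / mB := div_le_div_of_nonneg_right (b0_le_one t) mB_pos.le

theorem bb_add_one (t : ℝ) : bb (t + 1) = bb t := by
  unfold bb; rw [b0_add_one]

theorem bb_periodic : Function.Periodic bb 1 := bb_add_one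

theorem bb_add_int (t : ℝ) (n : ℤ) : bb (t + n) = bb t := by
  have := bb_periodic.int_mul n t
  simpa using this

theorem bb_eq_zero {t : ℝ} (h : ∀ n : ℤ, t ≤ n + 1 / 16 ∨ n + 3 / 16 ≤ t) : bb t = 0 := by
  unfold bb; rw [b0_eq_zero h, zero_div]

theorem bb_ne_zero {t : ℝ} (h : bb t ≠ 0) : ∃ n : ℤ, n + 1 / 16 < t ∧ t < n + 3 / 16 := by
  by_contra hcon
  push Not at hcon
  apply h
  apply bb_eq_zero
  intro n
  rcases le_or_gt t (n + 1 / 16) with h1 | h1
  · exact Or.inl h1
  · exact Or.inr (hcon n h1)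

/-- vanishing in a window. -/
theorem bb_eq_zero_of_mem {t : ℝ} (n : ℤ) (h1 : (n : ℝ) - 13 / 16 ≤ t) (h2 : t ≤ n + 1 / 16) :
    bb t = 0 := by
  apply bb_eq_zero
  intro m
  rcases lt_or_ge m n with h | h
  · right
    have : (m : ℝ) + 1 ≤ n := by exact_mod_cast h
    linarith
  · left
    have : (n : ℝ) ≤ m := by exact_mod_cast h
    linarith

/-- The primitive. -/
noncomputable def Bf (t : ℝ) : ℝ := ∫ s in (0 : ℝ)..t, bb s

theorem bb_continuous : Continuous bb := bb_contDiff.continuous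

theorem Bf_hasDerivAt (t : ℝ) : HasDerivAt Bf (bb t) t :=
  intervalIntegral.integral_hasDerivAt_right (bb_continuous.intervalIntegrable _ _)
    bb_continuous.aestronglyMeasurable.stronglyMeasurableAtFilter bb_continuous.continuousAt

theorem Bf_contDiff : ContDiff ℝ ∞ Bf := by
  rw [contDiff_infty_iff_deriv]
  refine ⟨fun t => (Bf_hasDerivAt t).differentiableAt, ?_⟩
  have : deriv Bf = bb := by ext t; exact (Bf_hasDerivAt t).deriv
  rw [this]
  exact bb_contDiff

theorem bb_int (t : ℝ) : ∫ s in t..(t + 1), bb s = 1 := by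
  rw [bb_periodic.intervalIntegral_add_eq t 0, zero_add]
  unfold bb
  rw [intervalIntegral.integral_div]
  exact div_self mB_pos.ne'

theorem Bf_add_one (t : ℝ) : Bf (t + 1) = Bf t + 1 := by
  unfold Bf
  rw [← intervalIntegral.integral_add_adjacent_intervals (b := t)
    (bb_continuous.intervalIntegrable _ _) (bb_continuous.intervalIntegrable _ _), bb_int]

theorem Bf_add_int (t : ℝ) (n : ℤ) : Bf (t + n) = Bf t + n := by
  have hper : Function.Periodic (fun t => Bf t - t) 1 := by
    intro t; simp only [Bf_add_one]; ring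
  have := hper.int_mul n t
  simp only [mul_one] at this
  linarith

theorem Bf_mono : Monotone Bf := by
  apply monotone_of_deriv_nonneg (fun t => (Bf_hasDerivAt t).differentiableAt)
  intro t
  rw [(Bf_hasDerivAt t).deriv]
  exact bb_nonneg t

theorem Bf_at_zero : Bf 0 = 0 := by simp [Bf]

theorem Bf_eq_zero {t : ℝ} (h1 : -(13 / 16) ≤ t) (h2 : t ≤ 1 / 16) : Bf t = 0 := by
  unfold Bf
  have h : ∀ s ∈ uIcc 0 t, bb s = 0 := by
    intro s hs
    have h3 : -(13 / 16) ≤ s ∧ s ≤ 1 / 16 := by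
      rw [mem_uIcc] at hs
      rcases hs with ⟨a, b⟩ | ⟨a, b⟩
      · constructor <;> linarith
      · constructor <;> linarith
    exact bb_eq_zero_of_mem 0 (by push_cast; linarith) (by push_cast; linarith)
  rw [intervalIntegral.integral_congr h]
  simp

theorem Bf_eq_one {t : ℝ} (h1 : 3 / 16 ≤ t) (h2 : t ≤ 17 / 16) : Bf t = 1 := by
  have h := Bf_add_one (t - 1)
  have h2' : Bf (t - 1) = 0 := Bf_eq_zero (by linarith) (by linarith)
  rw [sub_add_cancel, h2'] at h
  linarith

theorem Bf_nonneg {t : ℝ} (h : 0 ≤ t) : 0 ≤ Bf t := by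
  rw [← Bf_at_zero]; exact Bf_mono h

theorem Bf_le_one {t : ℝ} (h : t ≤ 1) : Bf t ≤ 1 := by
  have h1 : Bf 1 = 1 := Bf_eq_one (by norm_num) (by norm_num)
  rw [← h1]; exact Bf_mono h

/-- The cutoff in the coordinates `x0`, `x0'`. -/
noncomputable def chi (x : ℝ) : ℝ := Real.smoothTransition (Real.cos (2 * π * x))

theorem chi_contDiff : ContDiff ℝ ∞ chi := by
  unfold chi
  exact Real.smoothTransition.contDiff.comp (by fun_prop)

theorem chi_nonneg (x : ℝ) : 0 ≤ chi x := Real.smoothTransition.nonneg _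

theorem chi_le_one (x : ℝ) : chi x ≤ 1 := Real.smoothTransition.le_one _

theorem chi_zero : chi 0 = 1 := by
  unfold chi
  apply Real.smoothTransition.one_of_one_le
  simp

theorem chi_add_int (x : ℝ) (n : ℤ) : chi (x + n) = chi x := by
  unfold chi
  congr 1
  rw [show 2 * π * (x + n) = 2 * π * x + n * (2 * π) by ring, Real.cos_add_int_mul_two_pi]

theorem chi_half {x : ℝ} (h : |x - 1 / 2| ≤ 1 / 8) : chi x = 0 := by
  unfold chi
  apply Real.smoothTransition.zero_of_nonpos
  have h1 := abs_le.1 h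
  have hpi := Real.pi_pos
  apply Real.cos_nonpos_of_pi_div_two_le_of_le
  · nlinarith [h1.1]
  · nlinarith [h1.2]

/-- The function `ϑ`. -/
noncomputable def th (x : ℝ) : ℝ := bb (x - 3 / 8)

theorem th_nonneg (x : ℝ) : 0 ≤ th x := bb_nonneg _

theorem th_contDiff : ContDiff ℝ ∞ th := by
  unfold th
  exact bb_contDiff.comp (by fun_prop)

theorem th_add_int (x : ℝ) (n : ℤ) : th (x + n) = th x := by
  unfold th
  rw [show x + n - 3 / 8 = x - 3 / 8 + n by ring, bb_add_int]

theorem chi_of_th {x : ℝ} (h : th x ≠ 0) : chi x = 0 := by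
  obtain ⟨n, h1, h2⟩ := bb_ne_zero h
  have h3 := chi_add_int (x - n) n
  rw [sub_add_cancel] at h3
  rw [h3]
  apply chi_half
  rw [abs_le]
  constructor <;> linarith

theorem th_small {x : ℝ} (h : |x| ≤ 1 / 8) : th x = 0 := by
  unfold th
  have h1 := abs_le.1 h
  apply bb_eq_zero_of_mem 0
  · push_cast; linarith
  · push_cast; linarith

/-- The function `Bf (x - 3/8) - x` is periodic. -/
noncomputable def gth (x : ℝ) : ℝ := Bf (x - 3 / 8) - x

theorem gth_hasDerivAt (x : ℝ) : HasDerivAt gth (th x - 1) x := by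
  unfold gth th
  have h := (Bf_hasDerivAt (x - 3 / 8)).comp_sub_const x (3 / 8)
  exact h.sub (hasDerivAt_id x)

theorem gth_contDiff : ContDiff ℝ ∞ gth := by
  unfold gth
  exact (Bf_contDiff.comp (by fun_prop)).sub contDiff_id

theorem gth_add_int (x : ℝ) (n : ℤ) : gth (x + n) = gth x := by
  unfold gth
  rw [show x + n - 3 / 8 = x - 3 / 8 + n by ring, Bf_add_int]
  ring

end Pool.Agent.LibMather41
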