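import Pool.Agent.LibMather41.Meas

/-!
Free measures and the vertex criterion.
-/

set_option linter.unusedSectionVars false
set_option linter.unusedVariables false

open MeasureTheory Metric Set Filter Topology Bornology
open scoped ContDiff

namespace Pool.Agent.LibMather41

variable {ι : Type} [Fintype ι] [DecidableEq ι] (D : Sys ι)

namespace Sys

instance : IsProbabilityMeasure (volume : Measure UnitAddCircle) :=
  ⟨by rw [AddCircle.measure_univ]; simp⟩

/-- Straight lines in a region where `X = 0` and `V` is constant. -/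
theorem straight (x w : ι → ℝ) (r : ℝ) (hfree : ∀ u : ℝ, ∀ᶠ z in 𝓝 (x + (u - r) • w, u),
    D.X z = 0 ∧ D.V z = 1) (u : ℝ) :
    HasDerivAt (fun u : ℝ => (x + (u - r) • w, w, u)) (D.Y (x + (u - r) • w, w, u)) u := by
  have h1 := hfree u
  have hX : D.X =ᶠ[𝓝 (x + (u - r) • w, u)] fun _ => 0 := h1.mono fun z hz => hz.1
  have hV : D.V =ᶠ[𝓝 (x + (u - r) • w, u)] fun _ => 1 := h1.mono fun z hz => hz.2
  have hX' : fderiv ℝ D.X (x + (u - r) • w, u) = 0 := by
    rw [hX.fderiv_eq]; simp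
  have hV' : fderiv ℝ D.V (x + (u - r) • w, u) = 0 := by
    rw [hV.fderiv_eq]; simp
  have hY : D.Y (x + (u - r) • w, w, u) = (w, 0, 1) := by
    unfold Y
    simp only [hX.eq_of_nhds, add_zero]
    congr 2
    ext i
    unfold qf
    simp [hX', hV']
  rw [hY]
  refine HasDerivAt.prodMk ?_ (HasDerivAt.prodMk (hasDerivAt_const _ _) (hasDerivAt_id u))
  have := (((hasDerivAt_id u).sub_const r).smul_const w).const_add x
  simpa using this

/-- Free measures. -/
theorem free_measure (i₀ : ι)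
    (hfree : ∀ (x : ι → ℝ) (t : ℝ), |x i₀ - 1 / 2| < 1 / 8 → D.X (x, t) = 0 ∧ D.V (x, t) = 1)
    (w : ι → ℝ) (hw : w i₀ = 0) : (actions D.L w).Nonempty := by
  set Ψ : (ι → UnitAddCircle) × UnitAddCircle → Phase ι := fun σ =>
    (fun i => if i = i₀ then (((1 / 2 : ℝ)) : UnitAddCircle) else σ.1 i, w, σ.2) with hΨ
  set T : ℝ → (ι → UnitAddCircle) × UnitAddCircle → (ι → UnitAddCircle) × UnitAddCircle :=
    fun s => Prod.map (fun x => x + (fun i => ((s * w i : ℝ) : UnitAddCircle)))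
      (fun t => t + ((s : ℝ) : UnitAddCircle)) with hT
  have hΨm : Measurable Ψ := by
    refine Measurable.prodMk (measurable_pi_lambda _ fun i => ?_)
      (Measurable.prodMk measurable_const measurable_snd)
    by_cases hi : i = i₀
    · simp only [hi, if_true]; exact measurable_const
    · simp only [hi, if_false]; exact (measurable_pi_apply i).comp measurable_fst
  have hTm : ∀ s, MeasurePreserving (T s)
      (volume : Measure ((ι → UnitAddCircle) × UnitAddCircle)) volume := by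
    intro s
    exact (measurePreserving_add_right (volume : Measure (ι → UnitAddCircle)) _).prod
      (measurePreserving_add_right (volume : Measure UnitAddCircle) _)
  have hinv : IsInvMeasure D.L
      ((volume : Measure ((ι → UnitAddCircle) × UnitAddCircle)).map Ψ) := by
    refine D.inv_of_map _ Ψ hΨm T hTm ((univ : Set (ι → UnitAddCircle)) ×ˢ
      (({w} : Set (ι → ℝ)) ×ˢ (univ : Set UnitAddCircle))) ?_ ?_ ?_
    · exact isCompact_univ.prod (isCompact_singleton.prod isCompact_univ)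
    · intro σ
      simp [hΨ]
    · intro s σ
      set a : ι → ℝ := fun i => if i = i₀ then 1 / 2 else rep (σ.1 i) with ha
      set r : ℝ := rep σ.2 with hr
      have hfr : ∀ u : ℝ, ∀ᶠ z in 𝓝 (a + (u - r) • w, u), D.X z = 0 ∧ D.V z = 1 := by
        intro u
        have hopen : IsOpen {z : (ι → ℝ) × ℝ | |z.1 i₀ - 1 / 2| < 1 / 8} := by
          apply isOpen_lt
          · fun_prop
          · exact continuous_const
        have hmem : (a + (u - r) • w, u) ∈ {z : (ι → ℝ) × ℝ | |z.1 i₀ - 1 / 2| < 1 / 8} := by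
          simp [ha, hw]
        filter_upwards [hopen.mem_nhds hmem] with z hz
        exact hfree z.1 z.2 hz
      have h1 := D.Phi_traj (D.straight a w r hfr) r s
      have hX0 : ∀ u : ℝ, D.X (a + (u - r) • w, u) = 0 := fun u => (hfr u).self_of_nhds.1
      have e1 : D.unchart (a + (r - r) • w, w, r) = Ψ σ := by
        unfold unchart proj
        have hx0 := hX0 r
        simp only [add_zero, sub_self, zero_smul] at hx0 ⊢
        rw [hx0]
        refine Prod.ext ?_ (Prod.ext (add_zero _) (coe_rep _))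
        ext i
        simp only [hΨ, ha]
        by_cases hi : i = i₀
        · simp [hi]
        · simp only [hi, if_false, coe_rep]
      have e2 : D.unchart (a + (r + s - r) • w, w, r + s) = Ψ (T s σ) := by
        unfold unchart proj
        have hx0 := hX0 (r + s)
        simp only [add_sub_cancel_left] at hx0 ⊢
        rw [hx0]
        refine Prod.ext ?_ (Prod.ext (add_zero _) ?_)
        · ext i
          simp only [hΨ, hT, ha, Pi.add_apply, Pi.smul_apply, smul_eq_mul, AddCircle.coe_add,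
            Prod.map_fst]
          by_cases hi : i = i₀
          · simp [hi, hw]
          · simp only [hi, if_false, coe_rep]
        · simp only [hΨ, hT, AddCircle.coe_add, Prod.map_snd]
          rw [hr, coe_rep]
      rw [← e1, ← e2]
      exact h1
  refine ⟨_, _, hinv, ?_, rfl⟩
  ext i
  unfold homology
  have hm : Measurable (fun z : Phase ι => z.2.1 i) :=
    (measurable_pi_apply i).comp (measurable_fst.comp measurable_snd)
  rw [integral_map hΨm.aemeasurable hm.aestronglyMeasurable]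
  simp [hΨ]

theorem all_nonempty (i₀ i₁ : ι) (hne : i₀ ≠ i₁)
    (h0 : ∀ (x : ι → ℝ) (t : ℝ), |x i₀ - 1 / 2| < 1 / 8 → D.X (x, t) = 0 ∧ D.V (x, t) = 1)
    (h1 : ∀ (x : ι → ℝ) (t : ℝ), |x i₁ - 1 / 2| < 1 / 8 → D.X (x, t) = 0 ∧ D.V (x, t) = 1)
    (w : ι → ℝ) : (actions D.L w).Nonempty := by
  obtain ⟨a, ha⟩ := D.free_measure i₀ h0 (fun i => if i = i₀ then 0 else 2 * w i) (by simp)
  obtain ⟨b, hb⟩ := D.free_measure i₁ h1 (fun i => if i = i₀ then 2 * w i else 0)
    (by simp [hne.symm])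
  have h := D.combine ha hb (a := 1 / 2) (b := 1 / 2) (by norm_num) (by norm_num) (by norm_num)
  have e : (1 / 2 : ℝ) • (fun i => if i = i₀ then 0 else 2 * w i) +
      (1 / 2 : ℝ) • (fun i => if i = i₀ then 2 * w i else 0) = w := by
    ext i
    simp only [Pi.add_apply, Pi.smul_apply, smul_eq_mul]
    split_ifs <;> ring
  rw [e] at h
  exact ⟨_, h⟩

end Sys

/-- Slopes of convex functions. -/
theorem exists_dirDeriv {f : (ι → ℝ) → ℝ} (hf : ConvexOn ℝ univ f) (x v : ι → ℝ) (m : ℝ)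
    (hm : ∀ t : ℝ, 0 < t → m ≤ (f (x + t • v) - f x) / t) :
    ∃ d, HasDirDeriv f x v d ∧ m ≤ d := by
  set φ : ℝ → ℝ := fun t => (f (x + t • v) - f x) / t with hφ
  have hmono : MonotoneOn φ (Ioi 0) := by
    intro s hs t ht hst
    have hs0 : (0 : ℝ) < s := hs
    have ht0 : (0 : ℝ) < t := ht
    have h01 : 0 ≤ 1 - s / t := by rw [sub_nonneg, div_le_one ht0]; exact hst
    have h02 : 0 ≤ s / t := by positivity
    have h1 := hf.2 (mem_univ x) (mem_univ (x + t • v)) h01 h02 (by ring)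
    have h2 : (1 - s / t) • x + (s / t) • (x + t • v) = x + s • v := by
      rw [smul_add, smul_smul, div_mul_cancel₀ _ ht0.ne', ← add_assoc, ← add_smul]
      simp
    rw [h2, smul_eq_mul, smul_eq_mul] at h1
    simp only [hφ]
    rw [div_le_div_iff₀ hs0 ht0]
    have h3 : t * f (x + s • v) ≤ (t - s) * f x + s * f (x + t • v) := by
      have := mul_le_mul_of_nonneg_left h1 ht0.le
      calc t * f (x + s • v) ≤ t * ((1 - s / t) * f x + s / t * f (x + t • v)) := this
        _ = (t - s) * f x + s * f (x + t • v) := by field_simp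
    nlinarith
  have hbdd : BddBelow (φ '' Ioo 0 1) := by
    refine ⟨m, ?_⟩
    rintro _ ⟨t, ht, rfl⟩
    exact hm t ht.1
  have h1 : Tendsto φ (𝓝[>] 0) (𝓝 (sInf (φ '' Ioo 0 1))) := by
    refine MonotoneOn.tendsto_nhdsWithin_Ioo_right (by simp) (hmono.mono ?_) hbdd
    exact Ioo_subset_Ioi_self
  refine ⟨_, h1, ?_⟩
  apply le_csInf
  · exact (nonempty_Ioo.2 one_pos).image _
  · rintro _ ⟨t, ht, rfl⟩
    exact hm t ht.1

theorem hasVertex_of {f : (ι → ℝ) → ℝ} (hf : ConvexOn ℝ univ f) (x : ι → ℝ) {c : ℝ} (hc : 0 < c)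
    (h : ∀ y, f x + c * ‖y - x‖ ≤ f y) : HasVertex f x := by
  intro v hv
  have hv' : 0 < ‖v‖ := norm_pos_iff.2 hv
  have key : ∀ w : ι → ℝ, ‖w‖ = ‖v‖ → ∀ t : ℝ, 0 < t →
      c * ‖v‖ ≤ (f (x + t • w) - f x) / t := by
    intro w hw t ht
    rw [le_div_iff₀ ht]
    have := h (x + t • w)
    rw [add_sub_cancel_left, norm_smul, Real.norm_eq_abs, abs_of_pos ht, hw] at this
    linarith
  obtain ⟨d₁, h1, h1'⟩ := exists_dirDeriv hf x v (c * ‖v‖) (key v rfl)
  obtain ⟨d₂, h2, h2'⟩ := exists_dirDeriv hf x (-v) (c * ‖v‖) (key (-v) (norm_neg v))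
  refine ⟨d₁, d₂, h1, h2, ?_⟩
  have : 0 < c * ‖v‖ := by positivity
  linarith

namespace Sys

/-- The abstract criterion. -/
theorem main_abstract (hV : ∀ z, 0 ≤ D.V z) (h : ι → ℝ) (c : ℝ) (hc : 0 < c)
    (i₀ i₁ : ι) (hne : i₀ ≠ i₁)
    (h0 : ∀ (x : ι → ℝ) (t : ℝ), |x i₀ - 1 / 2| < 1 / 8 → D.X (x, t) = 0 ∧ D.V (x, t) = 1)
    (h1 : ∀ (x : ι → ℝ) (t : ℝ), |x i₁ - 1 / 2| < 1 / 8 → D.X (x, t) = 0 ∧ D.V (x, t) = 1)
    (hK : ∃ μ, IsInvMeasure D.L μ ∧ ∫ z, D.L z ∂μ = 0)
    (hlow : ∀ i, ∃ g : (ι → ℝ) × ℝ → ℝ, ContDiff ℝ 1 g ∧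
      (∀ (k : ι → ℤ) (m : ℤ) (z : (ι → ℝ) × ℝ), g (z + (zv k, (m : ℝ))) = g z) ∧
      ∀ x v t, c * |fderiv ℝ g (x, t) (v, 1) + v i - h i| ≤ D.Lr x v t) :
    (∀ h', (actions D.L h').Nonempty ∧ BddBelow (actions D.L h')) ∧
    ConvexOn ℝ univ (beta D.L) ∧
    (∃ μ, IsInvMeasure D.L μ ∧ homology μ = h ∧ ∫ z, D.L z ∂μ = beta D.L h) ∧
    HasVertex (beta D.L) h := by
  have hn := D.all_nonempty i₀ i₁ hne h0 h1
  have hb : ∀ h', BddBelow (actions D.L h') := fun h' => ⟨0, fun a ha => D.actions_nonneg hV h' ha⟩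
  have hconv := D.beta_convex hV hn
  refine ⟨fun h' => ⟨hn h', hb h'⟩, hconv, ?_⟩
  have hl : ∀ μ, IsInvMeasure D.L μ → c * ‖homology μ - h‖ ≤ ∫ z, D.L z ∂μ := by
    intro μ hμ
    rw [← le_div_iff₀' hc]
    have hnn : 0 ≤ ∫ z, D.L z ∂μ := integral_nonneg (D.L_nonneg hV)
    rw [pi_norm_le_iff_of_nonneg (by positivity)]
    intro i
    rw [le_div_iff₀' hc]
    obtain ⟨g, hg, hper, hgb⟩ := hlow i
    exact D.lower hμ g hg hper i (h i) c hc.le hgb
  obtain ⟨μ, hμ, hμ0⟩ := hK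
  have hμh : homology μ = h := by
    have := hl μ hμ
    rw [hμ0] at this
    have h2 : ‖homology μ - h‖ ≤ 0 := by
      by_contra hcon
      push Not at hcon
      have : 0 < c * ‖homology μ - h‖ := by positivity
      linarith
    exact sub_eq_zero.1 (norm_le_zero_iff.1 h2)
  have hβ0 : beta D.L h ≤ 0 := csInf_le (hb h) ⟨μ, hμ, hμh, hμ0.symm⟩
  have hβ1 : 0 ≤ beta D.L h := le_csInf (hn h) fun a ha => D.actions_nonneg hV h ha
  refine ⟨⟨μ, hμ, hμh, by rw [hμ0]; linarith⟩, ?_⟩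
  apply hasVertex_of hconv h hc
  intro y
  have h3 : c * ‖y - h‖ ≤ beta D.L y := by
    apply le_csInf (hn y)
    rintro a ⟨ν, hν, rfl, rfl⟩
    exact hl ν hν
  linarith

end Sys

end Pool.Agent.LibMather41
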