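import Pool.Agent.LibMather41.Data
import Pool.Agent.LibMather41.Free

/-!
The concrete system.
-/

set_option linter.unusedVariables false

open MeasureTheory Metric Set Filter Topology
open scoped ContDiff Real

namespace Pool.Agent.LibMather41

/-- Coordinates: `x₁, x₀, x₀'`, and two copies of `Kp`. -/
abbrev Io : Type := Fin 3 ⊕ (Kp ⊕ Kp)

/-- The `A` coordinates. -/
def zA (x : Io → ℝ) : Kp → ℝ := fun c => x (.inr (.inl c))

/-- The `B` coordinates. -/
def zB (x : Io → ℝ) : Kp → ℝ := fun c => x (.inr (.inr c))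

/-- Weight of `B`. -/
noncomputable def sB (t : ℝ) : ℝ := Bf t - Bf (t - 1 / 2)

/-- Rotation amount. -/
noncomputable def RR (t : ℝ) : ℝ := Bf (t - 1 / 4) - Bf (t - 3 / 4)

/-- Cutoff. -/
noncomputable def qc (x : Io → ℝ) : ℝ := chi (x (.inl 1)) * chi (x (.inl 2))

theorem sB_add_int (t : ℝ) (m : ℤ) : sB (t + m) = sB t := by
  unfold sB
  rw [show t + m - 1 / 2 = t - 1 / 2 + m by ring, Bf_add_int, Bf_add_int]
  ring

theorem RR_add_int (t : ℝ) (m : ℤ) : RR (t + m) = RR t := by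
  unfold RR
  rw [show t + m - 1 / 4 = t - 1 / 4 + m by ring, show t + m - 3 / 4 = t - 3 / 4 + m by ring,
    Bf_add_int, Bf_add_int]
  ring

theorem sB_mem (t : ℝ) : 0 ≤ sB t ∧ sB t ≤ 1 := by
  have h := sB_add_int (Int.fract t) ⌊t⌋
  rw [Int.fract_add_floor] at h
  rw [h]
  have h0 := Int.fract_nonneg t
  have h1 := (Int.fract_lt_one t).le
  set u := Int.fract t
  have h2 := Bf_nonneg h0
  have h3 := Bf_le_one h1
  unfold sB
  rcases le_or_gt (u - 1 / 2) (1 / 16) with h4 | h4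
  · rw [Bf_eq_zero (t := u - 1 / 2) (by linarith) h4]
    constructor <;> linarith
  · rw [Bf_eq_one (t := u) (by linarith) (by linarith)]
    have h5 := Bf_nonneg (t := u - 1 / 2) (by linarith)
    have h6 := Bf_le_one (t := u - 1 / 2) (by linarith)
    constructor <;> linarith

theorem RR_of_win1 {t : ℝ} (h : bb t ≠ 0) : RR t = 0 := by
  obtain ⟨n, h1, h2⟩ := bb_ne_zero h
  have h3 := RR_add_int (t - n) n
  rw [sub_add_cancel] at h3
  rw [h3]
  unfold RR
  rw [Bf_eq_zero (by linarith) (by linarith), Bf_eq_zero (by linarith) (by linarith), sub_zero]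

theorem RR_of_win3 {t : ℝ} (h : bb (t - 1 / 2) ≠ 0) : RR t = 1 := by
  obtain ⟨n, h1, h2⟩ := bb_ne_zero h
  have h3 := RR_add_int (t - n) n
  rw [sub_add_cancel] at h3
  rw [h3]
  unfold RR
  rw [Bf_eq_one (by linarith) (by linarith), Bf_eq_zero (by linarith) (by linarith), sub_zero]

theorem sB_of_win2 {t : ℝ} (h : bb (t - 1 / 4) ≠ 0) : sB t = 1 := by
  obtain ⟨n, h1, h2⟩ := bb_ne_zero h
  have h3 := sB_add_int (t - n) n
  rw [sub_add_cancel] at h3
  rw [h3]
  unfold sB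
  rw [Bf_eq_one (by linarith) (by linarith), Bf_eq_zero (by linarith) (by linarith), sub_zero]

theorem sB_of_win4 {t : ℝ} (h : bb (t - 3 / 4) ≠ 0) : sB t = 0 := by
  obtain ⟨n, h1, h2⟩ := bb_ne_zero h
  have h3 := sB_add_int (t - n) n
  rw [sub_add_cancel] at h3
  rw [h3]
  unfold sB
  rw [Bf_eq_one (by linarith) (by linarith), Bf_eq_one (by linarith) (by linarith), sub_self]

theorem bb2_sA (t : ℝ) : bb (t - 1 / 4) * (1 - sB t) = 0 := by
  by_cases h : bb (t - 1 / 4) = 0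
  · rw [h, zero_mul]
  · rw [sB_of_win2 h, sub_self, mul_zero]

theorem bb4_sB (t : ℝ) : bb (t - 3 / 4) * sB t = 0 := by
  by_cases h : bb (t - 3 / 4) = 0
  · rw [h, zero_mul]
  · rw [sB_of_win4 h, mul_zero]

/-- The drift field. -/
noncomputable def Xo (z : (Io → ℝ) × ℝ) : Io → ℝ
  | .inl j => if j = 0 then qc z.1 * hh * bb (z.2 - 1 / 4) else 0
  | .inr (.inl c) => qc z.1 * bb (z.2 - 1 / 4) * uP c (zB z.1)
  | .inr (.inr c) => qc z.1 * bb (z.2 - 3 / 4) * uM c (zA z.1)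

/-- The complex bracket. -/
noncomputable def xi (z : (Io → ℝ) × ℝ) : ℂ :=
  ee (-(z.1 (.inl 0))) * ((sB z.2 : ℂ) * ee (hh * RR z.2) * Dc (zB z.1) +
    ((1 - sB z.2 : ℝ) : ℂ) * Dc (zA z.1))

/-- The inner potential. -/
noncomputable def V1 (z : (Io → ℝ) × ℝ) : ℝ :=
  (1 - (xi z).re) ^ 2 + (1 - sB z.2) ^ 2 * GD (zA z.1) + (sB z.2) ^ 2 * GD (zB z.1) +
    bb (z.2 - 1 / 2) * Wm hh (zA z.1, zB z.1) + bb z.2 * Wm 0 (zA z.1, zB z.1) +
    (∑ c, th (zA z.1 c) + ∑ c, th (zB z.1 c))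

/-- The potential. -/
noncomputable def Vo (z : (Io → ℝ) × ℝ) : ℝ := qc z.1 * V1 z + (1 - qc z.1)

theorem zA_add (x : Io → ℝ) (k : Io → ℤ) : zA (x + zv k) = zA x + zv (fun c => k (.inr (.inl c))) :=
  rfl

theorem zB_add (x : Io → ℝ) (k : Io → ℤ) : zB (x + zv k) = zB x + zv (fun c => k (.inr (.inr c))) :=
  rfl

theorem qc_add (x : Io → ℝ) (k : Io → ℤ) : qc (x + zv k) = qc x := by
  unfold qc
  simp only [Pi.add_apply, zv, chi_add_int]

theorem qc_mem (x : Io → ℝ) : 0 ≤ qc x ∧ qc x ≤ 1 := by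
  unfold qc
  have h1 := chi_nonneg (x (.inl 1))
  have h2 := chi_nonneg (x (.inl 2))
  have h3 := chi_le_one (x (.inl 1))
  have h4 := chi_le_one (x (.inl 2))
  constructor
  · positivity
  · nlinarith

theorem bb_shift (t a : ℝ) (m : ℤ) : bb (t + m - a) = bb (t - a) := by
  rw [show t + m - a = t - a + m by ring, bb_add_int]

theorem ee_add_int' (x : ℝ) (n : ℤ) : ee (x + n) = ee x := by
  rw [ee_add, ee_int, mul_one]

theorem xi_per (k : Io → ℤ) (m : ℤ) (z : (Io → ℝ) × ℝ) : xi (z + (zv k, (m : ℝ))) = xi z := by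
  unfold xi
  simp only [Prod.fst_add, Prod.snd_add, zA_add, zB_add, Dc_per, sB_add_int, RR_add_int,
    Pi.add_apply, zv]
  congr 1
  rw [show -(z.1 (.inl 0) + (k (.inl 0) : ℝ)) = -(z.1 (.inl 0)) + ((-k (.inl 0) : ℤ) : ℝ) by
    push_cast; ring, ee_add_int']

theorem V1_per (k : Io → ℤ) (m : ℤ) (z : (Io → ℝ) × ℝ) : V1 (z + (zv k, (m : ℝ))) = V1 z := by
  unfold V1
  rw [xi_per]
  have e1 : ∀ s : ℝ, Wm s (zA z.1 + zv (fun c => k (.inr (.inl c))),
      zB z.1 + zv (fun c => k (.inr (.inr c)))) = Wm s (zA z.1, zB z.1) := by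
    intro s
    have := Wm_per s (fun c => k (.inr (.inl c))) (fun c => k (.inr (.inr c))) (zA z.1, zB z.1)
    rwa [Prod.mk_add_mk] at this
  simp only [Prod.fst_add, Prod.snd_add, zA_add, zB_add, GD_per, sB_add_int, bb_shift,
    bb_add_int, e1]
  simp only [Pi.add_apply, zv, th_add_int]

theorem Vo_per (k : Io → ℤ) (m : ℤ) (z : (Io → ℝ) × ℝ) : Vo (z + (zv k, (m : ℝ))) = Vo z := by
  unfold Vo
  rw [V1_per, Prod.fst_add, qc_add]

theorem Xo_per (k : Io → ℤ) (m : ℤ) (z : (Io → ℝ) × ℝ) : Xo (z + (zv k, (m : ℝ))) = Xo z := by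
  ext i
  rcases i with j | c | c
  · simp only [Xo, Prod.fst_add, Prod.snd_add, qc_add, bb_shift]
  · simp only [Xo, Prod.fst_add, Prod.snd_add, qc_add, bb_shift, zB_add, uP_per]
  · simp only [Xo, Prod.fst_add, Prod.snd_add, qc_add, bb_shift, zA_add, uM_per]

theorem zA_contDiff {n : WithTop ℕ∞} : ContDiff ℝ n (fun z : (Io → ℝ) × ℝ => zA z.1) := by
  rw [contDiff_pi]
  intro c
  exact (contDiff_apply ℝ ℝ _).comp contDiff_fst

theorem zB_contDiff {n : WithTop ℕ∞} : ContDiff ℝ n (fun z : (Io → ℝ) × ℝ => zB z.1) := by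
  rw [contDiff_pi]
  intro c
  exact (contDiff_apply ℝ ℝ _).comp contDiff_fst

theorem coord_contDiff {n : WithTop ℕ∞} (i : Io) :
    ContDiff ℝ n (fun z : (Io → ℝ) × ℝ => z.1 i) :=
  (contDiff_apply ℝ ℝ _).comp contDiff_fst

theorem time_contDiff {n : WithTop ℕ∞} (a : ℝ) :
    ContDiff ℝ n (fun z : (Io → ℝ) × ℝ => z.2 - a) :=
  contDiff_snd.sub contDiff_const

theorem le_inf3 : (3 : WithTop ℕ∞) ≤ ∞ := by
  have h : ((3 : ℕ∞) : WithTop ℕ∞) ≤ ((⊤ : ℕ∞) : WithTop ℕ∞) := WithTop.coe_le_coe.2 le_top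
  exact h

theorem qc_contDiff : ContDiff ℝ 3 (fun z : (Io → ℝ) × ℝ => qc z.1) := by
  unfold qc
  exact ((chi_contDiff.of_le le_inf3).comp (coord_contDiff _)).mul
    ((chi_contDiff.of_le le_inf3).comp (coord_contDiff _))

theorem bbt_contDiff (a : ℝ) : ContDiff ℝ 3 (fun z : (Io → ℝ) × ℝ => bb (z.2 - a)) :=
  (bb_contDiff.of_le le_inf3).comp (time_contDiff a)

theorem Bft_contDiff (a : ℝ) : ContDiff ℝ 3 (fun z : (Io → ℝ) × ℝ => Bf (z.2 - a)) :=
  (Bf_contDiff.of_le le_inf3).comp (time_contDiff a)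

theorem sBt_contDiff : ContDiff ℝ 3 (fun z : (Io → ℝ) × ℝ => sB z.2) := by
  unfold sB
  have h := Bft_contDiff 0
  simp only [sub_zero] at h
  exact h.sub (Bft_contDiff _)

theorem RRt_contDiff : ContDiff ℝ 3 (fun z : (Io → ℝ) × ℝ => RR z.2) := by
  unfold RR
  exact (Bft_contDiff _).sub (Bft_contDiff _)

theorem ee_contDiff {n : WithTop ℕ∞} : ContDiff ℝ n ee := by
  unfold ee
  apply ContDiff.cexp
  apply ContDiff.mul contDiff_const
  exact Complex.ofRealCLM.contDiff.comp (contDiff_const.mul contDiff_id)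

theorem Dc_contDiff : ContDiff ℝ 3 Dc := by
  have h1 : ContDiff ℝ 3 (fun z => (Dre z : ℂ) + (Dim z : ℂ) * Complex.I) :=
    (Complex.ofRealCLM.contDiff.comp D_spec.2.1).add
      ((Complex.ofRealCLM.contDiff.comp D_spec.2.2.1).mul contDiff_const)
  have h2 : (fun z => (Dre z : ℂ) + (Dim z : ℂ) * Complex.I) = Dc := by
    ext z
    exact (Complex.mk_eq_add_mul_I _ _).symm
  rwa [h2] at h1

theorem xi_contDiff : ContDiff ℝ 3 xi := by
  unfold xi
  refine ContDiff.mul (ee_contDiff.comp (coord_contDiff _).neg) (ContDiff.add ?_ ?_)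
  · refine ContDiff.mul (ContDiff.mul (Complex.ofRealCLM.contDiff.comp sBt_contDiff) ?_) ?_
    · exact ee_contDiff.comp (contDiff_const.mul RRt_contDiff)
    · exact Dc_contDiff.comp zB_contDiff
  · refine ContDiff.mul (Complex.ofRealCLM.contDiff.comp (contDiff_const.sub sBt_contDiff)) ?_
    exact Dc_contDiff.comp zA_contDiff

theorem V1_contDiff : ContDiff ℝ 2 V1 := by
  unfold V1
  have h23 : (2 : WithTop ℕ∞) ≤ 3 := by norm_num
  have hs : ContDiff ℝ 2 (fun z : (Io → ℝ) × ℝ => sB z.2) := sBt_contDiff.of_le h23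
  have hb0 : ContDiff ℝ 2 (fun z : (Io → ℝ) × ℝ => bb z.2) := by
    have h := (bbt_contDiff 0).of_le h23
    simpa only [sub_zero] using h
  have hz : ContDiff ℝ 2 (fun z : (Io → ℝ) × ℝ => (zA z.1, zB z.1)) :=
    zA_contDiff.prodMk zB_contDiff
  have hth : ContDiff ℝ 2 th := th_contDiff.of_le (h23.trans le_inf3)
  refine ContDiff.add (ContDiff.add (ContDiff.add (ContDiff.add (ContDiff.add ?_ ?_) ?_) ?_) ?_)
    (ContDiff.add ?_ ?_)
  · refine ContDiff.pow (contDiff_const.sub ?_) 2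
    exact Complex.reCLM.contDiff.comp (xi_contDiff.of_le h23)
  · exact ((contDiff_const.sub hs).pow 2).mul (GD_contDiff.comp zA_contDiff)
  · exact (hs.pow 2).mul (GD_contDiff.comp zB_contDiff)
  · exact ((bbt_contDiff _).of_le h23).mul (((Wm_contDiff hh).of_le h23).comp hz)
  · exact hb0.mul (((Wm_contDiff 0).of_le h23).comp hz)
  · refine ContDiff.sum fun c _ => hth.comp (coord_contDiff (.inr (.inl c)))
  · refine ContDiff.sum fun c _ => hth.comp (coord_contDiff (.inr (.inr c)))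

theorem Vo_contDiff : ContDiff ℝ 2 Vo := by
  unfold Vo
  have h23 : (2 : WithTop ℕ∞) ≤ 3 := by norm_num
  exact ((qc_contDiff.of_le h23).mul V1_contDiff).add (contDiff_const.sub (qc_contDiff.of_le h23))

theorem Xo_contDiff : ContDiff ℝ 2 Xo := by
  have h23 : (2 : WithTop ℕ∞) ≤ 3 := by norm_num
  have hq := qc_contDiff.of_le h23
  rw [contDiff_pi]
  intro i
  rcases i with j | c | c
  · by_cases hj : j = 0
    · simp only [Xo, hj, if_true]
      exact (hq.mul contDiff_const).mul ((bbt_contDiff _).of_le h23)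
    · simp only [Xo, hj, if_false]
      exact contDiff_const
  · simp only [Xo]
    exact (hq.mul ((bbt_contDiff _).of_le h23)).mul (((uP_contDiff c).of_le h23).comp zB_contDiff)
  · simp only [Xo]
    exact (hq.mul ((bbt_contDiff _).of_le h23)).mul (((uM_contDiff c).of_le h23).comp zA_contDiff)

/-- The concrete system. -/
noncomputable def Do : Sys Io where
  X := Xo
  V := Vo
  hX := Xo_contDiff
  hV := Vo_contDiff
  perX := Xo_per
  perV := Vo_per

theorem V1_nonneg (z : (Io → ℝ) × ℝ) : 0 ≤ V1 z := by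
  unfold V1
  have h1 := GD_nonneg (zA z.1)
  have h2 := GD_nonneg (zB z.1)
  have h3 := bb_nonneg (z.2 - 1 / 2)
  have h4 := bb_nonneg z.2
  have h5 := Wm_nonneg hh (zA z.1, zB z.1)
  have h6 := Wm_nonneg 0 (zA z.1, zB z.1)
  have h7 : 0 ≤ ∑ c, th (zA z.1 c) := Finset.sum_nonneg fun c _ => th_nonneg _
  have h8 : 0 ≤ ∑ c, th (zB z.1 c) := Finset.sum_nonneg fun c _ => th_nonneg _
  exact add_nonneg (add_nonneg (add_nonneg (add_nonneg (add_nonneg (sq_nonneg _)
    (mul_nonneg (sq_nonneg _) h1)) (mul_nonneg (sq_nonneg _) h2)) (mul_nonneg h3 h5))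
    (mul_nonneg h4 h6)) (add_nonneg h7 h8)

theorem Vo_nonneg (z : (Io → ℝ) × ℝ) : 0 ≤ Vo z := by
  unfold Vo
  have h1 := V1_nonneg z
  have h2 := qc_mem z.1
  have h3 : 0 ≤ qc z.1 * V1 z := mul_nonneg h2.1 h1
  linarith

theorem free1 (x : Io → ℝ) (t : ℝ) (h : |x (.inl 1) - 1 / 2| < 1 / 8) :
    Do.X (x, t) = 0 ∧ Do.V (x, t) = 1 := by
  have hq : qc x = 0 := by unfold qc; rw [chi_half h.le, zero_mul]
  constructor
  · ext i
    rcases i with j | c | c
    · simp [Do, Xo, hq]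
    · simp [Do, Xo, hq]
    · simp [Do, Xo, hq]
  · simp [Do, Vo, hq]

theorem free2 (x : Io → ℝ) (t : ℝ) (h : |x (.inl 2) - 1 / 2| < 1 / 8) :
    Do.X (x, t) = 0 ∧ Do.V (x, t) = 1 := by
  have hq : qc x = 0 := by unfold qc; rw [chi_half h.le, mul_zero]
  constructor
  · ext i
    rcases i with j | c | c
    · simp [Do, Xo, hq]
    · simp [Do, Xo, hq]
    · simp [Do, Xo, hq]
  · simp [Do, Vo, hq]

end Pool.Agent.LibMather41
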