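import Pool.Agent.LibMather41.McShane

/-!
The fractal closed curve and the irrational number.
-/

set_option linter.unusedSectionVars false

open MeasureTheory Metric Set Filter Topology
open scoped ContDiff Real

namespace Pool.Agent.LibMather41

/-- `exp (2 π i x)`. -/
noncomputable def ee (x : ℝ) : ℂ := Complex.exp (Complex.I * ((2 * π * x : ℝ) : ℂ))

theorem norm_ee (x : ℝ) : ‖ee x‖ = 1 := Complex.norm_exp_I_mul_ofReal _

theorem ee_add (x y : ℝ) : ee (x + y) = ee x * ee y := by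
  unfold ee
  rw [← Complex.exp_add]
  congr 1
  push_cast
  ring

theorem ee_zero : ee 0 = 1 := by simp [ee]

theorem ee_int (n : ℤ) : ee n = 1 := by
  unfold ee
  rw [Complex.exp_eq_one_iff]
  refine ⟨n, ?_⟩
  push_cast
  ring

theorem ee_nat (n : ℕ) : ee n = 1 := by
  have := ee_int (n : ℤ)
  simpa using this

theorem ee_neg (x : ℝ) : ee (-x) * ee x = 1 := by
  rw [← ee_add, neg_add_cancel, ee_zero]

theorem norm_ee_sub_one (x : ℝ) : ‖ee x - 1‖ = 2 * |Real.sin (π * x)| := by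
  unfold ee
  rw [Complex.norm_exp_I_mul_ofReal_sub_one, Real.norm_eq_abs, abs_mul]
  have : 2 * π * x / 2 = π * x := by ring
  rw [this]
  norm_num

theorem norm_ee_sub_one_le (x : ℝ) : ‖ee x - 1‖ ≤ 7 * |x| := by
  have h : ‖ee x - 1‖ ≤ ‖2 * π * x‖ := Real.norm_exp_I_mul_ofReal_sub_one_le
  rw [Real.norm_eq_abs, abs_mul, abs_mul, abs_of_pos Real.pi_pos] at h
  have h2 : π < 3.15 := Real.pi_lt_d2
  have h3 := abs_nonneg x
  norm_num at h
  nlinarith

theorem norm_ee_sub_one_le_two (x : ℝ) : ‖ee x - 1‖ ≤ 2 := by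
  rw [norm_ee_sub_one]
  have := Real.abs_sin_le_one (π * x)
  linarith

theorem le_norm_ee_sub_one {x : ℝ} (hx : |x| ≤ 1 / 2) : 4 * |x| ≤ ‖ee x - 1‖ := by
  rw [norm_ee_sub_one]
  have hpi := Real.pi_pos
  have h1 : 2 / π * (π * |x|) ≤ Real.sin (π * |x|) := by
    apply Real.mul_le_sin
    · positivity
    · nlinarith
  have h2 : 2 / π * (π * |x|) = 2 * |x| := by field_simp
  have h3 : Real.sin (π * |x|) ≤ |Real.sin (π * x)| := by
    rcases abs_cases x with ⟨h, _⟩ | ⟨h, _⟩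
    · rw [h]; exact le_abs_self _
    · rw [h]
      have : π * -x = -(π * x) := by ring
      rw [this, Real.sin_neg]
      exact neg_le_abs _
  linarith

theorem ee_sub_norm (x y : ℝ) : ‖ee x - ee y‖ = ‖ee (x - y) - 1‖ := by
  have : ee x - ee y = ee y * (ee (x - y) - 1) := by
    rw [mul_sub, ← ee_add, mul_one]
    congr 2
    ring
  rw [this, norm_mul, norm_ee, one_mul]

theorem ee_continuous : Continuous ee := by
  unfold ee
  fun_prop

/-- Denominators. -/
def qq : ℕ → ℕ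
  | 0 => 1
  | 1 => 10000
  | (n + 2) => 10000 * qq (n + 1) + qq n

/-- Numerators. -/
def pp : ℕ → ℕ
  | 0 => 0
  | 1 => 1
  | (n + 2) => 10000 * pp (n + 1) + pp n

/-- The irrational number `h`, positive root of `h^2 + 10000 h = 1`. -/
noncomputable def hh : ℝ := (Real.sqrt 100000004 - 10000) / 2

theorem hh_eq : hh ^ 2 + 10000 * hh = 1 := by
  unfold hh
  have h : Real.sqrt 100000004 ^ 2 = 100000004 := Real.sq_sqrt (by norm_num)
  nlinarith

theorem hh_pos : 0 < hh := by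
  unfold hh
  have h : (10000 : ℝ) < Real.sqrt 100000004 := by
    apply Real.lt_sqrt_of_sq_lt
    norm_num
  linarith

theorem hh_lt : hh < 1 / 10000 := by
  have h1 := hh_eq
  have h2 := hh_pos
  nlinarith

theorem hh_irrational : Irrational hh := by
  have h1 : Irrational (Real.sqrt 100000004) := by
    have h3 : ¬ IsSquare (100000004 : ℕ) := by
      rintro ⟨r, hr⟩
      have h4 : r < 10001 := by nlinarith
      have h5 : 10000 < r := by nlinarith
      omega
    have := irrational_sqrt_natCast_iff (n := 100000004)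
    rw [show ((100000004 : ℕ) : ℝ) = 100000004 by norm_num] at this
    exact this.2 h3
  unfold hh
  have h2 : Irrational (Real.sqrt 100000004 - (10000 : ℕ)) := h1.sub_natCast 10000
  have h3 := h2.div_natCast (m := 2) (by norm_num)
  simpa using h3

theorem qq_hh (n : ℕ) : (qq n : ℝ) * hh = pp n + (-1) ^ n * hh ^ (n + 1) ∧
    (qq (n + 1) : ℝ) * hh = pp (n + 1) + (-1) ^ (n + 1) * hh ^ (n + 2) := by
  induction n with
  | zero =>
    have h1 := hh_eq
    simp only [qq, pp]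
    norm_num
    linarith
  | succ n ih =>
    refine ⟨ih.2, ?_⟩
    obtain ⟨ih1, ih2⟩ := ih
    have e1 : (qq (n + 1 + 1) : ℝ) = 10000 * qq (n + 1) + qq n := by
      simp only [qq]; push_cast; ring
    have e2 : (pp (n + 1 + 1) : ℝ) = 10000 * pp (n + 1) + pp n := by
      simp only [pp]; push_cast; ring
    have h1 := hh_eq
    rw [e1, e2, add_mul, mul_assoc, ih1, ih2]
    have e3 : hh ^ (n + 1 + 2) = hh ^ (n + 1) * hh ^ 2 := by ring
    have e4 : hh ^ 2 = 1 - 10000 * hh := by linarith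
    rw [e3, e4]
    ring

theorem qq_pow_le (n : ℕ) : (qq n : ℝ) * hh ^ n ≤ 1 ∧ (qq (n + 1) : ℝ) * hh ^ (n + 1) ≤ 1 := by
  induction n with
  | zero =>
    have h1 := hh_eq
    have h2 := hh_pos
    simp only [qq]
    norm_num
    nlinarith
  | succ n ih =>
    refine ⟨ih.2, ?_⟩
    obtain ⟨ih1, ih2⟩ := ih
    have e1 : (qq (n + 1 + 1) : ℝ) = 10000 * qq (n + 1) + qq n := by
      simp only [qq]; push_cast; ring
    have h1 := hh_eq
    have h2 := hh_pos
    rw [e1]
    have e2 : (10000 * (qq (n + 1) : ℝ) + qq n) * hh ^ (n + 1 + 1) =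
      10000 * hh * (qq (n + 1) * hh ^ (n + 1)) + hh ^ 2 * (qq n * hh ^ n) := by ring
    rw [e2]
    have h3 : 10000 * hh * (qq (n + 1) * hh ^ (n + 1)) ≤ 10000 * hh * 1 :=
      mul_le_mul_of_nonneg_left ih2 (by positivity)
    have h4 : hh ^ 2 * (qq n * hh ^ n) ≤ hh ^ 2 * 1 :=
      mul_le_mul_of_nonneg_left ih1 (by positivity)
    linarith

theorem qq_pos (n : ℕ) : 0 < qq n := by
  induction n using Nat.twoStepInduction with
  | zero => simp [qq]
  | one => simp [qq]
  | more n h1 h2 => simp only [qq]; omega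

theorem qq_succ_ge (n : ℕ) : 10000 * qq n ≤ qq (n + 1) := by
  cases n with
  | zero => simp [qq]
  | succ n => simp only [qq]; omega

theorem qq_succ_le (n : ℕ) : qq (n + 1) ≤ 10001 * qq n := by
  cases n with
  | zero => simp [qq]
  | succ n =>
    have h1 := qq_succ_ge n
    have e : qq (n + 1 + 1) = 10000 * qq (n + 1) + qq n := by simp only [qq]
    rw [e]
    have := qq_pos n
    omega

theorem qq_growth (n m : ℕ) : 10000 ^ m * qq n ≤ qq (n + m) := by
  induction m with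
  | zero => simp
  | succ m ih =>
    have h := qq_succ_ge (n + m)
    calc 10000 ^ (m + 1) * qq n = 10000 * (10000 ^ m * qq n) := by ring
      _ ≤ 10000 * qq (n + m) := Nat.mul_le_mul_left _ ih
      _ ≤ _ := h

theorem qq_ge (n : ℕ) : 10000 ^ n ≤ qq n := by
  have := qq_growth 0 n
  simpa [qq] using this

theorem ee_qq_hh_sub_one (n : ℕ) : ‖ee (qq n * hh) - 1‖ ≤ 7 * hh ^ (n + 1) := by
  rw [(qq_hh n).1, ee_add, ee_nat, one_mul]
  refine (norm_ee_sub_one_le _).trans (le_of_eq ?_)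
  rw [abs_mul, abs_pow, abs_neg, abs_one, one_pow, one_mul, abs_of_nonneg (by
    have := hh_pos; positivity)]

/-- The terms of the complex curve. -/
noncomputable def et (j i : ℕ) (θ : ℝ) : ℂ :=
  ((1 / 10 : ℝ) ^ (5 * i + j)) • ee (qq (5 * i + j) * θ)

theorem norm_et (j i : ℕ) (θ : ℝ) : ‖et j i θ‖ = (1 / 10 : ℝ) ^ (5 * i + j) := by
  unfold et
  rw [norm_smul, norm_ee, mul_one, Real.norm_eq_abs, abs_of_nonneg (by positivity)]

theorem pow_index_le (j i : ℕ) : (1 / 10 : ℝ) ^ (5 * i + j) ≤ (1 / 100000 : ℝ) ^ i := by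
  have : (1 / 100000 : ℝ) ^ i = (1 / 10 : ℝ) ^ (5 * i) := by
    rw [pow_mul]; norm_num
  rw [this]
  exact pow_le_pow_of_le_one (by norm_num) (by norm_num) (by omega)

theorem summable_geo : Summable (fun i : ℕ => (1 / 100000 : ℝ) ^ i) :=
  summable_geometric_of_lt_one (by norm_num) (by norm_num)

theorem tsum_geo : ∑' i : ℕ, (1 / 100000 : ℝ) ^ i = 100000 / 99999 := by
  rw [tsum_geometric_of_lt_one (by norm_num) (by norm_num)]
  norm_num

theorem summable_pow_index (j : ℕ) : Summable (fun i : ℕ => (1 / 10 : ℝ) ^ (5 * i + j)) :=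
  Summable.of_nonneg_of_le (fun _ => by positivity) (pow_index_le j) summable_geo

theorem summable_et (j : ℕ) (θ : ℝ) : Summable (fun i => et j i θ) :=
  Summable.of_norm_bounded (summable_pow_index j) (fun i => (norm_et j i θ).le)

/-- The complex components of the curve. -/
noncomputable def etac (j : ℕ) (θ : ℝ) : ℂ := ∑' i, et j i θ

theorem norm_etac_le (j : ℕ) (θ : ℝ) : ‖etac j θ‖ ≤ 100000 / 99999 := by
  rw [← tsum_geo]
  exact tsum_of_norm_bounded summable_geo.hasSum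
    (fun i => (norm_et j i θ).le.trans (pow_index_le j i))

theorem etac_continuous (j : ℕ) : Continuous (etac j) := by
  unfold etac
  apply continuous_tsum (u := fun i => (1 / 100000 : ℝ) ^ i) _ summable_geo
  · intro i θ
    exact (norm_et j i θ).le.trans (pow_index_le j i)
  · intro i
    unfold et
    have := ee_continuous
    fun_prop

theorem etac_add_one (j : ℕ) (θ : ℝ) : etac j (θ + 1) = etac j θ := by
  unfold etac
  congr 1
  ext1 i
  unfold et
  congr 1
  rw [mul_add, mul_one, ee_add, ee_nat, mul_one]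

theorem etac_sub (j : ℕ) (θ θ' : ℝ) :
    etac j θ - etac j θ' = ∑' i, (et j i θ - et j i θ') := by
  unfold etac
  rw [(summable_et j θ).tsum_sub (summable_et j θ')]

theorem et_sub_norm (j i : ℕ) (θ θ' : ℝ) : ‖et j i θ - et j i θ'‖ =
    (1 / 10 : ℝ) ^ (5 * i + j) * ‖ee (qq (5 * i + j) * (θ - θ')) - 1‖ := by
  unfold et
  rw [← smul_sub, norm_smul, Real.norm_eq_abs, abs_of_nonneg (by positivity), ee_sub_norm,
    ← mul_sub]

theorem small_geo_sum (m : ℕ) {x : ℝ} (hx0 : 0 ≤ x) (hx : x ≤ 1 / 2) :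
    ∑ i ∈ Finset.range m, x ^ (m - i) ≤ 2 * x := by
  induction m with
  | zero => simp [hx0]
  | succ m ih =>
    rw [Finset.sum_range_succ]
    have h1 : ∑ i ∈ Finset.range m, x ^ (m + 1 - i) = x * ∑ i ∈ Finset.range m, x ^ (m - i) := by
      rw [Finset.mul_sum]
      apply Finset.sum_congr rfl
      intro i hi
      have : m + 1 - i = (m - i) + 1 := by
        have := Finset.mem_range.1 hi
        omega
      rw [this, pow_succ]
      ring
    rw [h1]
    have h2 : m + 1 - m = 1 := by omega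
    rw [h2, pow_one]
    nlinarith

theorem etac_lower (k : ℕ) (θ θ' : ℝ) (h1 : (qq k : ℝ) * |θ - θ'| ≤ 1 / 2)
    (h2 : 1 / 2 < (qq (k + 1) : ℝ) * |θ - θ'|) :
    (1 / 10 : ℝ) ^ k * (1 / 10000) ≤ ‖etac (k % 5) θ - etac (k % 5) θ'‖ := by
  set j := k % 5 with hj
  set m := k / 5 with hm
  have hk : k = 5 * m + j := by omega
  set δ := |θ - θ'| with hδ
  have hδ0 : 0 ≤ δ := abs_nonneg _
  set D : ℕ → ℂ := fun i => et j i θ - et j i θ' with hD
  have hDs : Summable D := (summable_et j θ).sub (summable_et j θ')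
  set Q : ℝ := (qq k : ℝ) * δ with hQ
  have hQ0 : 0 ≤ Q := by positivity
  have hQlow : 1 / 20002 ≤ Q := by
    have h3 : (qq (k + 1) : ℝ) ≤ 10001 * qq k := by exact_mod_cast qq_succ_le k
    have h4 : (qq (k + 1) : ℝ) * δ ≤ 10001 * qq k * δ := mul_le_mul_of_nonneg_right h3 hδ0
    have h5 : 10001 * (qq k : ℝ) * δ = 10001 * Q := by rw [hQ]; ring
    linarith
  set A : ℝ := (1 / 10 : ℝ) ^ k with hA
  have hA0 : 0 < A := by positivity
  -- main term
  have hmain : A * (4 * Q) ≤ ‖D m‖ := by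
    simp only [hD]
    rw [et_sub_norm, ← hk]
    apply mul_le_mul_of_nonneg_left _ hA0.le
    have h3 : |(qq k : ℝ) * (θ - θ')| = Q := by
      rw [abs_mul, abs_of_nonneg (by positivity : (0:ℝ) ≤ (qq k : ℝ))]
    have h4 := le_norm_ee_sub_one (x := (qq k : ℝ) * (θ - θ')) (by rw [h3]; exact h1)
    rwa [h3] at h4
  -- lower terms
  have hlow : ‖∑ i ∈ Finset.range m, D i‖ ≤ A * (7 * Q) * (2 * (1 / 10 ^ 15)) := by
    have h3 : ∀ i ∈ Finset.range m, ‖D i‖ ≤ A * (7 * Q) * (1 / 10 ^ 15 : ℝ) ^ (m - i) := by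
      intro i hi
      have him : i < m := Finset.mem_range.1 hi
      simp only [hD]
      rw [et_sub_norm]
      set l := 5 * i + j with hl
      have hkl : k = l + 5 * (m - i) := by omega
      have h5 := norm_ee_sub_one_le ((qq l : ℝ) * (θ - θ'))
      have h6 : |(qq l : ℝ) * (θ - θ')| = (qq l : ℝ) * δ := by
        rw [abs_mul, abs_of_nonneg (by positivity : (0:ℝ) ≤ (qq l : ℝ))]
      rw [h6] at h5
      have h7 : (10000 : ℝ) ^ (5 * (m - i)) * qq l ≤ qq k := by
        have := qq_growth l (5 * (m - i))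
        rw [← hkl] at this
        exact_mod_cast this
      have h8 : (1 / 10 : ℝ) ^ l = A * 10 ^ (5 * (m - i)) := by
        have e0 : A = (1 / 10 : ℝ) ^ l * (1 / 10 : ℝ) ^ (5 * (m - i)) := by
          rw [hA, ← pow_add, ← hkl]
        rw [e0, mul_assoc, ← mul_pow]
        norm_num
      have h9 : (10 : ℝ) ^ (5 * (m - i)) * qq l ≤ (1 / 10 ^ 15 : ℝ) ^ (m - i) * qq k := by
        have e1 : (10000 : ℝ) ^ (5 * (m - i)) = (10 ^ 15 : ℝ) ^ (m - i) * 10 ^ (5 * (m - i)) := by
          rw [pow_mul, pow_mul, ← mul_pow]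
          norm_num
        rw [e1] at h7
        have e2 : (0:ℝ) < (10 ^ 15 : ℝ) ^ (m - i) := by positivity
        rw [one_div, inv_pow, inv_mul_eq_div, le_div_iff₀ e2]
        calc _ = (10 ^ 15 : ℝ) ^ (m - i) * 10 ^ (5 * (m - i)) * ↑(qq l) := by ring
          _ ≤ _ := h7
      calc (1 / 10 : ℝ) ^ l * ‖ee ((qq l : ℝ) * (θ - θ')) - 1‖
          ≤ (1 / 10 : ℝ) ^ l * (7 * ((qq l : ℝ) * δ)) :=
            mul_le_mul_of_nonneg_left h5 (by positivity)
        _ = A * 7 * δ * ((10 : ℝ) ^ (5 * (m - i)) * qq l) := by rw [h8]; ring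
        _ ≤ A * 7 * δ * ((1 / 10 ^ 15 : ℝ) ^ (m - i) * qq k) :=
            mul_le_mul_of_nonneg_left h9 (by positivity)
        _ = _ := by rw [hQ]; ring
    calc ‖∑ i ∈ Finset.range m, D i‖ ≤ ∑ i ∈ Finset.range m, ‖D i‖ := norm_sum_le _ _
      _ ≤ ∑ i ∈ Finset.range m, A * (7 * Q) * (1 / 10 ^ 15 : ℝ) ^ (m - i) :=
          Finset.sum_le_sum h3
      _ = A * (7 * Q) * ∑ i ∈ Finset.range m, (1 / 10 ^ 15 : ℝ) ^ (m - i) := by
          rw [Finset.mul_sum]
      _ ≤ _ := by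
          apply mul_le_mul_of_nonneg_left _ (by positivity)
          exact small_geo_sum m (by positivity) (by norm_num)
  -- tail
  have htail : ‖∑' i, D (i + (m + 1))‖ ≤ A * (2 * (1 / 100000) * (100000 / 99999)) := by
    have h3 : ∀ i, ‖D (i + (m + 1))‖ ≤ (A * (2 * (1 / 100000))) * (1 / 100000 : ℝ) ^ i := by
      intro i
      simp only [hD]
      rw [et_sub_norm]
      have h5 := norm_ee_sub_one_le_two ((qq (5 * (i + (m + 1)) + j) : ℝ) * (θ - θ'))
      have h6 : (1 / 10 : ℝ) ^ (5 * (i + (m + 1)) + j) = A * (1 / 100000) * (1 / 100000 : ℝ) ^ i := by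
        have : 5 * (i + (m + 1)) + j = k + 5 + 5 * i := by omega
        rw [this, pow_add, pow_add, pow_mul, ← hA]
        norm_num
      rw [h6]
      calc _ ≤ A * (1 / 100000) * (1 / 100000 : ℝ) ^ i * 2 :=
            mul_le_mul_of_nonneg_left h5 (by positivity)
        _ = _ := by ring
    have h4 := tsum_of_norm_bounded (summable_geo.mul_left (A * (2 * (1 / 100000)))).hasSum h3
    rw [tsum_mul_left, tsum_geo] at h4
    refine h4.trans (le_of_eq ?_)
    ring
  have hsplit : etac j θ - etac j θ' =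
      (∑ i ∈ Finset.range m, D i) + D m + ∑' i, D (i + (m + 1)) := by
    rw [etac_sub, ← hDs.sum_add_tsum_nat_add (m + 1), Finset.sum_range_succ]
  rw [hsplit]
  have h3 : ‖D m‖ ≤ ‖(∑ i ∈ Finset.range m, D i) + D m + ∑' i, D (i + (m + 1))‖ +
      ‖∑ i ∈ Finset.range m, D i‖ + ‖∑' i, D (i + (m + 1))‖ := by
    have : D m = ((∑ i ∈ Finset.range m, D i) + D m + ∑' i, D (i + (m + 1))) -
      (∑ i ∈ Finset.range m, D i) - ∑' i, D (i + (m + 1)) := by ring
    calc ‖D m‖ = ‖((∑ i ∈ Finset.range m, D i) + D m + ∑' i, D (i + (m + 1))) -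
      (∑ i ∈ Finset.range m, D i) - ∑' i, D (i + (m + 1))‖ := by rw [← this]
      _ ≤ _ := (norm_sub_le _ _).trans (add_le_add (norm_sub_le _ _) le_rfl)
  nlinarith

/-- Lipschitz bound for the increment `θ ↦ etac (θ + h) - etac θ`. -/
theorem etac_incr_lip (j : ℕ) (θ θ' : ℝ) :
    ‖(etac j (θ + hh) - etac j θ) - (etac j (θ' + hh) - etac j θ')‖ ≤ 100 * |θ - θ'| := by
  have hh0 := hh_pos
  have h1 : (etac j (θ + hh) - etac j θ) - (etac j (θ' + hh) - etac j θ') =
      ∑' i, ((et j i (θ + hh) - et j i θ) - (et j i (θ' + hh) - et j i θ')) := by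
    rw [etac_sub, etac_sub]
    exact (((summable_et j (θ + hh)).sub (summable_et j θ)).tsum_sub
      ((summable_et j (θ' + hh)).sub (summable_et j θ'))).symm
  rw [h1]
  have h2 : ∀ i, ‖(et j i (θ + hh) - et j i θ) - (et j i (θ' + hh) - et j i θ')‖ ≤
      (49 * |θ - θ'|) * (1 / 100000 : ℝ) ^ i := by
    intro i
    set l := 5 * i + j with hl
    have e1 : (et j i (θ + hh) - et j i θ) - (et j i (θ' + hh) - et j i θ') =
        ((1 / 10 : ℝ) ^ l) • ((ee (qq l * hh) - 1) * (ee (qq l * θ) - ee (qq l * θ'))) := by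
      unfold et
      rw [← hl, mul_add, mul_add, ee_add, ee_add, ← smul_sub, ← smul_sub, ← smul_sub]
      congr 1
      ring
    rw [e1, norm_smul, norm_mul, Real.norm_eq_abs, abs_of_nonneg (by positivity), ee_sub_norm,
      ← mul_sub]
    have e2 := ee_qq_hh_sub_one l
    have e3 := norm_ee_sub_one_le ((qq l : ℝ) * (θ - θ'))
    rw [abs_mul, abs_of_nonneg (by positivity : (0:ℝ) ≤ (qq l : ℝ))] at e3
    have e4 := (qq_pow_le l).1
    have e5 : (1 / 10 : ℝ) ^ l ≤ (1 / 100000 : ℝ) ^ i := pow_index_le j i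
    have e6 : ‖ee (qq l * hh) - 1‖ * ‖ee ((qq l : ℝ) * (θ - θ')) - 1‖ ≤ 49 * |θ - θ'| := by
      calc ‖ee (qq l * hh) - 1‖ * ‖ee ((qq l : ℝ) * (θ - θ')) - 1‖
          ≤ (7 * hh ^ (l + 1)) * (7 * ((qq l : ℝ) * |θ - θ'|)) :=
            mul_le_mul e2 e3 (norm_nonneg _) (by positivity)
        _ = 49 * |θ - θ'| * hh * ((qq l : ℝ) * hh ^ l) := by ring
        _ ≤ 49 * |θ - θ'| * hh * 1 := mul_le_mul_of_nonneg_left e4 (by positivity)
        _ ≤ 49 * |θ - θ'| * 1 * 1 := by
            have := hh_lt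
            have h3 : (0:ℝ) ≤ 49 * |θ - θ'| := by positivity
            nlinarith
        _ = _ := by ring
    calc (1 / 10 : ℝ) ^ l * (‖ee (qq l * hh) - 1‖ * ‖ee ((qq l : ℝ) * (θ - θ')) - 1‖)
        ≤ (1 / 100000 : ℝ) ^ i * (49 * |θ - θ'|) :=
          mul_le_mul e5 e6 (by positivity) (by positivity)
      _ = _ := by ring
  refine (tsum_of_norm_bounded (summable_geo.mul_left (49 * |θ - θ'|)).hasSum h2).trans ?_
  rw [tsum_mul_left, tsum_geo]
  have := abs_nonneg (θ - θ')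
  linarith

/-- Separation: nearby points on the curve have very close parameters modulo one. -/
theorem etac_sep (θ θ' : ℝ) (M : ℝ) (hM : ∀ j < 5, ‖etac j θ - etac j θ'‖ ≤ M) :
    ∃ n : ℤ, |θ - θ' - n| ≤ 10 ^ 16 * M ^ 4 := by
  refine ⟨round (θ - θ'), ?_⟩
  set n := round (θ - θ') with hn
  have hM0 : 0 ≤ M := (norm_nonneg _).trans (hM 0 (by norm_num))
  have hle : |θ - θ' - n| ≤ 1 / 2 := abs_sub_round (θ - θ')
  rcases eq_or_lt_of_le (abs_nonneg (θ - θ' - n)) with h0 | h0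
  · rw [← h0]; positivity
  -- shift
  have hshift : ∀ j, ∀ n : ℤ, etac j (θ' + n) = etac j θ' := by
    intro j n
    have hper : Function.Periodic (etac j) 1 := fun x => etac_add_one j x
    have := hper.int_mul n θ'
    simpa using this
  set θ'' := θ' + n with hθ''
  have hδ : |θ - θ''| = |θ - θ' - n| := by rw [hθ'']; congr 1; ring
  set δ := |θ - θ' - n| with hδd
  have hex : ∃ k, 1 / 2 < (qq (k + 1) : ℝ) * δ := by
    obtain ⟨k, hk⟩ := exists_nat_gt (1 / δ)
    refine ⟨k, ?_⟩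
    have h1 : (k : ℝ) ≤ qq (k + 1) := by
      have h2 : k ≤ qq (k + 1) := by
        have h3 := qq_ge (k + 1)
        have h4 : k + 1 < 10000 ^ (k + 1) := Nat.lt_pow_self (by norm_num)
        omega
      exact_mod_cast h2
    have h2 : 1 < (k : ℝ) * δ := by
      rw [div_lt_iff₀ h0] at hk
      exact hk
    nlinarith
  classical
  obtain ⟨k, hk1, hk2⟩ : ∃ k, (qq k : ℝ) * δ ≤ 1 / 2 ∧ 1 / 2 < (qq (k + 1) : ℝ) * δ := by
    refine ⟨Nat.find hex, ?_, Nat.find_spec hex⟩
    rcases Nat.eq_zero_or_pos (Nat.find hex) with h | h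
    · rw [h]; simpa [qq] using hle
    · obtain ⟨m, hm⟩ := Nat.exists_eq_succ_of_ne_zero h.ne'
      have := Nat.find_min hex (m := m) (by omega)
      rw [hm]
      exact not_lt.1 this
  have h3 := etac_lower k θ θ'' (by rw [hδ]; exact hk1) (by rw [hδ]; exact hk2)
  have h4 : ‖etac (k % 5) θ - etac (k % 5) θ''‖ ≤ M := by
    rw [hθ'', hshift]
    exact hM _ (Nat.mod_lt _ (by norm_num))
  have h5 : (1 / 10 : ℝ) ^ k ≤ 10000 * M := by linarith
  have h6 : δ ≤ ((1 / 10 : ℝ) ^ k) ^ 4 := by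
    have h7 : (10000 : ℝ) ^ k ≤ qq k := by exact_mod_cast qq_ge k
    have h8 : (10000 : ℝ) ^ k * δ ≤ 1 / 2 := (mul_le_mul_of_nonneg_right h7 h0.le).trans hk1
    have h9 : ((1 / 10 : ℝ) ^ k) ^ 4 * (10000 : ℝ) ^ k = 1 := by
      rw [← pow_mul, mul_comm k 4, pow_mul, ← mul_pow]
      norm_num
    have h10 : 0 < (10000 : ℝ) ^ k := by positivity
    by_contra hcon
    push Not at hcon
    have : ((1 / 10 : ℝ) ^ k) ^ 4 * (10000 : ℝ) ^ k < δ * (10000 : ℝ) ^ k :=
      mul_lt_mul_of_pos_right hcon h10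
    linarith
  calc δ ≤ ((1 / 10 : ℝ) ^ k) ^ 4 := h6
    _ ≤ (10000 * M) ^ 4 := pow_le_pow_left₀ (by positivity) h5 4
    _ = 10 ^ 16 * M ^ 4 := by ring

end Pool.Agent.LibMather41
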