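import Pool.Agent.LibMather41.Curve

/-!
The real curve and flat extensions of Lipschitz functions of the parameter.
-/

set_option linter.unusedSectionVars false

open MeasureTheory Metric Set Filter Topology
open scoped ContDiff Real

namespace Pool.Agent.LibMather41

/-- Index set of the coordinates of one block. -/
abbrev Kp : Type := Fin 5 × Bool

/-- The real curve. -/
noncomputable def eta (θ : ℝ) (c : Kp) : ℝ :=
  (1 / 10) * (if c.2 then (etac c.1 θ).im else (etac c.1 θ).re)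

theorem eta_abs_le (θ : ℝ) (c : Kp) : |eta θ c| ≤ 1 / 8 := by
  unfold eta
  have h := norm_etac_le c.1 θ
  rw [abs_mul]
  have h1 : |(if c.2 then (etac c.1 θ).im else (etac c.1 θ).re)| ≤ 100000 / 99999 := by
    split_ifs
    · exact (Complex.abs_im_le_norm _).trans h
    · exact (Complex.abs_re_le_norm _).trans h
  have h2 : |(1 / 10 : ℝ)| = 1 / 10 := by norm_num
  rw [h2]
  nlinarith

theorem eta_continuous : Continuous eta := by
  apply continuous_pi
  intro c
  unfold eta
  have h := etac_continuous c.1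
  split_ifs
  · exact continuous_const.mul (Complex.continuous_im.comp h)
  · exact continuous_const.mul (Complex.continuous_re.comp h)

theorem eta_add_one (θ : ℝ) : eta (θ + 1) = eta θ := by
  ext c
  unfold eta
  rw [etac_add_one]

theorem eta_add_int (θ : ℝ) (n : ℤ) : eta (θ + n) = eta θ := by
  have hper : Function.Periodic eta 1 := eta_add_one
  have := hper.int_mul n θ
  simpa using this

theorem eta_incr_lip (c : Kp) (θ θ' : ℝ) :
    |(eta (θ + hh) c - eta θ c) - (eta (θ' + hh) c - eta θ' c)| ≤ 10 * |θ - θ'| := by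
  have h := etac_incr_lip c.1 θ θ'
  unfold eta
  split_ifs
  · have h1 := (Complex.abs_im_le_norm _).trans h
    simp only [Complex.sub_im] at h1
    rw [show (1 / 10 * (etac (↑c.1) (θ + hh)).im - 1 / 10 * (etac (↑c.1) θ).im -
      (1 / 10 * (etac (↑c.1) (θ' + hh)).im - 1 / 10 * (etac (↑c.1) θ').im)) =
      (1 / 10) * ((etac (↑c.1) (θ + hh)).im - (etac (↑c.1) θ).im -
      ((etac (↑c.1) (θ' + hh)).im - (etac (↑c.1) θ').im)) by ring, abs_mul]
    have h2 : |(1 / 10 : ℝ)| = 1 / 10 := by norm_num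
    rw [h2]
    linarith
  · have h1 := (Complex.abs_re_le_norm _).trans h
    simp only [Complex.sub_re] at h1
    rw [show (1 / 10 * (etac (↑c.1) (θ + hh)).re - 1 / 10 * (etac (↑c.1) θ).re -
      (1 / 10 * (etac (↑c.1) (θ' + hh)).re - 1 / 10 * (etac (↑c.1) θ').re)) =
      (1 / 10) * ((etac (↑c.1) (θ + hh)).re - (etac (↑c.1) θ).re -
      ((etac (↑c.1) (θ' + hh)).re - (etac (↑c.1) θ').re)) by ring, abs_mul]
    have h2 : |(1 / 10 : ℝ)| = 1 / 10 := by norm_num
    rw [h2]
    linarith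

/-- Constant in the separation inequality. -/
noncomputable def C1 : ℝ := 10 ^ 16 * 20 ^ 4

theorem eta_sep (θ θ' : ℝ) : ∃ n : ℤ, |θ - θ' - n| ≤ C1 * ‖eta θ - eta θ'‖ ^ 4 := by
  obtain ⟨n, hn⟩ := etac_sep θ θ' (20 * ‖eta θ - eta θ'‖) (by
    intro j hj
    have h1 := norm_le_pi_norm (eta θ - eta θ') (⟨j, hj⟩, false)
    have h2 := norm_le_pi_norm (eta θ - eta θ') (⟨j, hj⟩, true)
    simp only [eta, Pi.sub_apply, Bool.false_eq_true, if_false, if_true, ← mul_sub,
      Real.norm_eq_abs, abs_mul] at h1 h2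
    have h3 : |(1 / 10 : ℝ)| = 1 / 10 := by norm_num
    rw [h3] at h1 h2
    have h4 := Complex.norm_le_abs_re_add_abs_im (etac j θ - etac j θ')
    rw [Complex.sub_re, Complex.sub_im] at h4
    linarith)
  refine ⟨n, hn.trans (le_of_eq ?_)⟩
  unfold C1
  ring

/-- Integer vectors as real vectors. -/
def zv {ι : Type} (k : ι → ℤ) : ι → ℝ := fun i => (k i : ℝ)

theorem exists_ext (φ : ℝ → ℝ) (hper : ∀ θ, φ (θ + 1) = φ θ) (B : ℝ) (hB : ∀ θ, |φ θ| ≤ B)
    (L : ℝ) (hL : ∀ θ θ', |φ θ - φ θ'| ≤ L * |θ - θ'|) :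
    ∃ (F : (Kp → ℝ) → ℝ) (C' : ℝ), 0 ≤ C' ∧ ContDiff ℝ 3 F ∧ (∀ θ, F (eta θ) = φ θ) ∧
      (∀ θ (k : Kp → ℤ) x, |F x - φ θ| ≤ C' * ‖x - (eta θ + zv k)‖ ^ 4) ∧
      (∀ (k : Kp → ℤ) x, F (x + zv k) = F x) := by
  have hB0 : 0 ≤ B := (abs_nonneg _).trans (hB 0)
  have hL0 : 0 ≤ L := by
    have h := hL 1 0
    have h2 := (abs_nonneg (φ 1 - φ 0)).trans h
    simpa using h2
  have hC1 : 0 ≤ C1 := by unfold C1; positivity
  have hper' : ∀ θ (n : ℤ), φ (θ + n) = φ θ := by
    intro θ n
    have hp : Function.Periodic φ 1 := hper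
    have := hp.int_mul n θ
    simpa using this
  obtain ⟨F, C', hC', hF1, hF2, hF3, hF4⟩ := exists_flat_param (ℝ × (Kp → ℤ))
    (fun α => eta α.1 + zv α.2) (fun α => φ α.1) B (fun α => hB _) (L * C1 + 32 * B)
    (by positivity) (by
      rintro ⟨θ, k⟩ ⟨θ', k'⟩
      simp only
      by_cases hk : k = k'
      · subst hk
        obtain ⟨n, hn⟩ := eta_sep θ θ'
        have h1 : |φ θ - φ θ'| ≤ L * |θ - θ' - n| := by
          have := hL θ (θ' + n)
          rw [hper'] at this
          rwa [show θ - (θ' + n) = θ - θ' - n by ring] at this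
        rw [add_sub_add_right_eq_sub]
        have h2 : L * |θ - θ' - n| ≤ L * (C1 * ‖eta θ - eta θ'‖ ^ 4) :=
          mul_le_mul_of_nonneg_left hn hL0
        have h3 : 0 ≤ 32 * B * ‖eta θ - eta θ'‖ ^ 4 := by positivity
        nlinarith
      · obtain ⟨c, hc⟩ := Function.ne_iff.1 hk
        have h1 : (1 : ℝ) / 2 ≤ ‖(eta θ + zv k) - (eta θ' + zv k')‖ := by
          have h2 := norm_le_pi_norm ((eta θ + zv k) - (eta θ' + zv k')) c
          simp only [Pi.sub_apply, Pi.add_apply, zv, Real.norm_eq_abs] at h2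
          have h3 : (1 : ℝ) ≤ |(k c : ℝ) - k' c| := by
            have : (1 : ℤ) ≤ |k c - k' c| := Int.one_le_abs (sub_ne_zero.2 hc)
            exact_mod_cast this
          have h4 := eta_abs_le θ c
          have h5 := eta_abs_le θ' c
          have h6 : |(k c : ℝ) - k' c| ≤ |eta θ c + k c - (eta θ' c + k' c)| +
              |eta θ c| + |eta θ' c| := by
            have : (k c : ℝ) - k' c = (eta θ c + k c - (eta θ' c + k' c)) - eta θ c + eta θ' c := by
              ring
            rw [this]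
            exact (abs_add_le _ _).trans (add_le_add (abs_sub _ _) le_rfl)
          linarith
        have h2 : |φ θ - φ θ'| ≤ 2 * B := by
          have := abs_sub (φ θ) (φ θ')
          have := hB θ
          have := hB θ'
          linarith
        have h3 : (1 / 2 : ℝ) ^ 4 ≤ ‖(eta θ + zv k) - (eta θ' + zv k')‖ ^ 4 :=
          pow_le_pow_left₀ (by norm_num) h1 4
        have h4 : 0 ≤ L * C1 * ‖(eta θ + zv k) - (eta θ' + zv k')‖ ^ 4 := by positivity
        nlinarith)
    {z | ∃ k : Kp → ℤ, z = zv k} (by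
      rintro _ ⟨k, rfl⟩ ⟨θ, k'⟩
      refine ⟨(θ, k' + k), ?_, rfl⟩
      simp only
      ext c
      simp [zv]
      ring) (by
      rintro _ ⟨k, rfl⟩
      refine ⟨-k, ?_⟩
      ext c
      simp [zv])
  refine ⟨F, C', hC', hF1, ?_, ?_, ?_⟩
  · intro θ
    have := hF2 (θ, 0)
    simp only at this
    have h0 : eta θ + zv (0 : Kp → ℤ) = eta θ := by ext c; simp [zv]
    rwa [h0] at this
  · intro θ k x
    exact hF3 (θ, k) x
  · intro k x
    exact hF4 _ ⟨k, rfl⟩ x

end Pool.Agent.LibMather41
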