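import Pool.Agent.LibMather41.Bump
import Pool.Agent.LibMather41.Ext

/-!
The extensions and majorants entering the Lagrangian.
-/

set_option linter.unusedVariables false

open MeasureTheory Metric Set Filter Topology
open scoped ContDiff Real

namespace Pool.Agent.LibMather41

theorem exists_uP (c : Kp) : ∃ F : (Kp → ℝ) → ℝ, ContDiff ℝ 3 F ∧
    (∀ θ, F (eta θ) = eta (θ + hh) c - eta θ c) ∧ (∀ (k : Kp → ℤ) x, F (x + zv k) = F x) := by
  obtain ⟨F, C', _, h1, h2, _, h3⟩ := exists_ext (fun θ => eta (θ + hh) c - eta θ c)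
    (fun θ => by rw [show θ + 1 + hh = θ + hh + 1 by ring, eta_add_one, eta_add_one])
    (1 / 4) (fun θ => by
      have h1 := eta_abs_le (θ + hh) c
      have h2 := eta_abs_le θ c
      have := abs_sub (eta (θ + hh) c) (eta θ c)
      linarith) 10 (fun θ θ' => eta_incr_lip c θ θ')
  exact ⟨F, h1, h2, h3⟩

theorem exists_uM (c : Kp) : ∃ F : (Kp → ℝ) → ℝ, ContDiff ℝ 3 F ∧
    (∀ θ, F (eta θ) = eta θ c - eta (θ - hh) c) ∧ (∀ (k : Kp → ℤ) x, F (x + zv k) = F x) := by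
  obtain ⟨F, C', _, h1, h2, _, h3⟩ := exists_ext (fun θ => eta θ c - eta (θ - hh) c)
    (fun θ => by
      have e : θ + 1 - hh = θ - hh + 1 := by ring
      simp only [e, eta_add_one])
    (1 / 4) (fun θ => by
      have h1 := eta_abs_le (θ - hh) c
      have h2 := eta_abs_le θ c
      have := abs_sub (eta θ c) (eta (θ - hh) c)
      linarith) 10 (fun θ θ' => by
      have h := eta_incr_lip c (θ - hh) (θ' - hh)
      simp only [sub_add_cancel, sub_sub_sub_cancel_right] at h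
      exact h)
  exact ⟨F, h1, h2, h3⟩

/-- The extension of the forward increment. -/
noncomputable def uP (c : Kp) : (Kp → ℝ) → ℝ := (exists_uP c).choose

theorem uP_contDiff (c : Kp) : ContDiff ℝ 3 (uP c) := (exists_uP c).choose_spec.1

theorem uP_eta (c : Kp) (θ : ℝ) : uP c (eta θ) = eta (θ + hh) c - eta θ c :=
  (exists_uP c).choose_spec.2.1 θ

theorem uP_per (c : Kp) (k : Kp → ℤ) (x : Kp → ℝ) : uP c (x + zv k) = uP c x :=
  (exists_uP c).choose_spec.2.2 k x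

/-- The extension of the backward increment. -/
noncomputable def uM (c : Kp) : (Kp → ℝ) → ℝ := (exists_uM c).choose

theorem uM_contDiff (c : Kp) : ContDiff ℝ 3 (uM c) := (exists_uM c).choose_spec.1

theorem uM_eta (c : Kp) (θ : ℝ) : uM c (eta θ) = eta θ c - eta (θ - hh) c :=
  (exists_uM c).choose_spec.2.1 θ

theorem uM_per (c : Kp) (k : Kp → ℤ) (x : Kp → ℝ) : uM c (x + zv k) = uM c x :=
  (exists_uM c).choose_spec.2.2 k x

theorem ee_lip (θ θ' : ℝ) : ‖ee θ - ee θ'‖ ≤ 7 * |θ - θ'| := by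
  rw [ee_sub_norm]; exact norm_ee_sub_one_le _

theorem ee_add_one (θ : ℝ) : ee (θ + 1) = ee θ := by
  have : ee 1 = 1 := by simpa using ee_int 1
  rw [ee_add, this, mul_one]

theorem exists_D : ∃ (F G : (Kp → ℝ) → ℝ) (C : ℝ), 0 ≤ C ∧ ContDiff ℝ 3 F ∧ ContDiff ℝ 3 G ∧
    (∀ θ, F (eta θ) = (ee θ).re) ∧ (∀ θ, G (eta θ) = (ee θ).im) ∧
    (∀ θ (k : Kp → ℤ) x, |F x - (ee θ).re| ≤ C * ‖x - (eta θ + zv k)‖ ^ 4) ∧
    (∀ θ (k : Kp → ℤ) x, |G x - (ee θ).im| ≤ C * ‖x - (eta θ + zv k)‖ ^ 4) ∧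
    (∀ (k : Kp → ℤ) x, F (x + zv k) = F x) ∧ (∀ (k : Kp → ℤ) x, G (x + zv k) = G x) := by
  obtain ⟨F, C, hC, h1, h2, h3, h4⟩ := exists_ext (fun θ => (ee θ).re)
    (fun θ => by rw [ee_add_one]) 1 (fun θ => by
      have := Complex.abs_re_le_norm (ee θ)
      rwa [norm_ee] at this) 7 (fun θ θ' => by
      have := Complex.abs_re_le_norm (ee θ - ee θ')
      rw [Complex.sub_re] at this
      exact this.trans (ee_lip θ θ'))
  obtain ⟨G, C', hC', h1', h2', h3', h4'⟩ := exists_ext (fun θ => (ee θ).im)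
    (fun θ => by rw [ee_add_one]) 1 (fun θ => by
      have := Complex.abs_im_le_norm (ee θ)
      rwa [norm_ee] at this) 7 (fun θ θ' => by
      have := Complex.abs_im_le_norm (ee θ - ee θ')
      rw [Complex.sub_im] at this
      exact this.trans (ee_lip θ θ'))
  refine ⟨F, G, C + C', by positivity, h1, h1', h2, h2', fun θ k x => ?_, fun θ k x => ?_, h4, h4'⟩
  · refine (h3 θ k x).trans ?_
    have : 0 ≤ C' * ‖x - (eta θ + zv k)‖ ^ 4 := by positivity
    linarith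
  · refine (h3' θ k x).trans ?_
    have : 0 ≤ C * ‖x - (eta θ + zv k)‖ ^ 4 := by positivity
    linarith

/-- Real part of the extension of `e(θ)`. -/
noncomputable def Dre : (Kp → ℝ) → ℝ := exists_D.choose

/-- Imaginary part of the extension of `e(θ)`. -/
noncomputable def Dim : (Kp → ℝ) → ℝ := exists_D.choose_spec.choose

/-- Constant. -/
noncomputable def CD : ℝ := exists_D.choose_spec.choose_spec.choose

theorem D_spec : 0 ≤ CD ∧ ContDiff ℝ 3 Dre ∧ ContDiff ℝ 3 Dim ∧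
    (∀ θ, Dre (eta θ) = (ee θ).re) ∧ (∀ θ, Dim (eta θ) = (ee θ).im) ∧
    (∀ θ (k : Kp → ℤ) x, |Dre x - (ee θ).re| ≤ CD * ‖x - (eta θ + zv k)‖ ^ 4) ∧
    (∀ θ (k : Kp → ℤ) x, |Dim x - (ee θ).im| ≤ CD * ‖x - (eta θ + zv k)‖ ^ 4) ∧
    (∀ (k : Kp → ℤ) x, Dre (x + zv k) = Dre x) ∧ (∀ (k : Kp → ℤ) x, Dim (x + zv k) = Dim x) :=
  exists_D.choose_spec.choose_spec.choose_spec

/-- The complex extension. -/
noncomputable def Dc (z : Kp → ℝ) : ℂ := ⟨Dre z, Dim z⟩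

theorem Dc_eta (θ : ℝ) : Dc (eta θ) = ee θ :=
  Complex.ext (D_spec.2.2.2.1 θ) (D_spec.2.2.2.2.1 θ)

theorem Dc_per (k : Kp → ℤ) (x : Kp → ℝ) : Dc (x + zv k) = Dc x :=
  Complex.ext (D_spec.2.2.2.2.2.2.2.1 k x) (D_spec.2.2.2.2.2.2.2.2 k x)

theorem Dc_close (θ : ℝ) (k : Kp → ℤ) (x : Kp → ℝ) :
    ‖Dc x - ee θ‖ ≤ 2 * CD * ‖x - (eta θ + zv k)‖ ^ 4 := by
  have h1 := D_spec.2.2.2.2.2.1 θ k x
  have h2 := D_spec.2.2.2.2.2.2.1 θ k x
  have h3 := Complex.norm_le_abs_re_add_abs_im (Dc x - ee θ)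
  have h4 : (Dc x - ee θ).re = Dre x - (ee θ).re := rfl
  have h5 : (Dc x - ee θ).im = Dim x - (ee θ).im := rfl
  rw [h4, h5] at h3
  linarith

theorem fderiv_flat {F : (Kp → ℝ) → ℝ} {a : Kp → ℝ} {C r : ℝ}
    (h : ∀ x, |F x - r| ≤ C * ‖x - a‖ ^ 4) : HasFDerivAt F (0 : (Kp → ℝ) →L[ℝ] ℝ) a := by
  have hFa : F a = r := by
    have := h a
    simp only [sub_self, norm_zero] at this
    norm_num at this
    linarith
  rw [hasFDerivAt_iff_isLittleO_nhds_zero]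
  have hO : (fun y : Kp → ℝ => F (a + y) - F a - (0 : (Kp → ℝ) →L[ℝ] ℝ) y) =O[𝓝 0]
      fun y => ‖y‖ ^ 4 := by
    apply Asymptotics.IsBigO.of_bound C
    refine Eventually.of_forall fun y => ?_
    have := h (a + y)
    rw [add_sub_cancel_left] at this
    simpa [hFa] using this
  refine hO.trans_isLittleO ?_
  have h4 : (fun y : Kp → ℝ => ‖y‖ ^ 4) =o[𝓝 0] fun y => ‖y‖ ^ 1 := by
    apply Asymptotics.IsLittleO.comp_tendsto (f := fun s : ℝ => s ^ 4) (g := fun s : ℝ => s ^ 1)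
      (l := 𝓝 0)
    · exact Asymptotics.isLittleO_pow_pow (by norm_num)
    · exact tendsto_norm_zero
  have h5 : (fun y : Kp → ℝ => ‖y‖ ^ 1) = fun y => ‖y‖ := by ext; simp
  rw [h5] at h4
  exact h4.of_norm_right

theorem fderiv_Dre_eta (θ : ℝ) : fderiv ℝ Dre (eta θ) = 0 := by
  have h : ∀ x, |Dre x - (ee θ).re| ≤ CD * ‖x - eta θ‖ ^ 4 := by
    intro x
    have := D_spec.2.2.2.2.2.1 θ 0 x
    have e : (zv (0 : Kp → ℤ)) = 0 := by ext; simp [zv]
    rwa [e, add_zero] at this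
  exact (fderiv_flat h).fderiv

theorem fderiv_Dim_eta (θ : ℝ) : fderiv ℝ Dim (eta θ) = 0 := by
  have h : ∀ x, |Dim x - (ee θ).im| ≤ CD * ‖x - eta θ‖ ^ 4 := by
    intro x
    have := D_spec.2.2.2.2.2.2.1 θ 0 x
    have e : (zv (0 : Kp → ℤ)) = 0 := by ext; simp [zv]
    rwa [e, add_zero] at this
  exact (fderiv_flat h).fderiv

theorem kp_bound {F : Type} [NormedAddCommGroup F] (f : (Kp → ℝ) → F) (hf : Continuous f)
    (hper : ∀ (k : Kp → ℤ) x, f (x + zv k) = f x) : ∃ M : ℝ, 0 ≤ M ∧ ∀ z, ‖f z‖ ≤ M := by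
  have hK : IsCompact (Set.Icc (0 : Kp → ℝ) 1) := isCompact_Icc
  obtain ⟨M, hM⟩ := hK.exists_bound_of_continuousOn hf.continuousOn
  refine ⟨max M 0, le_max_right _ _, fun z => ?_⟩
  have h := hper (fun i => -⌊z i⌋) z
  rw [← h]
  refine (hM _ ?_).trans (le_max_left _ _)
  constructor
  · intro i
    have := Int.floor_le (z i)
    simp only [Pi.add_apply, zv, Int.cast_neg, Pi.zero_apply]
    linarith
  · intro i
    have := Int.lt_floor_add_one (z i)
    simp only [Pi.add_apply, zv, Int.cast_neg, Pi.one_apply]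
    linarith

theorem Dc_continuous : Continuous Dc := by
  have h1 : Continuous (fun z => (Dre z : ℂ) + (Dim z : ℂ) * Complex.I) :=
    (Complex.continuous_ofReal.comp D_spec.2.1.continuous).add
      ((Complex.continuous_ofReal.comp D_spec.2.2.1.continuous).mul continuous_const)
  have h2 : (fun z => (Dre z : ℂ) + (Dim z : ℂ) * Complex.I) = Dc := by
    ext z
    exact (Complex.mk_eq_add_mul_I _ _).symm
  rwa [h2] at h1

theorem exists_MD : ∃ M : ℝ, 0 ≤ M ∧ ∀ z, ‖Dc z‖ ≤ M :=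
  kp_bound Dc Dc_continuous Dc_per

/-- Bound of `Dc`. -/
noncomputable def MD : ℝ := exists_MD.choose

theorem MD_nonneg : 0 ≤ MD := exists_MD.choose_spec.1

theorem Dc_le (z : Kp → ℝ) : ‖Dc z‖ ≤ MD := exists_MD.choose_spec.2 z

/-- Majorants: shift `s` between the two phases. -/
theorem exists_W (s : ℝ) : ∃ W : (Kp → ℝ) × (Kp → ℝ) → ℝ, ContDiff ℝ 3 W ∧
    (∀ z, ‖ee s * Dc z.2 - Dc z.1‖ ≤ W z) ∧ (∀ θ, W (eta (θ + s), eta θ) = 0) ∧
    (∀ (k k' : Kp → ℤ) z, W (z + (zv k, zv k')) = W z) := by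
  set S : Set ((Kp → ℝ) × (Kp → ℝ)) :=
    {z | ∃ (θ : ℝ) (k k' : Kp → ℤ), z = (eta (θ + s) + zv k, eta θ + zv k')} with hS
  set P : Set ((Kp → ℝ) × (Kp → ℝ)) := {z | ∃ (k k' : Kp → ℤ), z = (zv k, zv k')} with hP
  have hne : S.Nonempty := ⟨_, 0, 0, 0, rfl⟩
  have hzadd : ∀ k k' : Kp → ℤ, zv (k + k') = zv k + zv k' := by
    intro k k'; ext i; simp [zv]
  have hzneg : ∀ k : Kp → ℤ, zv (-k) = -zv k := by
    intro k; ext i; simp [zv]
  have hCD := D_spec.1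
  obtain ⟨W, h1, h2, h3, h4⟩ := exists_majorant S hne (fun z => ‖ee s * Dc z.2 - Dc z.1‖)
    (MD + MD) (4 * CD) (by
      intro z
      rw [abs_norm]
      refine (norm_sub_le _ _).trans (add_le_add ?_ (Dc_le _))
      rw [norm_mul, norm_ee, one_mul]
      exact Dc_le _) (by positivity) (by
      rintro a ⟨θ, k, k', rfl⟩ x
      rw [abs_norm]
      have e1 := Dc_close (θ + s) k x.1
      have e2 := Dc_close θ k' x.2
      have e3 : ee s * Dc x.2 - Dc x.1 = ee s * (Dc x.2 - ee θ) - (Dc x.1 - ee (θ + s)) := by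
        rw [ee_add]; ring
      rw [e3]
      refine (norm_sub_le _ _).trans ?_
      rw [norm_mul, norm_ee, one_mul]
      have e4 : ‖x.1 - (eta (θ + s) + zv k)‖ ≤ ‖x - (eta (θ + s) + zv k, eta θ + zv k')‖ :=
        norm_fst_le (x - (eta (θ + s) + zv k, eta θ + zv k'))
      have e5 : ‖x.2 - (eta θ + zv k')‖ ≤ ‖x - (eta (θ + s) + zv k, eta θ + zv k')‖ :=
        norm_snd_le (x - (eta (θ + s) + zv k, eta θ + zv k'))
      have e6 := pow_le_pow_left₀ (norm_nonneg _) e4 4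
      have e7 := pow_le_pow_left₀ (norm_nonneg _) e5 4
      nlinarith) P (by
      rintro _ ⟨k, k', rfl⟩ x
      constructor
      · rintro ⟨θ, m, m', rfl⟩
        refine ⟨θ, m + k, m' + k', ?_⟩
        rw [hzadd, hzadd, Prod.mk_add_mk, add_assoc, add_assoc]
      · rintro ⟨θ, m, m', hx⟩
        refine ⟨θ, m + -k, m' + -k', ?_⟩
        have hx' : x = (eta (θ + s) + zv m, eta θ + zv m') - (zv k, zv k') := by
          rw [← hx]; simp
        rw [hx', hzadd, hzadd, hzneg, hzneg, Prod.mk_sub_mk]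
        refine Prod.ext ?_ ?_
        · simp only; abel
        · simp only; abel)
  refine ⟨W, h1, fun z => ?_, fun θ => ?_, fun k k' z => ?_⟩
  · have := h2 z
    rwa [abs_norm] at this
  · apply h3
    refine ⟨θ, 0, 0, ?_⟩
    have e : (zv (0 : Kp → ℤ)) = 0 := by ext; simp [zv]
    rw [e, add_zero, add_zero]
  · exact h4 _ ⟨k, k', rfl⟩ z

/-- Majorants. -/
noncomputable def Wm (s : ℝ) : (Kp → ℝ) × (Kp → ℝ) → ℝ := (exists_W s).choose

theorem Wm_contDiff (s : ℝ) : ContDiff ℝ 3 (Wm s) := (exists_W s).choose_spec.1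

theorem le_Wm (s : ℝ) (z : (Kp → ℝ) × (Kp → ℝ)) : ‖ee s * Dc z.2 - Dc z.1‖ ≤ Wm s z :=
  (exists_W s).choose_spec.2.1 z

theorem Wm_eta (s θ : ℝ) : Wm s (eta (θ + s), eta θ) = 0 := (exists_W s).choose_spec.2.2.1 θ

theorem Wm_per (s : ℝ) (k k' : Kp → ℤ) (z : (Kp → ℝ) × (Kp → ℝ)) :
    Wm s (z + (zv k, zv k')) = Wm s z := (exists_W s).choose_spec.2.2.2 k k' z

theorem Wm_nonneg (s : ℝ) (z : (Kp → ℝ) × (Kp → ℝ)) : 0 ≤ Wm s z :=
  (norm_nonneg _).trans (le_Wm s z)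

/-- Sum of squares of the partial derivatives of `Dre`, `Dim`. -/
noncomputable def GD (z : Kp → ℝ) : ℝ :=
  ∑ c, ((fderiv ℝ Dre z (Pi.single c 1)) ^ 2 + (fderiv ℝ Dim z (Pi.single c 1)) ^ 2)

theorem GD_contDiff : ContDiff ℝ 2 GD := by
  unfold GD
  refine ContDiff.sum fun c _ => ContDiff.add (ContDiff.pow ?_ 2) (ContDiff.pow ?_ 2)
  · exact (D_spec.2.1.fderiv_right (m := 2) (by norm_num)).clm_apply contDiff_const
  · exact (D_spec.2.2.1.fderiv_right (m := 2) (by norm_num)).clm_apply contDiff_const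

theorem GD_nonneg (z : Kp → ℝ) : 0 ≤ GD z :=
  Finset.sum_nonneg fun c _ => add_nonneg (sq_nonneg _) (sq_nonneg _)

theorem GD_eta (θ : ℝ) : GD (eta θ) = 0 := by
  unfold GD
  rw [fderiv_Dre_eta, fderiv_Dim_eta]
  simp

theorem GD_per (k : Kp → ℤ) (x : Kp → ℝ) : GD (x + zv k) = GD x := by
  have h1 : fderiv ℝ Dre (x + zv k) = fderiv ℝ Dre x := by
    rw [← fderiv_comp_add_right]
    congr 1
    ext z
    exact D_spec.2.2.2.2.2.2.2.1 k z
  have h2 : fderiv ℝ Dim (x + zv k) = fderiv ℝ Dim x := by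
    rw [← fderiv_comp_add_right]
    congr 1
    ext z
    exact D_spec.2.2.2.2.2.2.2.2 k z
  unfold GD
  rw [h1, h2]

theorem clm_sum (A : (Kp → ℝ) →L[ℝ] ℝ) (w : Kp → ℝ) : A w = ∑ c, w c * A (Pi.single c 1) := by
  conv_lhs => rw [← Finset.univ_sum_single w]
  rw [map_sum]
  apply Finset.sum_congr rfl
  intro c _
  have : (Pi.single c (w c) : Kp → ℝ) = w c • Pi.single c (1 : ℝ) := by
    rw [← Pi.single_smul, smul_eq_mul, mul_one]
  rw [this, map_smul, smul_eq_mul]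

/-- Young inequality for the derivative of the extension. -/
theorem young_D (z w : Kp → ℝ) (s : ℝ) (hs : 0 ≤ s) :
    s * (|fderiv ℝ Dre z w| + |fderiv ℝ Dim z w|) ≤ 1 / 2 * ∑ c, (w c) ^ 2 + s ^ 2 * GD z := by
  have h1 : |fderiv ℝ Dre z w| ≤ ∑ c, |w c| * |fderiv ℝ Dre z (Pi.single c 1)| := by
    rw [clm_sum]
    refine (Finset.abs_sum_le_sum_abs _ _).trans (le_of_eq ?_)
    simp only [abs_mul]
  have h2 : |fderiv ℝ Dim z w| ≤ ∑ c, |w c| * |fderiv ℝ Dim z (Pi.single c 1)| := by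
    rw [clm_sum]
    refine (Finset.abs_sum_le_sum_abs _ _).trans (le_of_eq ?_)
    simp only [abs_mul]
  have h3 : s * (|fderiv ℝ Dre z w| + |fderiv ℝ Dim z w|) ≤
      ∑ c, s * (|w c| * |fderiv ℝ Dre z (Pi.single c 1)| +
        |w c| * |fderiv ℝ Dim z (Pi.single c 1)|) := by
    rw [← Finset.mul_sum, Finset.sum_add_distrib]
    exact mul_le_mul_of_nonneg_left (add_le_add h1 h2) hs
  refine h3.trans ?_
  unfold GD
  rw [Finset.mul_sum, Finset.mul_sum, ← Finset.sum_add_distrib]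
  apply Finset.sum_le_sum
  intro c _
  set p := |fderiv ℝ Dre z (Pi.single c 1)| with hp
  set q := |fderiv ℝ Dim z (Pi.single c 1)| with hq
  have e1 : (fderiv ℝ Dre z (Pi.single c 1)) ^ 2 = p ^ 2 := by rw [hp, sq_abs]
  have e2 : (fderiv ℝ Dim z (Pi.single c 1)) ^ 2 = q ^ 2 := by rw [hq, sq_abs]
  have e3 : (w c) ^ 2 = |w c| ^ 2 := (sq_abs _).symm
  rw [e1, e2, e3]
  nlinarith [sq_nonneg (|w c| - s * (p + q)), sq_nonneg (s * (p - q))]

end Pool.Agent.LibMather41
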