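import Mathlib

/-!
Tonelli Lagrangians on flat tori, their Euler-Lagrange flow, invariant measures, Mather's beta
function and its vertices.
-/

open MeasureTheory Filter Topology Bornology

namespace Pool.Agent.LibMather41

/-- The space `TM × 𝕋` for the torus `M = 𝕋^ι`: base point, velocity, time modulo one. -/
abbrev Phase (ι : Type) : Type := (ι → UnitAddCircle) × (ι → ℝ) × UnitAddCircle

/-- The covering map of `TM × 𝕋` by `ℝ^ι × ℝ^ι × ℝ`. -/
def proj {ι : Type} (x v : ι → ℝ) (t : ℝ) : Phase ι :=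
  (fun i => ((x i : ℝ) : UnitAddCircle), v, ((t : ℝ) : UnitAddCircle))

section

variable {ι : Type} [Fintype ι] [DecidableEq ι]

/-- The partial derivative of `L` with respect to the `i`-th velocity coordinate. -/
noncomputable def dV (L : Phase ι → ℝ) (i : ι) (x v : ι → ℝ) (t : ℝ) : ℝ :=
  fderiv ℝ (fun w : ι → ℝ => L (proj x w t)) v (Pi.single i 1)

/-- The partial derivative of `L` with respect to the `i`-th position coordinate. -/
noncomputable def dX (L : Phase ι → ℝ) (i : ι) (x v : ι → ℝ) (t : ℝ) : ℝ :=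
  fderiv ℝ (fun y : ι → ℝ => L (proj y v t)) x (Pi.single i 1)

/-- `γ` (a curve in the universal cover `ℝ^ι` of the torus) is an extremal of `L`: it is `C^2` and
satisfies the Euler-Lagrange equations `d/dt (∂L/∂v_i) = ∂L/∂x_i` along `(γ, γ', t)`. -/
def IsExtremal (L : Phase ι → ℝ) (γ : ℝ → ι → ℝ) : Prop :=
  ContDiff ℝ 2 γ ∧ ∀ (i : ι) (s : ℝ),
    HasDerivAt (fun τ => dV L i (γ τ) (deriv γ τ) τ) (dX L i (γ s) (deriv γ s) s) s

/-- `Φ` is the (complete) Euler-Lagrange flow of `L` on `TM × 𝕋`: through every initial condition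
there is an extremal defined for all times, and every extremal, lifted to `TM × 𝕋`, is an orbit
of `Φ`. -/
def IsELFlow (L : Phase ι → ℝ) (Φ : ℝ → Phase ι → Phase ι) : Prop :=
  (∀ (x v : ι → ℝ) (t : ℝ), ∃ γ : ℝ → ι → ℝ, IsExtremal L γ ∧ γ t = x ∧ deriv γ t = v) ∧
  ∀ γ : ℝ → ι → ℝ, IsExtremal L γ → ∀ t s : ℝ,
    Φ s (proj (γ t) (deriv γ t) t) = proj (γ (t + s)) (deriv γ (t + s)) (t + s)

/-- Tonelli Lagrangians on `TM × 𝕋`, `M = 𝕋^ι`. -/
structure IsTonelli (L : Phase ι → ℝ) : Prop where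
  /-- `L` is of class `C^2`. -/
  contDiff : ContDiff ℝ 2 (fun z : (ι → ℝ) × (ι → ℝ) × ℝ => L (proj z.1 z.2.1 z.2.2))
  /-- The fibre Hessian of `L` is positive definite. -/
  convex : ∀ (x v : ι → ℝ) (t : ℝ) (w : ι → ℝ), w ≠ 0 →
    0 < fderiv ℝ (fderiv ℝ (fun u : ι → ℝ => L (proj x u t))) v w w
  /-- `L` is superlinear in the fibres. -/
  superlinear : ∀ (x : ι → ℝ) (t : ℝ),
    Tendsto (fun v : ι → ℝ => L (proj x v t) / ‖v‖) (cobounded (ι → ℝ)) atTop
  /-- The Euler-Lagrange flow is complete. -/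
  complete : ∃ Φ : ℝ → Phase ι → Phase ι, IsELFlow L Φ

/-- `μ` is a compactly supported Borel probability measure on `TM × 𝕋` which is invariant under
the Euler-Lagrange flow of `L`. -/
def IsInvMeasure (L : Phase ι → ℝ) (μ : Measure (Phase ι)) : Prop :=
  IsProbabilityMeasure μ ∧ (∃ C : Set (Phase ι), IsCompact C ∧ μ Cᶜ = 0) ∧
  ∃ Φ : ℝ → Phase ι → Phase ι, IsELFlow L Φ ∧ ∀ s : ℝ, MeasurePreserving (Φ s) μ μ

/-- The homology class of `μ` in `H_1(𝕋^ι, ℝ) = ℝ^ι`: its `i`-th coordinate is the integral of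
the closed form `dx_i` against `μ`. -/
noncomputable def homology (μ : Measure (Phase ι)) : ι → ℝ := fun i => ∫ z, z.2.1 i ∂μ

/-- The actions of the invariant measures with homology class `h`. -/
def actions (L : Phase ι → ℝ) (h : ι → ℝ) : Set ℝ :=
  {a | ∃ μ : Measure (Phase ι), IsInvMeasure L μ ∧ homology μ = h ∧ a = ∫ z, L z ∂μ}

/-- Mather's beta function. -/
noncomputable def beta (L : Phase ι → ℝ) (h : ι → ℝ) : ℝ := sInf (actions L h)

/-- A class in `H_1(𝕋^ι, ℝ) = ℝ^ι` is rational if some nonzero integer multiple of it lies in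
the lattice `ℤ^ι`. -/
def IsRationalClass (h : ι → ℝ) : Prop := ∃ n : ℤ, n ≠ 0 ∧ ∀ i, ∃ m : ℤ, (n : ℝ) * h i = m

/-- `d` is the one sided directional derivative of `f` at `x` in direction `v`. -/
def HasDirDeriv (f : (ι → ℝ) → ℝ) (x v : ι → ℝ) (d : ℝ) : Prop :=
  Tendsto (fun t : ℝ => (f (x + t • v) - f x) / t) (𝓝[>] 0) (𝓝 d)

/-- `f` has a vertex at `x`: for no `v ≠ 0` is `f'(x; v) + f'(x; -v) = 0`. -/
def HasVertex (f : (ι → ℝ) → ℝ) (x : ι → ℝ) : Prop :=
  ∀ v : ι → ℝ, v ≠ 0 → ∃ d₁ d₂ : ℝ, HasDirDeriv f x v d₁ ∧ HasDirDeriv f x (-v) d₂ ∧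
    d₁ + d₂ ≠ 0

end

end Pool.Agent.LibMather41
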