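import Pool.Agent.LibMather41.LowerE

/-!
The invariant measure of zero action.
-/

set_option linter.unusedVariables false

open MeasureTheory Metric Set Filter Topology
open scoped ContDiff Real

namespace Pool.Agent.LibMather41

theorem bb_win {u : ℝ} (h : bb u ≠ 0) (h1 : -(13 / 16) ≤ u) (h2 : u ≤ 17 / 16) :
    1 / 16 < u ∧ u < 3 / 16 := by
  constructor
  · by_contra hc
    push Not at hc
    exact h (bb_eq_zero_of_mem 0 (by push_cast; linarith) (by push_cast; linarith))
  · by_contra hc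
    push Not at hc
    exact h (bb_eq_zero_of_mem 1 (by push_cast; linarith) (by push_cast; linarith))

/-- Configuration in a period. -/
noncomputable def cfg (θ r : ℝ) : Io → ℝ
  | .inl j => if j = 0 then θ + hh * Bf (r - 1 / 4) else 0
  | .inr (.inl c) => eta θ c + Bf (r - 1 / 4) * (eta (θ + hh) c - eta θ c)
  | .inr (.inr c) => eta θ c + Bf (r - 3 / 4) * (eta (θ + hh) c - eta θ c)

/-- Velocity in a period. -/
noncomputable def vel (θ r : ℝ) : Io → ℝ
  | .inl j => if j = 0 then hh * bb (r - 1 / 4) else 0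
  | .inr (.inl c) => bb (r - 1 / 4) * (eta (θ + hh) c - eta θ c)
  | .inr (.inr c) => bb (r - 3 / 4) * (eta (θ + hh) c - eta θ c)

theorem cfg_hasDerivAt (θ r : ℝ) : HasDerivAt (fun r => cfg θ r) (vel θ r) r := by
  rw [hasDerivAt_pi]
  have h1 := (Bf_hasDerivAt (r - 1 / 4)).comp_sub_const r (1 / 4)
  have h2 := (Bf_hasDerivAt (r - 3 / 4)).comp_sub_const r (3 / 4)
  intro i
  rcases i with j | c | c
  · by_cases hj : j = 0
    · simp only [cfg, vel, hj, if_true]
      exact (h1.const_mul hh).const_add θ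
    · simp only [cfg, vel, hj, if_false]
      exact hasDerivAt_const _ _
  · simp only [cfg, vel]
    exact (h1.mul_const _).const_add _
  · simp only [cfg, vel]
    exact (h2.mul_const _).const_add _

theorem qc_cfg (θ r : ℝ) : qc (cfg θ r) = 1 := by
  simp [qc, cfg, chi_zero]

theorem zA_cfg0 {θ r : ℝ} (h : Bf (r - 1 / 4) = 0) : zA (cfg θ r) = eta θ := by
  ext c
  simp only [zA, cfg, h, zero_mul, add_zero]

theorem zA_cfg1 {θ r : ℝ} (h : Bf (r - 1 / 4) = 1) : zA (cfg θ r) = eta (θ + hh) := by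
  ext c
  simp only [zA, cfg, h, one_mul, add_sub_cancel]

theorem zB_cfg0 {θ r : ℝ} (h : Bf (r - 3 / 4) = 0) : zB (cfg θ r) = eta θ := by
  ext c
  simp only [zB, cfg, h, zero_mul, add_zero]

theorem zB_cfg1 {θ r : ℝ} (h : Bf (r - 3 / 4) = 1) : zB (cfg θ r) = eta (θ + hh) := by
  ext c
  simp only [zB, cfg, h, one_mul, add_sub_cancel]

theorem X_cfg {θ r : ℝ} (h0 : 0 ≤ r) (h1 : r ≤ 1) : Xo (cfg θ r, r) = vel θ r := by
  ext i
  rcases i with j | c | c
  · simp only [Xo, vel, qc_cfg, one_mul]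
  · simp only [Xo, vel, qc_cfg, one_mul]
    by_cases hb : bb (r - 1 / 4) = 0
    · rw [hb, zero_mul, zero_mul]
    · obtain ⟨h2, h3⟩ := bb_win hb (by linarith) (by linarith)
      have h4 : Bf (r - 3 / 4) = 0 := Bf_eq_zero (by linarith) (by linarith)
      rw [zB_cfg0 h4, uP_eta]
  · simp only [Xo, vel, qc_cfg, one_mul]
    by_cases hb : bb (r - 3 / 4) = 0
    · rw [hb, zero_mul, zero_mul]
    · obtain ⟨h2, h3⟩ := bb_win hb (by linarith) (by linarith)
      have h4 : Bf (r - 1 / 4) = 1 := Bf_eq_one (by linarith) (by linarith)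
      rw [zA_cfg1 h4, uM_eta, add_sub_cancel_right]

theorem small_conv {a b s : ℝ} (ha : |a| ≤ 1 / 8) (hb : |b| ≤ 1 / 8) (hs0 : 0 ≤ s) (hs1 : s ≤ 1) :
    |a + s * (b - a)| ≤ 1 / 8 := by
  obtain ⟨a1, a2⟩ := abs_le.1 ha
  obtain ⟨b1, b2⟩ := abs_le.1 hb
  rw [abs_le]
  constructor <;> nlinarith

theorem V1_zero_of {z : (Io → ℝ) × ℝ} (h1 : xi z = 1) (h2 : (1 - sB z.2) ^ 2 * GD (zA z.1) = 0)
    (h3 : (sB z.2) ^ 2 * GD (zB z.1) = 0)
    (h4 : bb (z.2 - 1 / 2) * Wm hh (zA z.1, zB z.1) = 0)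
    (h5 : bb z.2 * Wm 0 (zA z.1, zB z.1) = 0)
    (h6 : ∀ c, |zA z.1 c| ≤ 1 / 8) (h7 : ∀ c, |zB z.1 c| ≤ 1 / 8) : V1 z = 0 := by
  unfold V1
  rw [h1, h2, h3, h4, h5]
  have h8 : ∑ c, th (zA z.1 c) = 0 := Finset.sum_eq_zero fun c _ => th_small (h6 c)
  have h9 : ∑ c, th (zB z.1 c) = 0 := Finset.sum_eq_zero fun c _ => th_small (h7 c)
  rw [h8, h9]
  simp

theorem V1_cfg {θ r : ℝ} (h0 : 0 ≤ r) (h1 : r ≤ 1) : V1 (cfg θ r, r) = 0 := by
  have e1 : ∀ y : ℝ, ee (-y) * ee y = 1 := ee_neg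
  have hx : cfg θ r (.inl 0) = θ + hh * Bf (r - 1 / 4) := by simp [cfg]
  have hA : ∀ c, |zA (cfg θ r) c| ≤ 1 / 8 := by
    intro c
    have hs0 : 0 ≤ Bf (r - 1 / 4) := by
      have h2 : Bf (-(1 / 4)) = 0 := Bf_eq_zero (by norm_num) (by norm_num)
      rw [← h2]; exact Bf_mono (by linarith)
    exact small_conv (eta_abs_le θ c) (eta_abs_le (θ + hh) c) hs0 (Bf_le_one (by linarith))
  have hB : ∀ c, |zB (cfg θ r) c| ≤ 1 / 8 := by
    intro c
    have hs0 : 0 ≤ Bf (r - 3 / 4) := by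
      have h2 : Bf (-(3 / 4)) = 0 := Bf_eq_zero (by norm_num) (by norm_num)
      rw [← h2]; exact Bf_mono (by linarith)
    exact small_conv (eta_abs_le θ c) (eta_abs_le (θ + hh) c) hs0 (Bf_le_one (by linarith))
  have bz : ∀ u : ℝ, -(13 / 16) ≤ u → u ≤ 17 / 16 → (u ≤ 1 / 16 ∨ 3 / 16 ≤ u) → bb u = 0 := by
    intro u g1 g2 g3
    by_contra hc
    obtain ⟨g4, g5⟩ := bb_win hc g1 g2
    rcases g3 with g3 | g3 <;> linarith
  rcases le_or_gt r (5 / 16) with c1 | c1
  · -- window 1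
    have b1 : Bf (r - 1 / 4) = 0 := Bf_eq_zero (by linarith) (by linarith)
    have b2 : Bf (r - 3 / 4) = 0 := Bf_eq_zero (by linarith) (by linarith)
    apply V1_zero_of _ _ _ _ _ hA hB
    · unfold xi
      simp only [hx, zA_cfg0 b1, zB_cfg0 b2, Dc_eta, RR, b1, b2]
      rw [mul_zero, add_zero, sub_self, mul_zero, ee_zero]
      have := e1 θ
      push_cast
      linear_combination this
    · simp only [zA_cfg0 b1, GD_eta, mul_zero]
    · simp only [zB_cfg0 b2, GD_eta, mul_zero]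
    · have : bb (r - 1 / 2) = 0 := bz _ (by linarith) (by linarith) (Or.inl (by linarith))
      simp only [this, zero_mul]
    · simp only [zA_cfg0 b1, zB_cfg0 b2]
      have := Wm_eta 0 θ
      rw [add_zero] at this
      rw [this, mul_zero]
  rcases le_or_gt r (9 / 16) with c2 | c2
  · -- window 2
    have b2 : Bf (r - 3 / 4) = 0 := Bf_eq_zero (by linarith) (by linarith)
    have b3 : sB r = 1 := by
      unfold sB
      rw [Bf_eq_one (by linarith) (by linarith), Bf_eq_zero (by linarith) (by linarith), sub_zero]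
    apply V1_zero_of _ _ _ _ _ hA hB
    · unfold xi
      simp only [hx, zB_cfg0 b2, Dc_eta, RR, b2, b3]
      rw [sub_zero, neg_add, ee_add]
      have h2 := e1 θ
      have h3 := e1 (hh * Bf (r - 1 / 4))
      push_cast
      rw [sub_self, zero_mul, add_zero, one_mul]
      calc ee (-θ) * ee (-(hh * Bf (r - 1 / 4))) * (ee (hh * Bf (r - 1 / 4)) * ee θ) =
          (ee (-θ) * ee θ) * (ee (-(hh * Bf (r - 1 / 4))) * ee (hh * Bf (r - 1 / 4))) := by ring
        _ = 1 := by rw [h2, h3, one_mul]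
    · simp only [b3, sub_self]; ring
    · simp only [zB_cfg0 b2, GD_eta, mul_zero]
    · have : bb (r - 1 / 2) = 0 := bz _ (by linarith) (by linarith) (Or.inl (by linarith))
      simp only [this, zero_mul]
    · have : bb r = 0 := bz _ (by linarith) (by linarith) (Or.inr (by linarith))
      simp only [this, zero_mul]
  rcases le_or_gt r (13 / 16) with c3 | c3
  · -- window 3
    have b1 : Bf (r - 1 / 4) = 1 := Bf_eq_one (by linarith) (by linarith)
    have b2 : Bf (r - 3 / 4) = 0 := Bf_eq_zero (by linarith) (by linarith)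
    apply V1_zero_of _ _ _ _ _ hA hB
    · unfold xi
      simp only [hx, zA_cfg1 b1, zB_cfg0 b2, Dc_eta, RR, b1, b2]
      rw [sub_zero, mul_one]
      have h2 := e1 (θ + hh)
      have h3 : ee (θ + hh) = ee hh * ee θ := by rw [ee_add]; ring
      push_cast
      rw [h3] at h2 ⊢
      linear_combination h2
    · simp only [zA_cfg1 b1, GD_eta, mul_zero]
    · simp only [zB_cfg0 b2, GD_eta, mul_zero]
    · simp only [zA_cfg1 b1, zB_cfg0 b2, Wm_eta, mul_zero]
    · have : bb r = 0 := bz _ (by linarith) (by linarith) (Or.inr (by linarith))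
      simp only [this, zero_mul]
  · -- window 4
    have b1 : Bf (r - 1 / 4) = 1 := Bf_eq_one (by linarith) (by linarith)
    have b3 : sB r = 0 := by
      unfold sB
      rw [Bf_eq_one (by linarith) (by linarith), Bf_eq_one (by linarith) (by linarith), sub_self]
    apply V1_zero_of _ _ _ _ _ hA hB
    · unfold xi
      simp only [hx, zA_cfg1 b1, Dc_eta, b1, b3]
      rw [mul_one]
      have h2 := e1 (θ + hh)
      push_cast
      linear_combination h2
    · simp only [zA_cfg1 b1, GD_eta, mul_zero]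
    · simp only [b3]; ring
    · have : bb (r - 1 / 2) = 0 := bz _ (by linarith) (by linarith) (Or.inr (by linarith))
      simp only [this, zero_mul]
    · have : bb r = 0 := bz _ (by linarith) (by linarith) (Or.inr (by linarith))
      simp only [this, zero_mul]

theorem V_cfg {θ r : ℝ} (h0 : 0 ≤ r) (h1 : r ≤ 1) : Vo (cfg θ r, r) = 0 := by
  unfold Vo
  rw [V1_cfg h0 h1, qc_cfg]
  ring

/-- Gluing of consecutive periods. -/
theorem cfg_glue {θ r : ℝ} (h0 : 15 / 16 ≤ r) (h1 : r ≤ 17 / 16) :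
    cfg θ r = cfg (θ + hh) (r - 1) := by
  ext i
  rcases i with j | c | c
  · by_cases hj : j = 0
    · simp only [cfg, hj, if_true]
      have := Bf_add_one (r - 1 - 1 / 4)
      rw [show r - 1 - 1 / 4 + 1 = r - 1 / 4 by ring] at this
      rw [this]; ring
    · simp only [cfg, hj, if_false]
  · simp only [cfg]
    rw [Bf_eq_one (t := r - 1 / 4) (by linarith) (by linarith),
      Bf_eq_zero (t := r - 1 - 1 / 4) (by linarith) (by linarith)]
    ring
  · simp only [cfg]
    rw [Bf_eq_one (t := r - 3 / 4) (by linarith) (by linarith),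
      Bf_eq_zero (t := r - 1 - 3 / 4) (by linarith) (by linarith)]
    ring

/-- The global curve. -/
noncomputable def gam (ϑ u : ℝ) : Io → ℝ := cfg (ϑ + hh * ⌊u⌋) (u - ⌊u⌋)

theorem gam_near (ϑ u : ℝ) : (fun u' => gam ϑ u') =ᶠ[𝓝 u]
    fun u' => cfg (ϑ + hh * ⌊u⌋) (u' - ⌊u⌋) := by
  have h1 : (⌊u⌋ : ℝ) - 1 / 16 < u := by
    have := Int.floor_le u
    linarith
  have h2 : u < ⌊u⌋ + 1 := Int.lt_floor_add_one u
  filter_upwards [Ioo_mem_nhds h1 h2] with u' hu'
  rcases le_or_gt (⌊u⌋ : ℝ) u' with h3 | h3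
  · have h4 : ⌊u'⌋ = ⌊u⌋ := Int.floor_eq_iff.2 ⟨h3, hu'.2⟩
    unfold gam
    rw [h4]
  · have h4 : ⌊u'⌋ = ⌊u⌋ - 1 := by
      rw [Int.floor_eq_iff]
      push_cast
      constructor
      · linarith [hu'.1]
      · linarith
    unfold gam
    rw [h4]
    push_cast
    rw [cfg_glue (by linarith [hu'.1]) (by linarith)]
    congr 1
    · ring
    · ring

theorem gam_hasDerivAt (ϑ u : ℝ) :
    HasDerivAt (fun u => gam ϑ u) (vel (ϑ + hh * ⌊u⌋) (u - ⌊u⌋)) u := by
  have h1 := (cfg_hasDerivAt (ϑ + hh * ⌊u⌋) (u - ⌊u⌋)).comp_sub_const u (⌊u⌋ : ℝ)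
  exact h1.congr_of_eventuallyEq (gam_near ϑ u)

theorem fract_mem (u : ℝ) : 0 ≤ u - ⌊u⌋ ∧ u - ⌊u⌋ ≤ 1 := by
  have h1 := Int.floor_le u
  have h2 := Int.lt_floor_add_one u
  constructor <;> linarith

theorem X_gam (ϑ u : ℝ) : Xo (gam ϑ u, u) = vel (ϑ + hh * ⌊u⌋) (u - ⌊u⌋) := by
  have h := Xo_per 0 (-⌊u⌋) (gam ϑ u, u)
  have e : (gam ϑ u, u) + (zv (0 : Io → ℤ), ((-⌊u⌋ : ℤ) : ℝ)) = (gam ϑ u, u - ⌊u⌋) := by
    refine Prod.ext ?_ ?_
    · ext i; simp [zv]
    · simp only [Prod.snd_add]; push_cast; ring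
  rw [e] at h
  rw [← h]
  exact X_cfg (fract_mem u).1 (fract_mem u).2

theorem V_gam (ϑ u : ℝ) : Vo (gam ϑ u, u) = 0 := by
  have h := Vo_per 0 (-⌊u⌋) (gam ϑ u, u)
  have e : (gam ϑ u, u) + (zv (0 : Io → ℤ), ((-⌊u⌋ : ℤ) : ℝ)) = (gam ϑ u, u - ⌊u⌋) := by
    refine Prod.ext ?_ ?_
    · ext i; simp [zv]
    · simp only [Prod.snd_add]; push_cast; ring
  rw [e] at h
  rw [← h]
  exact V_cfg (fract_mem u).1 (fract_mem u).2

theorem traj_gam (ϑ u : ℝ) : HasDerivAt (fun u => (gam ϑ u, (0 : Io → ℝ), u))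
    (Do.Y (gam ϑ u, 0, u)) u := by
  have hV' : fderiv ℝ Vo (gam ϑ u, u) = 0 := by
    apply IsLocalMin.fderiv_eq_zero
    refine Eventually.of_forall fun z => ?_
    rw [V_gam]
    exact Vo_nonneg z
  have hY : Do.Y (gam ϑ u, 0, u) = (vel (ϑ + hh * ⌊u⌋) (u - ⌊u⌋), 0, 1) := by
    unfold Sys.Y
    have hX : Do.X (gam ϑ u, u) = vel (ϑ + hh * ⌊u⌋) (u - ⌊u⌋) := X_gam ϑ u
    simp only [hX, zero_add]
    congr 2
    ext i
    unfold Sys.qf
    have hV2 : fderiv ℝ Do.V (gam ϑ u, u) = 0 := hV'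
    simp [hV2]
  rw [hY]
  exact (gam_hasDerivAt ϑ u).prodMk ((hasDerivAt_const _ _).prodMk (hasDerivAt_id u))

/-- The parametrisation of the invariant set. -/
noncomputable def Psi (σ : UnitAddCircle × UnitAddCircle) : Phase Io :=
  Do.unchart (cfg (rep σ.1 - hh * rep σ.2) (rep σ.2), 0, rep σ.2)

/-- The translation. -/
noncomputable def TT (s : ℝ) : UnitAddCircle × UnitAddCircle → UnitAddCircle × UnitAddCircle :=
  Prod.map (fun x => x + ((hh * s : ℝ) : UnitAddCircle)) (fun t => t + ((s : ℝ) : UnitAddCircle))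

theorem cfg_sub_int (θ r : ℝ) (k : ℤ) : cfg (θ - k) r =
    cfg θ r + zv (fun i : Io => if i = .inl 0 then -k else 0) := by
  have he : eta (θ - k) = eta θ := by
    have := eta_add_int θ (-k)
    push_cast at this
    rwa [← sub_eq_add_neg] at this
  have he2 : eta (θ - k + hh) = eta (θ + hh) := by
    have := eta_add_int (θ + hh) (-k)
    push_cast at this
    rw [← this]
    congr 1
    ring
  ext i
  rcases i with j | c | c
  · by_cases hj : j = 0
    · subst hj
      simp only [cfg, if_true, Pi.add_apply, zv]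
      push_cast
      ring
    · simp [cfg, hj, zv]
  · simp [cfg, zv, he, he2]
  · simp [cfg, zv, he, he2]

theorem Phi_Psi (s : ℝ) (σ : UnitAddCircle × UnitAddCircle) :
    Do.Phi s (Psi σ) = Psi (TT s σ) := by
  set a := rep σ.1 with ha
  set r := rep σ.2 with hr
  have hr01 := rep_mem σ.2
  have hfl : ⌊r⌋ = 0 := by
    rw [Int.floor_eq_iff]
    push_cast
    exact ⟨hr01.1, by linarith [hr01.2]⟩
  have h1 := Do.Phi_traj (traj_gam (a - hh * r)) r s
  have e1 : Do.unchart (gam (a - hh * r) r, 0, r) = Psi σ := by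
    unfold Psi gam
    rw [hfl]
    simp
    rfl
  rw [← e1]
  refine h1.trans ?_
  have t1 : rep (TT s σ).2 = r + s - ⌊r + s⌋ := by
    have : (TT s σ).2 = ((r + s : ℝ) : UnitAddCircle) := by
      simp only [TT, Prod.map_snd, AddCircle.coe_add, hr, coe_rep]
    rw [this, rep_coe]
    rfl
  have t2 : rep (TT s σ).1 = a + hh * s - ⌊a + hh * s⌋ := by
    have : (TT s σ).1 = ((a + hh * s : ℝ) : UnitAddCircle) := by
      simp only [TT, Prod.map_fst, AddCircle.coe_add, ha, coe_rep]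
    rw [this, rep_coe]
    rfl
  have e2 : Psi (TT s σ) = Do.unchart (cfg (a - hh * r + hh * ⌊r + s⌋ - ⌊a + hh * s⌋)
      (r + s - ⌊r + s⌋), 0, r + s - ⌊r + s⌋) := by
    unfold Psi
    rw [t1, t2]
    congr 3
    ring
  rw [e2, cfg_sub_int]
  have h3 := Do.unchart_per (fun i : Io => if i = .inl 0 then -⌊a + hh * s⌋ else 0) (-⌊r + s⌋)
    (gam (a - hh * r) (r + s), 0, r + s)
  rw [← h3]
  congr 1
  refine Prod.ext ?_ (Prod.ext ?_ ?_)
  · simp only [Prod.fst_add]
    rfl
  · simp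
  · simp only [Prod.snd_add]
    push_cast
    ring

theorem measurable_Psi : Measurable Psi := by
  unfold Psi
  refine Do.measurable_unchart.comp ?_
  have h1 : Measurable (fun σ : UnitAddCircle × UnitAddCircle => rep σ.2) :=
    measurable_rep.comp measurable_snd
  have h2 : Measurable (fun σ : UnitAddCircle × UnitAddCircle => rep σ.1) :=
    measurable_rep.comp measurable_fst
  have h3 : Measurable (fun σ : UnitAddCircle × UnitAddCircle => rep σ.1 - hh * rep σ.2) :=
    h2.sub (h1.const_mul hh)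
  have hB : Measurable Bf := Bf_contDiff.continuous.measurable
  have he : ∀ c, Measurable (fun θ => eta θ c) := fun c =>
    ((continuous_apply c).comp eta_continuous).measurable
  refine Measurable.prodMk ?_ (Measurable.prodMk measurable_const h1)
  refine measurable_pi_lambda _ fun i => ?_
  rcases i with j | c | c
  · by_cases hj : j = 0
    · simp only [cfg, hj, if_true]
      exact h3.add ((hB.comp (h1.sub_const _)).const_mul _)
    · simp only [cfg, hj, if_false]
      exact measurable_const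
  · simp only [cfg]
    exact ((he c).comp h3).add ((hB.comp (h1.sub_const _)).mul
      (((he c).comp (h3.add_const _)).sub ((he c).comp h3)))
  · simp only [cfg]
    exact ((he c).comp h3).add ((hB.comp (h1.sub_const _)).mul
      (((he c).comp (h3.add_const _)).sub ((he c).comp h3)))

theorem L_Psi (σ : UnitAddCircle × UnitAddCircle) : Do.L (Psi σ) = 0 := by
  unfold Psi Sys.unchart
  rw [Do.L_proj]
  unfold Sys.Lr
  have hr := rep_mem σ.2
  have h1 : Do.V (cfg (rep σ.1 - hh * rep σ.2) (rep σ.2), rep σ.2) = 0 := V_cfg hr.1 hr.2.le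
  simp only [h1]
  simp

theorem exists_K : ∃ μ, IsInvMeasure Do.L μ ∧ ∫ z, Do.L z ∂μ = 0 := by
  obtain ⟨MX, hMX, hX⟩ := exists_MX
  have hT : ∀ s, MeasurePreserving (TT s)
      (volume : Measure (UnitAddCircle × UnitAddCircle)) volume := by
    intro s
    exact (measurePreserving_add_right (volume : Measure UnitAddCircle) _).prod
      (measurePreserving_add_right (volume : Measure UnitAddCircle) _)
  refine ⟨(volume : Measure (UnitAddCircle × UnitAddCircle)).map Psi,
    Do.inv_of_map _ Psi measurable_Psi TT hT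
    ((univ : Set (Io → UnitAddCircle)) ×ˢ ((closedBall (0 : Io → ℝ) MX) ×ˢ
      (univ : Set UnitAddCircle))) ?_ ?_ (fun s σ => Phi_Psi s σ), ?_⟩
  · exact isCompact_univ.prod ((isCompact_closedBall _ _).prod isCompact_univ)
  · intro σ
    refine ⟨mem_univ _, ?_, mem_univ _⟩
    unfold Psi Sys.unchart proj
    simp only [zero_add, mem_closedBall, dist_zero_right]
    exact hX _
  · rw [integral_map measurable_Psi.aemeasurable Do.measurable_L.aestronglyMeasurable]
    simp [L_Psi]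

end Pool.Agent.LibMather41
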