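import Mathlib

/-!
Global flow of a locally Lipschitz autonomous vector field with linear growth.
-/

set_option linter.unusedSectionVars false

open Metric Set Filter Topology
open scoped NNReal

namespace Pool.Agent.LibMather41

section

variable {H : Type} [NormedAddCommGroup H] [NormedSpace ℝ H] [CompleteSpace H]

/-- A priori exponential bound, forward in time. -/
theorem apriori {A : ℝ} (hA : 0 < A) {T : ℝ} {α α' : ℝ → H} (hc : ContinuousOn α (Icc 0 T))
    (hd : ∀ t ∈ Ico 0 T, HasDerivWithinAt α (α' t) (Ici t) t)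
    (hb : ∀ t ∈ Ico 0 T, ‖α' t‖ ≤ A * (1 + ‖α t‖)) :
    ∀ t ∈ Icc 0 T, ‖α t‖ + 1 ≤ (‖α 0‖ + 1) * Real.exp (A * t) := by
  intro t ht
  have h := norm_le_gronwallBound_of_norm_deriv_right_le (K := A) (ε := A) hc hd le_rfl
    (fun s hs => by have := hb s hs; linarith) t ht
  rw [gronwallBound_of_K_ne_0 hA.ne', sub_zero] at h
  have h1 : A / A = 1 := div_self hA.ne'
  rw [h1] at h
  linarith

/-- Cutoff of a vector field outside a ball. -/
noncomputable def cutY (Y : H → H) (R : ℝ) (z : H) : H := (max 0 (min 1 (R - ‖z‖))) • Y z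

theorem cut_nonneg (R : ℝ) (z : H) : 0 ≤ max 0 (min 1 (R - ‖z‖)) := le_max_left _ _

theorem cut_le_one (R : ℝ) (z : H) : max 0 (min 1 (R - ‖z‖)) ≤ 1 :=
  max_le zero_le_one (min_le_left _ _)

theorem cut_lip (R : ℝ) (z w : H) :
    |max 0 (min 1 (R - ‖z‖)) - max 0 (min 1 (R - ‖w‖))| ≤ ‖z - w‖ := by
  have h1 := abs_max_sub_max_le_abs (min 1 (R - ‖z‖)) (min 1 (R - ‖w‖)) 0
  rw [max_comm _ (0:ℝ), max_comm _ (0:ℝ)] at h1
  have h2 := abs_min_sub_min_le_max 1 (R - ‖z‖) 1 (R - ‖w‖)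
  rw [sub_self, abs_zero, max_eq_right (abs_nonneg _)] at h2
  have h3 : |R - ‖z‖ - (R - ‖w‖)| ≤ ‖z - w‖ := by
    rw [show R - ‖z‖ - (R - ‖w‖) = -(‖z‖ - ‖w‖) by ring, abs_neg]
    exact abs_norm_sub_norm_le z w
  linarith

theorem cut_zero {R : ℝ} {z : H} (hz : R ≤ ‖z‖) : max 0 (min 1 (R - ‖z‖)) = 0 := by
  apply max_eq_left
  exact (min_le_right _ _).trans (by linarith)

theorem cut_one {R : ℝ} {z : H} (hz : ‖z‖ ≤ R - 1) : max 0 (min 1 (R - ‖z‖)) = 1 := by
  rw [min_eq_left (by linarith), max_eq_right zero_le_one]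

theorem cutY_eq {Y : H → H} {R : ℝ} {z : H} (hz : ‖z‖ ≤ R - 1) : cutY Y R z = Y z := by
  unfold cutY; rw [cut_one hz, one_smul]

theorem cutY_norm_le (Y : H → H) (R : ℝ) (z : H) : ‖cutY Y R z‖ ≤ ‖Y z‖ := by
  unfold cutY
  rw [norm_smul, Real.norm_eq_abs, abs_of_nonneg (cut_nonneg R z)]
  have := cut_le_one R z
  have := norm_nonneg (Y z)
  nlinarith

theorem cutY_norm_le' {Y : H → H} {R M : ℝ} (hM : 0 ≤ M)
    (hY : ∀ z ∈ closedBall (0 : H) R, ‖Y z‖ ≤ M) (z : H) : ‖cutY Y R z‖ ≤ M := by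
  rcases le_or_gt R ‖z‖ with h | h
  · unfold cutY; rw [cut_zero h, zero_smul, norm_zero]; exact hM
  · exact (cutY_norm_le Y R z).trans (hY z (by rw [mem_closedBall, dist_zero_right]; exact h.le))

theorem cutY_lipschitz {Y : H → H} {R : ℝ} {M K : ℝ≥0}
    (hY : ∀ z ∈ closedBall (0 : H) R, ‖Y z‖ ≤ M)
    (hK : LipschitzOnWith K Y (closedBall 0 R)) : LipschitzWith (M + K) (cutY Y R) := by
  have key : ∀ z w : H, ‖z‖ ≤ R → ‖cutY Y R z - cutY Y R w‖ ≤ (M + K) * ‖z - w‖ := by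
    intro z w hz
    have hzb : z ∈ closedBall (0:H) R := by rw [mem_closedBall, dist_zero_right]; exact hz
    have e1 := cut_lip R z w
    have e2 := hY z hzb
    rcases le_or_gt ‖w‖ R with hw | hw
    · have hwb : w ∈ closedBall (0:H) R := by rw [mem_closedBall, dist_zero_right]; exact hw
      have e3 := hK.dist_le_mul z hzb w hwb
      rw [dist_eq_norm, dist_eq_norm] at e3
      have e4 : cutY Y R z - cutY Y R w =
          (max 0 (min 1 (R - ‖z‖)) - max 0 (min 1 (R - ‖w‖))) • Y z +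
          (max 0 (min 1 (R - ‖w‖))) • (Y z - Y w) := by
        unfold cutY
        rw [sub_smul, smul_sub]
        abel
      rw [e4]
      refine (norm_add_le _ _).trans ?_
      rw [norm_smul, norm_smul, Real.norm_eq_abs, Real.norm_eq_abs,
        abs_of_nonneg (cut_nonneg R w)]
      have e5 : |max 0 (min 1 (R - ‖z‖)) - max 0 (min 1 (R - ‖w‖))| * ‖Y z‖ ≤ ‖z - w‖ * M :=
        mul_le_mul e1 e2 (norm_nonneg _) (norm_nonneg _)
      have e6 : max 0 (min 1 (R - ‖w‖)) * ‖Y z - Y w‖ ≤ 1 * (K * ‖z - w‖) :=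
        mul_le_mul (cut_le_one R w) e3 (norm_nonneg _) zero_le_one
      nlinarith
    · have e3 : cutY Y R w = 0 := by unfold cutY; rw [cut_zero hw.le, zero_smul]
      rw [cut_zero hw.le, sub_zero, abs_of_nonneg (cut_nonneg R z)] at e1
      rw [e3, sub_zero]
      unfold cutY
      rw [norm_smul, Real.norm_eq_abs, abs_of_nonneg (cut_nonneg R z)]
      have e5 : max 0 (min 1 (R - ‖z‖)) * ‖Y z‖ ≤ ‖z - w‖ * M :=
        mul_le_mul e1 e2 (norm_nonneg _) (norm_nonneg _)
      have e6 : 0 ≤ (K : ℝ) * ‖z - w‖ := by positivity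
      nlinarith
  apply LipschitzWith.of_dist_le_mul
  intro z w
  rw [dist_eq_norm, dist_eq_norm]
  push_cast
  rcases le_or_gt ‖z‖ R with hz | hz
  · exact key z w hz
  · rcases le_or_gt ‖w‖ R with hw | hw
    · rw [norm_sub_rev, norm_sub_rev z w]; exact key w z hw
    · have e3 : cutY Y R w = 0 := by unfold cutY; rw [cut_zero hw.le, zero_smul]
      have e4 : cutY Y R z = 0 := by unfold cutY; rw [cut_zero hz.le, zero_smul]
      rw [e3, e4, sub_zero, norm_zero]
      positivity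

/-- Locally Lipschitz with linear growth. -/
structure GoodField (Y : H → H) (A : ℝ) : Prop where
  pos : 0 < A
  grow : ∀ z, ‖Y z‖ ≤ A * (1 + ‖z‖)
  lip : ∀ R : ℝ, ∃ K : ℝ≥0, LipschitzOnWith K Y (closedBall 0 R)

theorem GoodField.neg {Y : H → H} {A : ℝ} (h : GoodField Y A) : GoodField (fun z => -Y z) A := by
  refine ⟨h.pos, fun z => by rw [norm_neg]; exact h.grow z, fun R => ?_⟩
  obtain ⟨K, hK⟩ := h.lip R
  refine ⟨K, ?_⟩
  intro x hx y hy
  rw [edist_neg_neg]
  exact hK hx hy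

/-- Bound of a trajectory on `[0,T]`. -/
theorem GoodField.bound_fwd {Y : H → H} {A : ℝ} (h : GoodField Y A) {c : ℝ → H} {T : ℝ}
    (hc : ∀ t ∈ Icc 0 T, HasDerivAt c (Y (c t)) t) :
    ∀ t ∈ Icc 0 T, ‖c t‖ + 1 ≤ (‖c 0‖ + 1) * Real.exp (A * t) :=
  apriori h.pos (fun t ht => (hc t ht).continuousAt.continuousWithinAt)
    (fun t ht => (hc t (Ico_subset_Icc_self ht)).hasDerivWithinAt)
    (fun t _ => h.grow _)

theorem hasDerivAt_comp_neg' {c : ℝ → H} {c' : H} {t : ℝ} (h : HasDerivAt c c' (-t)) :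
    HasDerivAt (fun s => c (-s)) (-c') t := by
  have := h.scomp t (hasDerivAt_neg t)
  simpa [Function.comp_def] using this

/-- Two sided bound of a global trajectory. -/
theorem GoodField.bound {Y : H → H} {A : ℝ} (h : GoodField Y A) {c : ℝ → H}
    (hc : ∀ t, HasDerivAt c (Y (c t)) t) (t : ℝ) :
    ‖c t‖ + 1 ≤ (‖c 0‖ + 1) * Real.exp (A * |t|) := by
  rcases le_total 0 t with ht | ht
  · rw [abs_of_nonneg ht]
    exact h.bound_fwd (T := t) (fun s _ => hc s) t ⟨ht, le_rfl⟩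
  · have h2 := h.neg.bound_fwd (c := fun s => c (-s)) (T := -t)
      (fun s _ => hasDerivAt_comp_neg' (hc (-s))) (-t) ⟨by linarith, le_rfl⟩
    simp only [neg_neg, neg_zero] at h2
    rwa [abs_of_nonpos ht]

theorem GoodField.exists_local {Y : H → H} {A : ℝ} (h : GoodField Y A) (z₀ : H) {T : ℝ}
    (hT : 0 < T) : ∃ c : ℝ → H, c 0 = z₀ ∧ ∀ t ∈ Ioo (-T) T, HasDerivAt c (Y (c t)) t := by
  set R : ℝ := (‖z₀‖ + 1) * Real.exp (A * T) + 1 with hR
  obtain ⟨K, hK⟩ := h.lip R
  have hRpos : 0 < R := by positivity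
  set M : ℝ≥0 := Real.toNNReal (A * (1 + R)) with hM
  have hMcoe : (M : ℝ) = A * (1 + R) := by
    rw [hM]; exact Real.coe_toNNReal _ (by have := h.pos; positivity)
  have hYM : ∀ z ∈ closedBall (0 : H) R, ‖Y z‖ ≤ M := by
    intro z hz
    rw [hMcoe]
    rw [mem_closedBall, dist_zero_right] at hz
    have := h.grow z
    have := h.pos
    nlinarith
  have hlip := cutY_lipschitz hYM hK
  have h0mem : (0 : ℝ) ∈ Icc (-T) T := ⟨by linarith, hT.le⟩
  have hPL : IsPicardLindelof (fun _ : ℝ => cutY Y R) (tmin := -T) (tmax := T) ⟨0, h0mem⟩ z₀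
      (M * T.toNNReal) 0 M (M + K) := by
    refine ⟨fun t _ => hlip.lipschitzOnWith, fun x _ => continuousOn_const, fun t _ x _ => ?_, ?_⟩
    · exact cutY_norm_le' M.2 hYM x
    · push_cast
      rw [Real.coe_toNNReal T hT.le]
      simp
  obtain ⟨c, hc0, hc⟩ := hPL.exists_eq_forall_mem_Icc_hasDerivWithinAt₀
  refine ⟨c, hc0, ?_⟩
  have hcont : ContinuousOn c (Icc (-T) T) := fun t ht => (hc t ht).continuousWithinAt
  have hfwd : ∀ t ∈ Icc 0 T, ‖c t‖ ≤ R - 1 := by
    intro t ht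
    have h1 := apriori h.pos (α := c) (α' := fun t => cutY Y R (c t)) (T := T)
      (hcont.mono (Icc_subset_Icc (by linarith) le_rfl))
      (fun s hs => (hc s ⟨by linarith [hs.1], hs.2.le⟩).mono_of_mem_nhdsWithin (by
        exact mem_of_superset (Icc_mem_nhdsGE hs.2)
          (Icc_subset_Icc (by linarith [hs.1]) le_rfl)))
      (fun s _ => (cutY_norm_le Y R _).trans (h.grow _)) t ht
    have h2 : Real.exp (A * t) ≤ Real.exp (A * T) :=
      Real.exp_le_exp.2 (mul_le_mul_of_nonneg_left ht.2 h.pos.le)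
    rw [hc0] at h1
    have h3 : (‖z₀‖ + 1) * Real.exp (A * t) ≤ (‖z₀‖ + 1) * Real.exp (A * T) :=
      mul_le_mul_of_nonneg_left h2 (by positivity)
    rw [hR]
    linarith
  have hbwd : ∀ t ∈ Icc 0 T, ‖c (-t)‖ ≤ R - 1 := by
    intro t ht
    have h1 := apriori h.pos (α := fun s => c (-s)) (α' := fun s => -cutY Y R (c (-s))) (T := T)
      (hcont.comp continuous_neg.continuousOn (fun s hs => ⟨by linarith [hs.2], by linarith [hs.1]⟩))
      (fun s hs => by
        have hs' : -s ∈ Icc (-T) T := ⟨by linarith [hs.2], by linarith [hs.1]⟩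
        have h2 := (hc (-s) hs').scomp s (h := fun u : ℝ => -u) (h' := -1) (s := Icc (-T) T)
          (hasDerivAt_neg s).hasDerivWithinAt (fun u hu => ⟨by linarith [hu.2], by linarith [hu.1]⟩)
        have h3 : HasDerivWithinAt (fun s => c (-s)) (-cutY Y R (c (-s))) (Icc (-T) T) s := by
          simpa [Function.comp_def] using h2
        exact h3.mono_of_mem_nhdsWithin (mem_of_superset (Icc_mem_nhdsGE hs.2)
          (Icc_subset_Icc (by linarith [hs.1]) le_rfl)))
      (fun s _ => by rw [norm_neg]; exact (cutY_norm_le Y R _).trans (h.grow _)) t ht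
    have h2 : Real.exp (A * t) ≤ Real.exp (A * T) :=
      Real.exp_le_exp.2 (mul_le_mul_of_nonneg_left ht.2 h.pos.le)
    simp only [neg_zero] at h1
    rw [hc0] at h1
    have h3 : (‖z₀‖ + 1) * Real.exp (A * t) ≤ (‖z₀‖ + 1) * Real.exp (A * T) :=
      mul_le_mul_of_nonneg_left h2 (by positivity)
    rw [hR]
    linarith
  intro t ht
  have hb : ‖c t‖ ≤ R - 1 := by
    rcases le_total 0 t with h0 | h0
    · exact hfwd t ⟨h0, ht.2.le⟩
    · have := hbwd (-t) ⟨by linarith, by linarith [ht.1]⟩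
      rwa [neg_neg] at this
  have h1 := (hc t ⟨ht.1.le, ht.2.le⟩).hasDerivAt (Icc_mem_nhds ht.1 ht.2)
  rwa [cutY_eq hb] at h1

/-- Local uniqueness on symmetric intervals. -/
theorem GoodField.unique_Ioo {Y : H → H} {A : ℝ} (h : GoodField Y A) {c d : ℝ → H} {a : ℝ}
    (hc : ∀ t ∈ Ioo (-a) a, HasDerivAt c (Y (c t)) t)
    (hd : ∀ t ∈ Ioo (-a) a, HasDerivAt d (Y (d t)) t) (h0 : c 0 = d 0) :
    EqOn c d (Ioo (-a) a) := by
  intro t ht
  have hta : |t| < a := abs_lt.2 ⟨ht.1, ht.2⟩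
  set b := (|t| + a) / 2 with hb
  have hb1 : |t| < b := by rw [hb]; linarith
  have hb2 : b < a := by rw [hb]; linarith
  have hb0 : 0 < b := (abs_nonneg t).trans_lt hb1
  have hsub : Icc (-b) b ⊆ Ioo (-a) a := fun s hs => ⟨by linarith [hs.1], by linarith [hs.2]⟩
  have hcc : ContinuousOn c (Icc (-b) b) := fun s hs =>
    (hc s (hsub hs)).continuousAt.continuousWithinAt
  have hdc : ContinuousOn d (Icc (-b) b) := fun s hs =>
    (hd s (hsub hs)).continuousAt.continuousWithinAt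
  obtain ⟨R1, hR1⟩ := (isCompact_Icc.image_of_continuousOn hcc).isBounded.subset_closedBall (0 : H)
  obtain ⟨R2, hR2⟩ := (isCompact_Icc.image_of_continuousOn hdc).isBounded.subset_closedBall (0 : H)
  obtain ⟨K, hK⟩ := h.lip (max R1 R2)
  have := ODE_solution_unique_of_mem_Ioo (v := fun _ => Y) (s := fun _ => closedBall 0 (max R1 R2))
    (K := K) (a := -b) (b := b) (t₀ := 0) (f := c) (g := d) (fun _ _ => hK) ⟨by linarith, hb0⟩
    (fun s hs => ⟨hc s (hsub (Ioo_subset_Icc_self hs)),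
      closedBall_subset_closedBall (le_max_left _ _) (hR1 ⟨s, Ioo_subset_Icc_self hs, rfl⟩)⟩)
    (fun s hs => ⟨hd s (hsub (Ioo_subset_Icc_self hs)),
      closedBall_subset_closedBall (le_max_right _ _) (hR2 ⟨s, Ioo_subset_Icc_self hs, rfl⟩)⟩) h0
  exact this (abs_lt.1 hb1)

theorem GoodField.unique {Y : H → H} {A : ℝ} (h : GoodField Y A) {c d : ℝ → H}
    (hc : ∀ t, HasDerivAt c (Y (c t)) t) (hd : ∀ t, HasDerivAt d (Y (d t)) t) (h0 : c 0 = d 0) :
    c = d := by
  ext1 t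
  exact h.unique_Ioo (a := |t| + 1) (fun s _ => hc s) (fun s _ => hd s) h0
    (abs_lt.1 (lt_add_one _))

theorem GoodField.exists_global {Y : H → H} {A : ℝ} (h : GoodField Y A) (z₀ : H) :
    ∃ c : ℝ → H, c 0 = z₀ ∧ ∀ t, HasDerivAt c (Y (c t)) t := by
  have h1 : ∀ a : ℝ, ∃ c : ℝ → H, c 0 = z₀ ∧ ∀ t ∈ Ioo (-a) a, HasDerivAt c (Y (c t)) t := by
    intro a
    rcases lt_or_ge 0 a with ha | ha
    · exact h.exists_local z₀ ha
    · refine ⟨fun _ => z₀, rfl, fun t ht => ?_⟩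
      exfalso
      linarith [ht.1, ht.2]
  choose c hc0 hc using h1
  refine ⟨fun t => c (|t| + 1) t, hc0 _, fun t => ?_⟩
  have hev : (fun s => c (|s| + 1) s) =ᶠ[𝓝 t] c (|t| + 2) := by
    have hmem : Ioo (-(|t| + 1)) (|t| + 1) ∈ 𝓝 t :=
      Ioo_mem_nhds (abs_lt.1 (lt_add_one _)).1 (abs_lt.1 (lt_add_one _)).2
    filter_upwards [hmem] with s hs
    have hs' : |s| < |t| + 1 := abs_lt.2 ⟨hs.1, hs.2⟩
    apply h.unique_Ioo (a := |s| + 1) (hc _) _ (by rw [hc0, hc0]) (abs_lt.1 (lt_add_one _))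
    intro u hu
    apply hc
    exact ⟨by linarith [hu.1], by linarith [hu.2]⟩
  have h2 := hc (|t| + 2) t (abs_lt.1 (by linarith))
  have h3 : c (|t| + 2) t = c (|t| + 1) t := (hev.eq_of_nhds).symm
  rw [h3] at h2
  exact h2.congr_of_eventuallyEq hev

/-- The flow. -/
noncomputable def GoodField.flow {Y : H → H} {A : ℝ} (h : GoodField Y A) (t : ℝ) (z : H) : H :=
  (h.exists_global z).choose t

theorem GoodField.flow_zero {Y : H → H} {A : ℝ} (h : GoodField Y A) (z : H) : h.flow 0 z = z :=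
  (h.exists_global z).choose_spec.1

theorem GoodField.flow_deriv {Y : H → H} {A : ℝ} (h : GoodField Y A) (z : H) (t : ℝ) :
    HasDerivAt (fun s => h.flow s z) (Y (h.flow t z)) t :=
  (h.exists_global z).choose_spec.2 t

/-- Any global trajectory is given by the flow. -/
theorem GoodField.eq_flow {Y : H → H} {A : ℝ} (h : GoodField Y A) {c : ℝ → H}
    (hc : ∀ t, HasDerivAt c (Y (c t)) t) (t s : ℝ) : c (t + s) = h.flow s (c t) := by
  have h1 : ∀ u, HasDerivAt (fun u => c (t + u)) (Y (c (t + u))) u := by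
    intro u
    have := (hc (t + u)).scomp u ((hasDerivAt_id u).const_add t)
    simpa [Function.comp_def] using this
  have := h.unique (c := fun u => c (t + u)) (d := fun u => h.flow u (c t)) h1
    (fun u => h.flow_deriv (c t) u) (by simp [h.flow_zero])
  exact congrFun this s

theorem traj_dist {Y : H → H} {c d : ℝ → H} (hc : ∀ t, HasDerivAt c (Y (c t)) t)
    (hd : ∀ t, HasDerivAt d (Y (d t)) t) {T R : ℝ} (hT : 0 ≤ T) {K : ℝ≥0}
    (hK : LipschitzOnWith K Y (closedBall 0 R)) (hcR : ∀ t ∈ Icc 0 T, ‖c t‖ ≤ R)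
    (hdR : ∀ t ∈ Icc 0 T, ‖d t‖ ≤ R) : dist (c T) (d T) ≤ dist (c 0) (d 0) * Real.exp (K * T) := by
  have := dist_le_of_trajectories_ODE_of_mem (v := fun _ => Y) (s := fun _ => closedBall 0 R)
    (K := K) (a := 0) (b := T) (f := c) (g := d) (fun _ _ => hK)
    (fun t _ => (hc t).continuousAt.continuousWithinAt) (fun t _ => (hc t).hasDerivWithinAt)
    (fun t ht => by rw [mem_closedBall, dist_zero_right]; exact hcR t (Ico_subset_Icc_self ht))
    (fun t _ => (hd t).continuousAt.continuousWithinAt) (fun t _ => (hd t).hasDerivWithinAt)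
    (fun t ht => by rw [mem_closedBall, dist_zero_right]; exact hdR t (Ico_subset_Icc_self ht))
    le_rfl T ⟨hT, le_rfl⟩
  simpa using this

/-- The time `t` map of the flow is continuous. -/
theorem GoodField.flow_continuous {Y : H → H} {A : ℝ} (h : GoodField Y A) (t : ℝ) :
    Continuous (h.flow t) := by
  have key : ∀ (Y : H → H) (A : ℝ) (h : GoodField Y A) (c : H → ℝ → H)
      (_ : ∀ z, c z 0 = z) (_ : ∀ z t, HasDerivAt (c z) (Y (c z t)) t) (T : ℝ) (_ : 0 ≤ T),
      Continuous (fun z => c z T) := by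
    intro Y A h c hc0 hc T hT
    rw [continuous_iff_continuousAt]
    intro z
    set R := (‖z‖ + 2) * Real.exp (A * T) with hR
    obtain ⟨K, hK⟩ := h.lip R
    have hb : ∀ w ∈ ball z 1, ∀ s ∈ Icc 0 T, ‖c w s‖ ≤ R := by
      intro w hw s hs
      have h1 := h.bound_fwd (T := T) (fun s _ => hc w s) s hs
      rw [hc0] at h1
      have h2 : Real.exp (A * s) ≤ Real.exp (A * T) :=
        Real.exp_le_exp.2 (mul_le_mul_of_nonneg_left hs.2 h.pos.le)
      have h3 : ‖w‖ ≤ ‖z‖ + 1 := by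
        rw [mem_ball, dist_eq_norm] at hw
        have := norm_sub_norm_le w z
        linarith
      have h4 : (‖w‖ + 1) * Real.exp (A * s) ≤ (‖z‖ + 2) * Real.exp (A * T) :=
        mul_le_mul (by linarith) h2 (Real.exp_pos _).le (by positivity)
      rw [hR]
      linarith
    have h5 : ∀ w ∈ ball z 1, dist (c w T) (c z T) ≤ dist w z * Real.exp (K * T) := by
      intro w hw
      have := traj_dist (hc w) (hc z) hT hK (hb w hw) (hb z (mem_ball_self one_pos))
      rwa [hc0, hc0] at this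
    rw [ContinuousAt, tendsto_iff_dist_tendsto_zero]
    have h6 : Tendsto (fun w => dist w z * Real.exp (K * T)) (𝓝 z) (𝓝 0) := by
      have : Tendsto (fun w => dist w z) (𝓝 z) (𝓝 0) := tendsto_iff_dist_tendsto_zero.1 tendsto_id
      simpa using this.mul_const (Real.exp (K * T))
    refine squeeze_zero' (Filter.Eventually.of_forall (fun _ => dist_nonneg)) ?_ h6
    filter_upwards [ball_mem_nhds z one_pos] with w hw using h5 w hw
  rcases le_total 0 t with ht | ht
  · exact key Y A h (fun z s => h.flow s z) h.flow_zero h.flow_deriv t ht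
  · have := key (fun z => -Y z) A h.neg (fun z s => h.flow (-s) z)
      (fun z => by simp [h.flow_zero]) (fun z s => hasDerivAt_comp_neg' (h.flow_deriv z (-s)))
      (-t) (by linarith)
    simpa using this

theorem GoodField.of_contDiff [FiniteDimensional ℝ H] {Y : H → H} {A : ℝ} (hA : 0 < A)
    (hY : ContDiff ℝ 1 Y) (hg : ∀ z, ‖Y z‖ ≤ A * (1 + ‖z‖)) : GoodField Y A := by
  refine ⟨hA, hg, fun R => ?_⟩
  have hcont : Continuous (fderiv ℝ Y) := hY.continuous_fderiv one_ne_zero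
  have : ProperSpace H := FiniteDimensional.proper ℝ H
  obtain ⟨M, hM⟩ := (isCompact_closedBall (0 : H) R).exists_bound_of_continuousOn
    hcont.continuousOn
  refine ⟨M.toNNReal, ?_⟩
  apply (convex_closedBall (0 : H) R).lipschitzOnWith_of_nnnorm_fderiv_le (𝕜 := ℝ)
  · intro x _
    exact (hY.differentiable one_ne_zero) x
  · intro x hx
    rw [← NNReal.coe_le_coe, coe_nnnorm]
    exact (hM x hx).trans (Real.le_coe_toNNReal M)

end

end Pool.Agent.LibMather41
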