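import Pool.Agent.LibMather41.Defs
import Pool.Agent.LibMather41.ODE
import Pool.Agent.LibMather41.Ext

/-!
Lagrangians of the form `|v - X|^2 / 2 + V` on a torus.
-/

set_option linter.unusedSectionVars false

open MeasureTheory Metric Set Filter Topology Bornology
open scoped ContDiff

namespace Pool.Agent.LibMather41

/-- Data of a Lagrangian `|v - X|^2/2 + V`. -/
structure Sys (ι : Type) [Fintype ι] where
  X : (ι → ℝ) × ℝ → (ι → ℝ)
  V : (ι → ℝ) × ℝ → ℝ
  hX : ContDiff ℝ 2 X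
  hV : ContDiff ℝ 2 V
  perX : ∀ (k : ι → ℤ) (m : ℤ) (z : (ι → ℝ) × ℝ), X (z + (zv k, (m : ℝ))) = X z
  perV : ∀ (k : ι → ℤ) (m : ℤ) (z : (ι → ℝ) × ℝ), V (z + (zv k, (m : ℝ))) = V z

/-- Representative in `[0,1)` of a point of the circle. -/
noncomputable def rep (a : UnitAddCircle) : ℝ := (AddCircle.equivIco (1 : ℝ) 0 a : ℝ)

theorem rep_coe (x : ℝ) : rep (x : UnitAddCircle) = Int.fract x := by
  unfold rep
  rw [AddCircle.coe_equivIco_mk_apply]
  simp

theorem coe_rep (a : UnitAddCircle) : ((rep a : ℝ) : UnitAddCircle) = a :=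
  (AddCircle.equivIco (1 : ℝ) 0).symm_apply_apply a

theorem rep_mem (a : UnitAddCircle) : rep a ∈ Ico (0 : ℝ) 1 := by
  have := (AddCircle.equivIco (1 : ℝ) 0 a).2
  simpa [rep] using this

theorem measurable_rep : Measurable rep :=
  measurable_subtype_coe.comp (AddCircle.measurableEquivIco (1 : ℝ) 0).measurable

theorem exists_bound_of_periodic {ι : Type} [Fintype ι] {F : Type} [NormedAddCommGroup F]
    (f : (ι → ℝ) × ℝ → F) (hf : Continuous f)
    (hper : ∀ (k : ι → ℤ) (m : ℤ) (z : (ι → ℝ) × ℝ), f (z + (zv k, (m : ℝ))) = f z) :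
    ∃ M : ℝ, 0 ≤ M ∧ ∀ z, ‖f z‖ ≤ M := by
  have hK : IsCompact ((Set.Icc (0 : ι → ℝ) 1) ×ˢ (Set.Icc (0 : ℝ) 1)) :=
    isCompact_Icc.prod isCompact_Icc
  obtain ⟨M, hM⟩ := hK.exists_bound_of_continuousOn hf.continuousOn
  refine ⟨max M 0, le_max_right _ _, fun z => ?_⟩
  have h := hper (fun i => -⌊z.1 i⌋) (-⌊z.2⌋) z
  rw [← h]
  refine (hM _ ?_).trans (le_max_left _ _)
  constructor
  · constructor
    · intro i
      have := Int.floor_le (z.1 i)
      simp only [Prod.fst_add, Pi.add_apply, zv, Int.cast_neg, Pi.zero_apply]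
      linarith
    · intro i
      have := Int.lt_floor_add_one (z.1 i)
      simp only [Prod.fst_add, Pi.add_apply, zv, Int.cast_neg, Pi.one_apply]
      linarith
  · constructor
    · have := Int.floor_le z.2
      simp only [Prod.snd_add, Int.cast_neg]
      linarith
    · have := Int.lt_floor_add_one z.2
      simp only [Prod.snd_add, Int.cast_neg]
      linarith

section

variable {ι : Type} [Fintype ι] [DecidableEq ι] (D : Sys ι)

namespace Sys

/-- The lifted Lagrangian. -/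
noncomputable def Lr (x v : ι → ℝ) (t : ℝ) : ℝ :=
  (1 / 2) * ∑ i, (v i - D.X (x, t) i) ^ 2 + D.V (x, t)

/-- The Lagrangian on `TM × 𝕋`. -/
noncomputable def L (z : Phase ι) : ℝ := D.Lr (fun i => rep (z.1 i)) z.2.1 (rep z.2.2)

theorem perLr (k : ι → ℤ) (m : ℤ) (x v : ι → ℝ) (t : ℝ) :
    D.Lr (x + zv k) v (t + m) = D.Lr x v t := by
  unfold Lr
  have h1 := D.perX k m (x, t)
  have h2 := D.perV k m (x, t)
  simp only [Prod.mk_add_mk] at h1 h2
  rw [h1, h2]

theorem L_proj (x v : ι → ℝ) (t : ℝ) : D.L (proj x v t) = D.Lr x v t := by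
  unfold L proj
  simp only [rep_coe]
  have h := D.perLr (fun i => -⌊x i⌋) (-⌊t⌋) x v t
  rw [← h]
  congr 1
  · ext i
    simp only [Pi.add_apply, zv, Int.cast_neg]
    rw [← sub_eq_add_neg, Int.self_sub_floor]
  · push_cast
    rw [← sub_eq_add_neg, Int.self_sub_floor]

theorem contDiff_Lr : ContDiff ℝ 2 (fun z : (ι → ℝ) × (ι → ℝ) × ℝ => D.Lr z.1 z.2.1 z.2.2) := by
  unfold Lr
  have h1 : ContDiff ℝ 2 (fun z : (ι → ℝ) × (ι → ℝ) × ℝ => (z.1, z.2.2)) :=
    contDiff_fst.prodMk (contDiff_snd.comp contDiff_snd)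
  have hX := D.hX.comp h1
  have hV := D.hV.comp h1
  refine ContDiff.add (contDiff_const.mul (ContDiff.sum fun i _ => ?_)) hV
  have h2 : ContDiff ℝ 2 (fun z : (ι → ℝ) × (ι → ℝ) × ℝ => z.2.1 i) :=
    (contDiff_apply ℝ ℝ i).comp (contDiff_fst.comp contDiff_snd)
  have h3 : ContDiff ℝ 2 (fun z : (ι → ℝ) × (ι → ℝ) × ℝ => D.X (z.1, z.2.2) i) :=
    (contDiff_pi.1 hX) i
  exact (h2.sub h3).pow 2

/-- Derivative in the velocity. -/
theorem hasFDerivAt_v (x v : ι → ℝ) (t : ℝ) :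
    HasFDerivAt (fun w : ι → ℝ => D.Lr x w t)
      (∑ i, (v i - D.X (x, t) i) • (ContinuousLinearMap.proj i : (ι → ℝ) →L[ℝ] ℝ)) v := by
  unfold Lr
  have h1 : ∀ i ∈ (Finset.univ : Finset ι), HasFDerivAt (fun w : ι → ℝ => (w i - D.X (x, t) i) ^ 2)
      ((2 * (v i - D.X (x, t) i)) • (ContinuousLinearMap.proj i : (ι → ℝ) →L[ℝ] ℝ)) v := by
    intro i _
    have h2 : HasFDerivAt (fun w : ι → ℝ => w i - D.X (x, t) i)
        (ContinuousLinearMap.proj i : (ι → ℝ) →L[ℝ] ℝ) v :=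
      (ContinuousLinearMap.proj (R := ℝ) (φ := fun _ : ι => ℝ) i).hasFDerivAt.sub_const _
    have h3 := h2.pow 2
    simpa using h3
  have h4 := ((HasFDerivAt.fun_sum h1).const_mul (1 / 2)).add_const (D.V (x, t))
  have h5 : (1 / 2 : ℝ) • ∑ i, (2 * (v i - D.X (x, t) i)) •
      (ContinuousLinearMap.proj i : (ι → ℝ) →L[ℝ] ℝ) =
      ∑ i, (v i - D.X (x, t) i) • (ContinuousLinearMap.proj i : (ι → ℝ) →L[ℝ] ℝ) := by
    rw [Finset.smul_sum]
    apply Finset.sum_congr rfl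
    intro i _
    rw [smul_smul]
    congr 1
    ring
  rw [h5] at h4
  exact h4

theorem dV_eq (i : ι) (x v : ι → ℝ) (t : ℝ) : dV D.L i x v t = v i - D.X (x, t) i := by
  unfold dV
  have h : (fun w : ι → ℝ => D.L (proj x w t)) = fun w => D.Lr x w t := by
    ext w; exact D.L_proj x w t
  rw [h, (D.hasFDerivAt_v x v t).fderiv]
  simp only [FunLike.coe_sum, Finset.sum_apply, FunLike.coe_smul,
    Pi.smul_apply, ContinuousLinearMap.proj_apply, smul_eq_mul]
  rw [Finset.sum_eq_single i]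
  · simp
  · intro j _ hj
    simp [Pi.single_eq_of_ne hj]
  · simp

/-- The right hand side of the momentum equation. -/
noncomputable def qf (x p : ι → ℝ) (t : ℝ) (i : ι) : ℝ :=
  -∑ j, p j * (fderiv ℝ D.X (x, t) (Pi.single i 1, 0)) j + fderiv ℝ D.V (x, t) (Pi.single i 1, 0)

theorem dX_eq (i : ι) (x v : ι → ℝ) (t : ℝ) :
    dX D.L i x v t = D.qf x (fun j => v j - D.X (x, t) j) t i := by
  unfold dX
  have h : (fun y : ι → ℝ => D.L (proj y v t)) = fun y => D.Lr y v t := by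
    ext y; exact D.L_proj y v t
  rw [h]
  have hx : HasFDerivAt (fun y : ι → ℝ => (y, t)) (ContinuousLinearMap.inl ℝ (ι → ℝ) ℝ) x :=
    hasFDerivAt_prodMk_left x t
  have hX : HasFDerivAt (fun y : ι → ℝ => D.X (y, t))
      ((fderiv ℝ D.X (x, t)).comp (ContinuousLinearMap.inl ℝ (ι → ℝ) ℝ)) x :=
    (((D.hX.differentiable two_ne_zero) (x, t)).hasFDerivAt).comp x hx
  have hV : HasFDerivAt (fun y : ι → ℝ => D.V (y, t))
      ((fderiv ℝ D.V (x, t)).comp (ContinuousLinearMap.inl ℝ (ι → ℝ) ℝ)) x :=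
    (((D.hV.differentiable two_ne_zero) (x, t)).hasFDerivAt).comp x hx
  have h1 : ∀ j ∈ (Finset.univ : Finset ι), HasFDerivAt (fun y : ι → ℝ => (v j - D.X (y, t) j) ^ 2)
      ((-(2 * (v j - D.X (x, t) j))) • ((ContinuousLinearMap.proj j : (ι → ℝ) →L[ℝ] ℝ).comp
        ((fderiv ℝ D.X (x, t)).comp (ContinuousLinearMap.inl ℝ (ι → ℝ) ℝ)))) x := by
    intro j _
    have h2 := ((hasFDerivAt_pi'.1 hX j).const_sub (v j)).pow 2
    refine h2.congr_fderiv ?_
    ext w
    simp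
  have h4 : HasFDerivAt (fun y : ι → ℝ => D.Lr y v t) _ x :=
    ((HasFDerivAt.fun_sum h1).const_mul (1 / 2)).fun_add hV
  rw [h4.fderiv]
  unfold qf
  simp only [add_apply, FunLike.coe_smul, Pi.smul_apply,
    FunLike.coe_sum, Finset.sum_apply, ContinuousLinearMap.coe_comp,
    Function.comp_apply, ContinuousLinearMap.inl_apply, ContinuousLinearMap.proj_apply,
    smul_eq_mul]
  congr 1
  rw [Finset.mul_sum, ← Finset.sum_neg_distrib]
  apply Finset.sum_congr rfl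
  intro j _
  ring

end Sys

end

end Pool.Agent.LibMather41
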