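import Pool.Agent.LibMather41.Concrete

/-!
The calibration inequality for the concrete system.
-/

set_option linter.unusedVariables false

open MeasureTheory Metric Set Filter Topology
open scoped ContDiff Real

namespace Pool.Agent.LibMather41

theorem fderiv_line {E : Type} [NormedAddCommGroup E] [NormedSpace ℝ E] {g : E → ℝ} {p w : E}
    {d : ℝ} (hg : DifferentiableAt ℝ g p) (h : HasDerivAt (fun s : ℝ => g (p + s • w)) d 0) :
    fderiv ℝ g p w = d := by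
  have h1 : HasDerivAt (fun s : ℝ => p + s • w) w 0 := by
    have := ((hasDerivAt_id (0 : ℝ)).smul_const w).const_add p
    simpa using this
  have h2 : HasFDerivAt g (fderiv ℝ g p) (p + (0 : ℝ) • w) := by
    rw [zero_smul, add_zero]; exact hg.hasFDerivAt
  have h3 := h2.comp_hasDerivAt (0 : ℝ) h1
  exact h3.unique h

theorem ee_hasDerivAt (y : ℝ) : HasDerivAt ee (((2 * π : ℝ) : ℂ) * (Complex.I * ee y)) y := by
  unfold ee
  have h1 : HasDerivAt (fun x : ℝ => ((2 * π * x : ℝ) : ℂ)) ((2 * π : ℝ) : ℂ) y := by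
    have := ((hasDerivAt_id y).const_mul (2 * π)).ofReal_comp
    simpa using this
  have h2 := (h1.const_mul Complex.I).cexp
  refine h2.congr_deriv ?_
  ring

/-- Directional derivative of `Dc`. -/
noncomputable def dDc (z w : Kp → ℝ) : ℂ := ⟨fderiv ℝ Dre z w, fderiv ℝ Dim z w⟩

theorem dDc_add (z w w' : Kp → ℝ) : dDc z (w + w') = dDc z w + dDc z w' := by
  unfold dDc
  rw [map_add, map_add]
  rfl

theorem dDc_smul (z w : Kp → ℝ) (r : ℝ) : dDc z (r • w) = (r : ℂ) * dDc z w := by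
  unfold dDc
  rw [map_smul, map_smul]
  apply Complex.ext
  · simp
  · simp

theorem Dc_line {c : ℝ → Kp → ℝ} {w : Kp → ℝ} (h : HasDerivAt c w 0) :
    HasDerivAt (fun s => Dc (c s)) (dDc (c 0) w) 0 := by
  have h1 : HasDerivAt (fun s => Dre (c s)) (fderiv ℝ Dre (c 0) w) 0 :=
    ((D_spec.2.1.differentiable (by norm_num)) (c 0)).hasFDerivAt.comp_hasDerivAt 0 h
  have h2 : HasDerivAt (fun s => Dim (c s)) (fderiv ℝ Dim (c 0) w) 0 :=
    ((D_spec.2.2.1.differentiable (by norm_num)) (c 0)).hasFDerivAt.comp_hasDerivAt 0 h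
  have h3 := h1.ofReal_comp.add (h2.ofReal_comp.mul_const Complex.I)
  have e1 : ((fun s => ((Dre (c s) : ℝ) : ℂ)) + fun s => ((Dim (c s) : ℝ) : ℂ) * Complex.I) =
      fun s => Dc (c s) := by
    ext s
    exact (Complex.mk_eq_add_mul_I _ _).symm
  have e2 : ((fderiv ℝ Dre (c 0) w : ℝ) : ℂ) + ((fderiv ℝ Dim (c 0) w : ℝ) : ℂ) * Complex.I =
      dDc (c 0) w := (Complex.mk_eq_add_mul_I _ _).symm
  rw [e1, e2] at h3
  exact h3

theorem sB_hasDerivAt (t : ℝ) : HasDerivAt sB (bb t - bb (t - 1 / 2)) t := by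
  unfold sB
  exact (Bf_hasDerivAt t).sub ((Bf_hasDerivAt (t - 1 / 2)).comp_sub_const t (1 / 2))

theorem RR_hasDerivAt (t : ℝ) : HasDerivAt RR (bb (t - 1 / 4) - bb (t - 3 / 4)) t := by
  unfold RR
  exact ((Bf_hasDerivAt (t - 1 / 4)).comp_sub_const t (1 / 4)).sub
    ((Bf_hasDerivAt (t - 3 / 4)).comp_sub_const t (3 / 4))

section

variable (x v : Io → ℝ) (t : ℝ)

theorem line_t : HasDerivAt (fun s : ℝ => ((x, t) + s • (v, (1 : ℝ))).2) 1 0 := by
  have := ((hasDerivAt_id (0 : ℝ)).mul_const (1 : ℝ)).const_add t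
  simpa using this

theorem line_x (i : Io) : HasDerivAt (fun s : ℝ => ((x, t) + s • (v, (1 : ℝ))).1 i) (v i) 0 := by
  have := ((hasDerivAt_id (0 : ℝ)).mul_const (v i)).const_add (x i)
  simpa using this

theorem line_A : HasDerivAt (fun s : ℝ => zA ((x, t) + s • (v, (1 : ℝ))).1) (zA v) 0 := by
  rw [hasDerivAt_pi]
  intro c
  exact line_x x v t _

theorem line_B : HasDerivAt (fun s : ℝ => zB ((x, t) + s • (v, (1 : ℝ))).1) (zB v) 0 := by
  rw [hasDerivAt_pi]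
  intro c
  exact line_x x v t _

theorem comp_t {f : ℝ → ℝ} {f' : ℝ} (hf : HasDerivAt f f' t) :
    HasDerivAt (fun s : ℝ => f ((x, t) + s • (v, (1 : ℝ))).2) f' 0 := by
  have h := line_t x v t
  have h2 : HasDerivAt f f' ((x, t) + (0 : ℝ) • (v, (1 : ℝ))).2 := by simpa using hf
  have := h2.comp (0 : ℝ) h
  rw [mul_one] at this
  exact this

/-- Derivative of `xi` along a line. -/
theorem xi_line : HasDerivAt (fun s : ℝ => xi ((x, t) + s • (v, (1 : ℝ))))
    (-(((2 * π * v (.inl 0) : ℝ) : ℂ) * (Complex.I * xi (x, t))) +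
      ((bb t - bb (t - 1 / 2) : ℝ) : ℂ) *
        (ee (-(x (.inl 0))) * (ee (hh * RR t) * Dc (zB x) - Dc (zA x))) +
      ((2 * π * (hh * (bb (t - 1 / 4) - bb (t - 3 / 4))) : ℝ) : ℂ) * (Complex.I *
        ((sB t : ℂ) * (ee (-(x (.inl 0))) * (ee (hh * RR t) * Dc (zB x))))) +
      (sB t : ℂ) * (ee (-(x (.inl 0))) * (ee (hh * RR t) * dDc (zB x) (zB v))) +
      ((1 - sB t : ℝ) : ℂ) * (ee (-(x (.inl 0))) * dDc (zA x) (zA v))) 0 := by
  have e0 : ((x, t) + (0 : ℝ) • (v, (1 : ℝ))) = (x, t) := by simp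
  have h1 : HasDerivAt (fun s : ℝ => ee (-(((x, t) + s • (v, (1 : ℝ))).1 (.inl 0))))
      ((-v (.inl 0)) • (((2 * π : ℝ) : ℂ) * (Complex.I * ee (-(x (.inl 0)))))) 0 := by
    have ha := (line_x x v t (.inl 0)).neg
    have hb : HasDerivAt ee (((2 * π : ℝ) : ℂ) * (Complex.I * ee (-(x (.inl 0)))))
        (-(((x, t) + (0 : ℝ) • (v, (1 : ℝ))).1 (.inl 0))) := by
      rw [e0]; exact ee_hasDerivAt _
    exact hb.scomp (0 : ℝ) ha
  have h2 : HasDerivAt (fun s : ℝ => ((sB ((x, t) + s • (v, (1 : ℝ))).2 : ℝ) : ℂ))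
      ((bb t - bb (t - 1 / 2) : ℝ) : ℂ) 0 := (comp_t x v t (sB_hasDerivAt t)).ofReal_comp
  have h3 : HasDerivAt (fun s : ℝ => ((1 - sB ((x, t) + s • (v, (1 : ℝ))).2 : ℝ) : ℂ))
      ((-(bb t - bb (t - 1 / 2)) : ℝ) : ℂ) 0 :=
    ((comp_t x v t (sB_hasDerivAt t)).const_sub 1).ofReal_comp
  have h4 : HasDerivAt (fun s : ℝ => ee (hh * RR ((x, t) + s • (v, (1 : ℝ))).2))
      ((hh * (bb (t - 1 / 4) - bb (t - 3 / 4))) •
        (((2 * π : ℝ) : ℂ) * (Complex.I * ee (hh * RR t)))) 0 := by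
    have ha := (comp_t x v t (RR_hasDerivAt t)).const_mul hh
    have hb : HasDerivAt ee (((2 * π : ℝ) : ℂ) * (Complex.I * ee (hh * RR t)))
        (hh * RR ((x, t) + (0 : ℝ) • (v, (1 : ℝ))).2) := by
      rw [e0]; exact ee_hasDerivAt _
    exact hb.scomp (0 : ℝ) ha
  have h5 := Dc_line (line_B x v t)
  have h6 := Dc_line (line_A x v t)
  rw [e0] at h5 h6
  have h7 := h1.mul (((h2.mul h4).mul h5).add (h3.mul h6))
  refine h7.congr_deriv ?_
  simp only [Pi.mul_apply, Pi.add_apply, e0]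
  unfold xi
  simp only [Complex.real_smul]
  push_cast
  ring

/-- The function calibrating `x₁`. -/
noncomputable def g1 (z : (Io → ℝ) × ℝ) : ℝ :=
  1 / (2 * π) * (xi z).im - hh * (Bf (z.2 - 1 / 4) - z.2)

theorem g1_contDiff : ContDiff ℝ 1 g1 := by
  unfold g1
  have h13 : (1 : WithTop ℕ∞) ≤ 3 := by norm_num
  refine ContDiff.sub ?_ ?_
  · exact contDiff_const.mul (Complex.imCLM.contDiff.comp (xi_contDiff.of_le h13))
  · exact contDiff_const.mul (((Bft_contDiff _).of_le h13).sub contDiff_snd)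

theorem g1_per (k : Io → ℤ) (m : ℤ) (z : (Io → ℝ) × ℝ) : g1 (z + (zv k, (m : ℝ))) = g1 z := by
  unfold g1
  rw [xi_per]
  simp only [Prod.snd_add]
  rw [show z.2 + (m : ℝ) - 1 / 4 = z.2 - 1 / 4 + m by ring, Bf_add_int]
  ring

/-- Formula for the derivative of `g1`. -/
theorem g1_deriv : fderiv ℝ g1 (x, t) (v, 1) + v (.inl 0) - hh =
    v (.inl 0) * (1 - (xi (x, t)).re) +
    1 / (2 * π) * ((bb t - bb (t - 1 / 2)) *
      (ee (-(x (.inl 0))) * (ee (hh * RR t) * Dc (zB x) - Dc (zA x))).im) +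
    hh * (bb (t - 1 / 4) - bb (t - 3 / 4)) *
      (sB t * (ee (-(x (.inl 0))) * (ee (hh * RR t) * Dc (zB x))).re) +
    1 / (2 * π) * (sB t * (ee (-(x (.inl 0))) * (ee (hh * RR t) * dDc (zB x) (zB v))).im) +
    1 / (2 * π) * ((1 - sB t) * (ee (-(x (.inl 0))) * dDc (zA x) (zA v)).im) -
    hh * bb (t - 1 / 4) := by
  have hd : DifferentiableAt ℝ g1 (x, t) := (g1_contDiff.differentiable one_ne_zero) _
  have h1 := xi_line x v t
  have h2 : HasDerivAt (fun s : ℝ => (xi ((x, t) + s • (v, (1 : ℝ)))).im) _ 0 :=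
    Complex.imCLM.hasFDerivAt.comp_hasDerivAt (0 : ℝ) h1
  have h3 : HasDerivAt (fun s : ℝ => Bf (((x, t) + s • (v, (1 : ℝ))).2 - 1 / 4) -
      ((x, t) + s • (v, (1 : ℝ))).2) (bb (t - 1 / 4) - 1) 0 := by
    have ha := comp_t x v t ((Bf_hasDerivAt (t - 1 / 4)).comp_sub_const t (1 / 4))
    exact ha.sub (line_t x v t)
  have h4 := (h2.const_mul (1 / (2 * π))).sub (h3.const_mul hh)
  have h5 := fderiv_line (g := g1) hd h4
  rw [h5]
  have hpi : (π : ℝ) ≠ 0 := Real.pi_ne_zero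
  simp only [Complex.imCLM_apply, Complex.add_im, Complex.neg_im, Complex.im_ofReal_mul,
    Complex.I_mul_im, Complex.re_ofReal_mul]
  field_simp
  ring

end

end Pool.Agent.LibMather41
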