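import Pool.Agent.LibMather41.LowerC

/-!
The calibration inequality for the concrete system, estimates.
-/

set_option linter.unusedVariables false

open MeasureTheory Metric Set Filter Topology
open scoped ContDiff Real

namespace Pool.Agent.LibMather41

section

variable (x v : Io → ℝ) (t : ℝ)

/-- `v - X`. -/
noncomputable def wo (x v : Io → ℝ) (t : ℝ) : Io → ℝ := fun i => v i - Xo (x, t) i

theorem Lr_eq : Do.Lr x v t = 1 / 2 * ∑ i, (wo x v t i) ^ 2 + Vo (x, t) := rfl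

theorem sum_io (f : Io → ℝ) : ∑ i, f i = f (.inl 0) + f (.inl 1) + f (.inl 2) +
    (∑ c, f (.inr (.inl c)) + ∑ c, f (.inr (.inr c))) := by
  rw [Fintype.sum_sum_type, Fintype.sum_sum_type, Fin.sum_univ_three]

theorem xi_re_split : (xi (x, t)).re =
    sB t * (ee (-(x (.inl 0))) * (ee (hh * RR t) * Dc (zB x))).re +
    (1 - sB t) * (ee (-(x (.inl 0))) * Dc (zA x)).re := by
  have h : xi (x, t) = (sB t : ℂ) * (ee (-(x (.inl 0))) * (ee (hh * RR t) * Dc (zB x))) +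
      ((1 - sB t : ℝ) : ℂ) * (ee (-(x (.inl 0))) * Dc (zA x)) := by
    unfold xi
    ring
  rw [h, Complex.add_re, Complex.re_ofReal_mul, Complex.re_ofReal_mul]

theorem xi_norm_le : ‖xi (x, t)‖ ≤ MD := by
  obtain ⟨h0, h1⟩ := sB_mem t
  unfold xi
  rw [norm_mul, norm_ee, one_mul]
  refine (norm_add_le _ _).trans ?_
  rw [norm_mul, norm_mul, norm_ee, mul_one, norm_mul, Complex.norm_real, Complex.norm_real,
    Real.norm_eq_abs, Real.norm_eq_abs]
  simp only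
  rw [abs_of_nonneg h0, abs_of_nonneg (sub_nonneg.2 h1)]
  have h2 := Dc_le (zB x)
  have h3 := Dc_le (zA x)
  have h4 := mul_le_mul_of_nonneg_left h2 h0
  have h5 := mul_le_mul_of_nonneg_left h3 (sub_nonneg.2 h1)
  linarith

theorem dDc_norm_le (z w : Kp → ℝ) : ‖dDc z w‖ ≤ |fderiv ℝ Dre z w| + |fderiv ℝ Dim z w| :=
  Complex.norm_le_abs_re_add_abs_im _

theorem zB_split : zB v = zB (wo x v t) +
    (qc x * bb (t - 3 / 4)) • (fun c => uM c (zA x)) := by
  ext c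
  simp only [zB, wo, Xo, Pi.add_apply, Pi.smul_apply, smul_eq_mul]
  ring

theorem zA_split : zA v = zA (wo x v t) +
    (qc x * bb (t - 1 / 4)) • (fun c => uP c (zB x)) := by
  ext c
  simp only [zA, wo, Xo, Pi.add_apply, Pi.smul_apply, smul_eq_mul]
  ring

theorem termB : sB t * (ee (-(x (.inl 0))) * (ee (hh * RR t) * dDc (zB x) (zB v))).im =
    sB t * (ee (-(x (.inl 0))) * (ee (hh * RR t) * dDc (zB x) (zB (wo x v t)))).im := by
  rw [zB_split x v t, dDc_add, dDc_smul, mul_add, mul_add, Complex.add_im, mul_add]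
  have h : ee (-(x (.inl 0))) * (ee (hh * RR t) * (((qc x * bb (t - 3 / 4) : ℝ) : ℂ) *
      dDc (zB x) (fun c => uM c (zA x)))) = ((qc x * bb (t - 3 / 4) : ℝ) : ℂ) *
      (ee (-(x (.inl 0))) * (ee (hh * RR t) * dDc (zB x) (fun c => uM c (zA x)))) := by ring
  rw [h, Complex.im_ofReal_mul]
  have h2 := bb4_sB t
  linear_combination (qc x * (ee (-(x (.inl 0))) * (ee (hh * RR t) *
    dDc (zB x) (fun c => uM c (zA x)))).im) * h2

theorem termA : (1 - sB t) * (ee (-(x (.inl 0))) * dDc (zA x) (zA v)).im =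
    (1 - sB t) * (ee (-(x (.inl 0))) * dDc (zA x) (zA (wo x v t))).im := by
  rw [zA_split x v t, dDc_add, dDc_smul, mul_add, Complex.add_im, mul_add]
  have h : ee (-(x (.inl 0))) * (((qc x * bb (t - 1 / 4) : ℝ) : ℂ) *
      dDc (zA x) (fun c => uP c (zB x))) = ((qc x * bb (t - 1 / 4) : ℝ) : ℂ) *
      (ee (-(x (.inl 0))) * dDc (zA x) (fun c => uP c (zB x))) := by ring
  rw [h, Complex.im_ofReal_mul]
  have h2 := bb2_sA t
  linear_combination (qc x * (ee (-(x (.inl 0))) *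
    dDc (zA x) (fun c => uP c (zB x))).im) * h2

theorem boundB : |sB t * (ee (-(x (.inl 0))) * (ee (hh * RR t) * dDc (zB x) (zB v))).im| ≤
    1 / 2 * ∑ c, (zB (wo x v t) c) ^ 2 + (sB t) ^ 2 * GD (zB x) := by
  rw [termB, abs_mul, abs_of_nonneg (sB_mem t).1]
  refine le_trans ?_ (young_D (zB x) (zB (wo x v t)) (sB t) (sB_mem t).1)
  apply mul_le_mul_of_nonneg_left _ (sB_mem t).1
  refine (Complex.abs_im_le_norm _).trans ?_
  rw [norm_mul, norm_ee, one_mul, norm_mul, norm_ee, one_mul]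
  exact dDc_norm_le _ _

theorem boundA : |(1 - sB t) * (ee (-(x (.inl 0))) * dDc (zA x) (zA v)).im| ≤
    1 / 2 * ∑ c, (zA (wo x v t) c) ^ 2 + (1 - sB t) ^ 2 * GD (zA x) := by
  have h0 : 0 ≤ 1 - sB t := sub_nonneg.2 (sB_mem t).2
  rw [termA, abs_mul, abs_of_nonneg h0]
  refine le_trans ?_ (young_D (zA x) (zA (wo x v t)) (1 - sB t) h0)
  apply mul_le_mul_of_nonneg_left _ h0
  refine (Complex.abs_im_le_norm _).trans ?_
  rw [norm_mul, norm_ee, one_mul]
  exact dDc_norm_le _ _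

theorem boundS : |(bb t - bb (t - 1 / 2)) *
      (ee (-(x (.inl 0))) * (ee (hh * RR t) * Dc (zB x) - Dc (zA x))).im| ≤
    bb (t - 1 / 2) * Wm hh (zA x, zB x) + bb t * Wm 0 (zA x, zB x) := by
  set n := ‖ee (hh * RR t) * Dc (zB x) - Dc (zA x)‖ with hn
  have h1 : |(ee (-(x (.inl 0))) * (ee (hh * RR t) * Dc (zB x) - Dc (zA x))).im| ≤ n := by
    refine (Complex.abs_im_le_norm _).trans ?_
    rw [norm_mul, norm_ee, one_mul]
  have h2 : bb t * n ≤ bb t * Wm 0 (zA x, zB x) := by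
    by_cases h : bb t = 0
    · rw [h, zero_mul, zero_mul]
    · apply mul_le_mul_of_nonneg_left _ (bb_nonneg t)
      rw [hn, RR_of_win1 h, mul_zero]
      exact le_Wm 0 (zA x, zB x)
  have h3 : bb (t - 1 / 2) * n ≤ bb (t - 1 / 2) * Wm hh (zA x, zB x) := by
    by_cases h : bb (t - 1 / 2) = 0
    · rw [h, zero_mul, zero_mul]
    · apply mul_le_mul_of_nonneg_left _ (bb_nonneg _)
      rw [hn, RR_of_win3 h, mul_one]
      exact le_Wm hh (zA x, zB x)
  rw [abs_mul]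
  have h4 : |bb t - bb (t - 1 / 2)| ≤ bb t + bb (t - 1 / 2) := by
    rw [abs_le]
    have := bb_nonneg t
    have := bb_nonneg (t - 1 / 2)
    constructor <;> linarith
  have h5 := norm_nonneg (ee (hh * RR t) * Dc (zB x) - Dc (zA x))
  rw [← hn] at h5
  have h6 : |bb t - bb (t - 1 / 2)| *
      |(ee (-(x (.inl 0))) * (ee (hh * RR t) * Dc (zB x) - Dc (zA x))).im| ≤
      (bb t + bb (t - 1 / 2)) * n :=
    mul_le_mul h4 h1 (abs_nonneg _) (by
      have := bb_nonneg t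
      have := bb_nonneg (t - 1 / 2)
      linarith)
  linarith

theorem inv_two_pi_le : 0 ≤ 1 / (2 * π) ∧ 1 / (2 * π) ≤ 1 := by
  have hpi : (3 : ℝ) < π := Real.pi_gt_three
  constructor
  · positivity
  · rw [div_le_one (by positivity)]; linarith

theorem V1_ge : (1 - (xi (x, t)).re) ^ 2 + (1 - sB t) ^ 2 * GD (zA x) + (sB t) ^ 2 * GD (zB x) +
    bb (t - 1 / 2) * Wm hh (zA x, zB x) + bb t * Wm 0 (zA x, zB x) ≤ V1 (x, t) := by
  unfold V1
  have h7 : 0 ≤ ∑ c, th (zA x c) := Finset.sum_nonneg fun c _ => th_nonneg _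
  have h8 : 0 ≤ ∑ c, th (zB x c) := Finset.sum_nonneg fun c _ => th_nonneg _
  simp only
  linarith

/-- Main estimate for `g1`. -/
theorem est1 : |fderiv ℝ g1 (x, t) (v, 1) + v (.inl 0) - hh| ≤
    1 / 2 * ∑ i, (wo x v t i) ^ 2 + V1 (x, t) + (1 / mB * (1 + MD)) * (1 - qc x) := by
  rw [g1_deriv]
  set ξ := (xi (x, t)).re with hξ
  set S := (bb t - bb (t - 1 / 2)) *
      (ee (-(x (.inl 0))) * (ee (hh * RR t) * Dc (zB x) - Dc (zA x))).im with hS
  set TB := sB t * (ee (-(x (.inl 0))) * (ee (hh * RR t) * dDc (zB x) (zB v))).im with hTB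
  set TA := (1 - sB t) * (ee (-(x (.inl 0))) * dDc (zA x) (zA v)).im with hTA
  set r := (ee (-(x (.inl 0))) * (ee (hh * RR t) * Dc (zB x))).re with hr
  have e1 : hh * (bb (t - 1 / 4) - bb (t - 3 / 4)) * (sB t * r) = hh * (bb (t - 1 / 4) * ξ) := by
    rw [hξ, xi_re_split]
    have ha := bb2_sA t
    have hb := bb4_sB t
    linear_combination (-(hh * (ee (-(x (.inl 0))) * Dc (zA x)).re)) * ha - hh * r * hb
  rw [e1]
  have e2 : wo x v t (.inl 0) = v (.inl 0) - qc x * hh * bb (t - 1 / 4) := by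
    simp [wo, Xo]
  have e3 : v (.inl 0) * (1 - ξ) + 1 / (2 * π) * S + hh * (bb (t - 1 / 4) * ξ) +
      1 / (2 * π) * TB + 1 / (2 * π) * TA - hh * bb (t - 1 / 4) =
      wo x v t (.inl 0) * (1 - ξ) - hh * bb (t - 1 / 4) * (1 - qc x) * (1 - ξ) +
      1 / (2 * π) * S + 1 / (2 * π) * TB + 1 / (2 * π) * TA := by
    rw [e2]; ring
  rw [e3]
  obtain ⟨p0, p1⟩ := inv_two_pi_le
  have b1 : |wo x v t (.inl 0) * (1 - ξ)| ≤ 1 / 2 * (wo x v t (.inl 0)) ^ 2 +
      1 / 2 * (1 - ξ) ^ 2 := by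
    rw [abs_mul, ← sq_abs (wo x v t (.inl 0)), ← sq_abs (1 - ξ)]
    nlinarith [sq_nonneg (|wo x v t (.inl 0)| - |1 - ξ|)]
  have hξ1 : |1 - ξ| ≤ 1 + MD := by
    have h1 : |ξ| ≤ MD := (Complex.abs_re_le_norm _).trans (xi_norm_le x t)
    have h2 := abs_sub (1 : ℝ) ξ
    rw [abs_one] at h2
    linarith
  have hq := qc_mem x
  have b2 : |hh * bb (t - 1 / 4) * (1 - qc x) * (1 - ξ)| ≤ (1 / mB * (1 + MD)) * (1 - qc x) := by
    rw [abs_mul, abs_mul, abs_mul, abs_of_pos hh_pos, abs_of_nonneg (bb_nonneg _),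
      abs_of_nonneg (sub_nonneg.2 hq.2)]
    have h1 := bb_le (t - 1 / 4)
    have h2 := bb_nonneg (t - 1 / 4)
    have h3 := hh_pos
    have h4 : hh ≤ 1 := by have := hh_lt; linarith
    have h5 : hh * bb (t - 1 / 4) ≤ 1 / mB := by
      calc hh * bb (t - 1 / 4) ≤ 1 * bb (t - 1 / 4) := mul_le_mul_of_nonneg_right h4 h2
        _ ≤ 1 / mB := by rw [one_mul]; exact h1
    have h6 : 0 ≤ 1 - qc x := sub_nonneg.2 hq.2
    have h7 : 0 ≤ 1 / mB := div_nonneg zero_le_one mB_pos.le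
    calc hh * bb (t - 1 / 4) * (1 - qc x) * |1 - ξ| ≤ 1 / mB * (1 - qc x) * (1 + MD) := by
          apply mul_le_mul _ hξ1 (abs_nonneg _) (by positivity)
          exact mul_le_mul_of_nonneg_right h5 h6
      _ = (1 / mB * (1 + MD)) * (1 - qc x) := by ring
  have scale : ∀ a : ℝ, |1 / (2 * π) * a| ≤ |a| := by
    intro a
    rw [abs_mul, abs_of_nonneg p0]
    calc 1 / (2 * π) * |a| ≤ 1 * |a| := mul_le_mul_of_nonneg_right p1 (abs_nonneg _)
      _ = |a| := one_mul _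
  have b3 := (scale S).trans (boundS x t)
  have b4 := (scale TB).trans (boundB x v t)
  have b5 := (scale TA).trans (boundA x v t)
  have tri : |wo x v t (.inl 0) * (1 - ξ) - hh * bb (t - 1 / 4) * (1 - qc x) * (1 - ξ) +
      1 / (2 * π) * S + 1 / (2 * π) * TB + 1 / (2 * π) * TA| ≤
      |wo x v t (.inl 0) * (1 - ξ)| + |hh * bb (t - 1 / 4) * (1 - qc x) * (1 - ξ)| +
      |1 / (2 * π) * S| + |1 / (2 * π) * TB| + |1 / (2 * π) * TA| := by
    refine (abs_add_le _ _).trans (add_le_add ?_ le_rfl)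
    refine (abs_add_le _ _).trans (add_le_add ?_ le_rfl)
    refine (abs_add_le _ _).trans (add_le_add ?_ le_rfl)
    exact abs_sub _ _
  have hsum := sum_io (fun i => (wo x v t i) ^ 2)
  have hV := V1_ge x t
  have hA : ∑ c, (zA (wo x v t) c) ^ 2 = ∑ c, (wo x v t (.inr (.inl c))) ^ 2 := rfl
  have hB : ∑ c, (zB (wo x v t) c) ^ 2 = ∑ c, (wo x v t (.inr (.inr c))) ^ 2 := rfl
  have s1 := sq_nonneg (wo x v t (.inl 1))
  have s2 := sq_nonneg (wo x v t (.inl 2))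
  have s3 := sq_nonneg (1 - ξ)
  rw [hA] at b5
  rw [hB] at b4
  rw [hsum]
  linarith

end

end Pool.Agent.LibMather41
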