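import Pool.Agent.LibMather41.LowerD

/-!
The calibration inequality for the concrete system, all coordinates.
-/

set_option linter.unusedVariables false

open MeasureTheory Metric Set Filter Topology
open scoped ContDiff Real

namespace Pool.Agent.LibMather41

/-- The homology class. -/
noncomputable def ho : Io → ℝ := fun i => if i = .inl 0 then hh else 0

/-- The function calibrating the coordinate `i`. -/
noncomputable def gi (i : Io) (z : (Io → ℝ) × ℝ) : ℝ := gth (z.1 i)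

theorem gi_contDiff (i : Io) : ContDiff ℝ 1 (gi i) := by
  unfold gi
  have h : (1 : WithTop ℕ∞) ≤ ∞ := (by norm_num : (1 : WithTop ℕ∞) ≤ 3).trans le_inf3
  exact (gth_contDiff.of_le h).comp (coord_contDiff i)

theorem gi_per (i : Io) (k : Io → ℤ) (m : ℤ) (z : (Io → ℝ) × ℝ) :
    gi i (z + (zv k, (m : ℝ))) = gi i z := by
  unfold gi
  simp only [Prod.fst_add, Pi.add_apply, zv]
  exact gth_add_int _ _

theorem gi_deriv (i : Io) (x v : Io → ℝ) (t : ℝ) :
    fderiv ℝ (gi i) (x, t) (v, 1) + v i - 0 = th (x i) * v i := by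
  have hd : DifferentiableAt ℝ (gi i) (x, t) := ((gi_contDiff i).differentiable one_ne_zero) _
  have h1 : HasDerivAt gth (th (x i) - 1) (((x, t) + (0 : ℝ) • (v, (1 : ℝ))).1 i) := by
    simpa using gth_hasDerivAt (x i)
  have h2 := h1.comp (0 : ℝ) (line_x x v t i)
  have h3 := fderiv_line (g := gi i) hd h2
  rw [h3]
  ring

theorem exists_MV : ∃ M : ℝ, 0 ≤ M ∧ ∀ z, ‖V1 z‖ ≤ M :=
  exists_bound_of_periodic V1 V1_contDiff.continuous V1_per

theorem exists_MX : ∃ M : ℝ, 0 ≤ M ∧ ∀ z, ‖Xo z‖ ≤ M :=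
  exists_bound_of_periodic Xo Xo_contDiff.continuous Xo_per

theorem th_le (x : ℝ) : th x ≤ 1 / mB := bb_le _

theorem V1_ge_th (x : Io → ℝ) (t : ℝ) : ∑ c, th (zA x c) + ∑ c, th (zB x c) ≤ V1 (x, t) := by
  unfold V1
  have h1 := GD_nonneg (zA x)
  have h2 := GD_nonneg (zB x)
  have h3 := bb_nonneg (t - 1 / 2)
  have h4 := bb_nonneg t
  have h5 := Wm_nonneg hh (zA x, zB x)
  have h6 := Wm_nonneg 0 (zA x, zB x)
  have h7 : 0 ≤ (1 - (xi (x, t)).re) ^ 2 + (1 - sB t) ^ 2 * GD (zA x) + (sB t) ^ 2 * GD (zB x) +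
    bb (t - 1 / 2) * Wm hh (zA x, zB x) + bb t * Wm 0 (zA x, zB x) :=
    add_nonneg (add_nonneg (add_nonneg (add_nonneg (sq_nonneg _)
    (mul_nonneg (sq_nonneg _) h1)) (mul_nonneg (sq_nonneg _) h2)) (mul_nonneg h3 h5))
    (mul_nonneg h4 h6)
  simp only
  linarith

theorem th_bound (i : Io) (hi : i ≠ .inl 0) (x : Io → ℝ) (t : ℝ) :
    th (x i) ≤ (1 + 1 / mB) * Vo (x, t) := by
  have hq := qc_mem x
  have hV := V1_nonneg (x, t)
  have hm : 0 ≤ 1 / mB := div_nonneg zero_le_one mB_pos.le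
  have hth := th_le (x i)
  have h0 := th_nonneg (x i)
  have hV0 := Vo_nonneg (x, t)
  have case1 : qc x = 0 → th (x i) ≤ (1 + 1 / mB) * Vo (x, t) := by
    intro h
    have : Vo (x, t) = 1 := by simp [Vo, h]
    rw [this]
    linarith
  have case2 : th (x i) ≤ V1 (x, t) → th (x i) ≤ (1 + 1 / mB) * Vo (x, t) := by
    intro h
    have e : Vo (x, t) = qc x * V1 (x, t) + (1 - qc x) := rfl
    have h1 : qc x * th (x i) ≤ qc x * V1 (x, t) := mul_le_mul_of_nonneg_left h hq.1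
    have h2 : (1 - qc x) * th (x i) ≤ (1 - qc x) * (1 / mB) :=
      mul_le_mul_of_nonneg_left hth (sub_nonneg.2 hq.2)
    have h3 : 0 ≤ qc x * V1 (x, t) := mul_nonneg hq.1 hV
    have h4 : 0 ≤ 1 - qc x := sub_nonneg.2 hq.2
    rw [e]
    nlinarith [mul_nonneg hm h3, mul_nonneg hm h4]
  rcases i with j | c | c
  · by_cases hth0 : th (x (.inl j)) = 0
    · rw [hth0]; positivity
    · have hchi := chi_of_th hth0
      apply case1
      unfold qc
      fin_cases j
      · exact absurd rfl hi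
      · have : chi (x (.inl 1)) = 0 := hchi
        rw [this, zero_mul]
      · have : chi (x (.inl 2)) = 0 := hchi
        rw [this, mul_zero]
  · apply case2
    refine le_trans ?_ (V1_ge_th x t)
    have h1 : th (zA x c) ≤ ∑ c, th (zA x c) :=
      Finset.single_le_sum (f := fun c => th (zA x c)) (fun c _ => th_nonneg _)
        (Finset.mem_univ c)
    have h2 : 0 ≤ ∑ c, th (zB x c) := Finset.sum_nonneg fun c _ => th_nonneg _
    have h3 : th (x (.inr (.inl c))) = th (zA x c) := rfl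
    linarith
  · apply case2
    refine le_trans ?_ (V1_ge_th x t)
    have h1 : th (zB x c) ≤ ∑ c, th (zB x c) :=
      Finset.single_le_sum (f := fun c => th (zB x c)) (fun c _ => th_nonneg _)
        (Finset.mem_univ c)
    have h2 : 0 ≤ ∑ c, th (zA x c) := Finset.sum_nonneg fun c _ => th_nonneg _
    have h3 : th (x (.inr (.inr c))) = th (zB x c) := rfl
    linarith

theorem sq_le_sum (x v : Io → ℝ) (t : ℝ) (i : Io) :
    (wo x v t i) ^ 2 ≤ ∑ i, (wo x v t i) ^ 2 :=
  Finset.single_le_sum (f := fun i => (wo x v t i) ^ 2) (fun c _ => sq_nonneg _)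
    (Finset.mem_univ i)

theorem exists_low : ∃ c : ℝ, 0 < c ∧ ∀ i, ∃ g : (Io → ℝ) × ℝ → ℝ, ContDiff ℝ 1 g ∧
    (∀ (k : Io → ℤ) (m : ℤ) (z : (Io → ℝ) × ℝ), g (z + (zv k, (m : ℝ))) = g z) ∧
    ∀ x v t, c * |fderiv ℝ g (x, t) (v, 1) + v i - ho i| ≤ Do.Lr x v t := by
  obtain ⟨MV, hMV, hV⟩ := exists_MV
  obtain ⟨MX, hMX, hX⟩ := exists_MX
  have hm : 0 ≤ 1 / mB := div_nonneg zero_le_one mB_pos.le
  have hMD := MD_nonneg
  set K1 : ℝ := 1 / mB * (1 + MD) with hK1
  set K2 : ℝ := (1 / 2 * (1 / mB) + MX) * (1 + 1 / mB) with hK2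
  have hK1' : 0 ≤ K1 := by positivity
  have hK2' : 0 ≤ K2 := by positivity
  set K : ℝ := 1 + MV + K1 + K2 with hK
  have hKpos : 0 < K := by positivity
  have key : ∀ (i : Io) (x v : Io → ℝ) (t : ℝ) (a : ℝ), |a| ≤ K * Do.Lr x v t →
      1 / K * |a| ≤ Do.Lr x v t := by
    intro i x v t a h
    rw [one_div, inv_mul_le_iff₀ hKpos]
    exact h
  refine ⟨1 / K, by positivity, fun i => ?_⟩
  by_cases hi : i = .inl 0
  · subst hi
    refine ⟨g1, g1_contDiff, g1_per, fun x v t => ?_⟩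
    apply key (.inl 0)
    have e : ho (.inl 0) = hh := by simp [ho]
    rw [e]
    refine (est1 x v t).trans ?_
    rw [Lr_eq]
    have hs : 0 ≤ 1 / 2 * ∑ i, (wo x v t i) ^ 2 :=
      mul_nonneg (by norm_num) (Finset.sum_nonneg fun i _ => sq_nonneg _)
    have hq := qc_mem x
    have hV1 := V1_nonneg (x, t)
    have hV2 : V1 (x, t) ≤ MV := (le_abs_self _).trans (hV (x, t))
    have ev : Vo (x, t) = qc x * V1 (x, t) + (1 - qc x) := rfl
    rw [ev]
    set SS := 1 / 2 * ∑ i, (wo x v t i) ^ 2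
    set W := V1 (x, t)
    set qq' := qc x
    have h1 : (1 - qq') * W ≤ (1 - qq') * MV :=
      mul_le_mul_of_nonneg_left hV2 (sub_nonneg.2 hq.2)
    have h2 : 0 ≤ qq' * W := mul_nonneg hq.1 hV1
    have h3 : 0 ≤ 1 - qq' := sub_nonneg.2 hq.2
    have h4 : 0 ≤ (MV + K1 + K2) * (SS + qq' * W) := by positivity
    have h5 : 0 ≤ (1 + K2) * (1 - qq') := by positivity
    calc SS + W + K1 * (1 - qq') = SS + (qq' * W + (1 - qq') * W) + K1 * (1 - qq') := by ring
      _ ≤ SS + (qq' * W + (1 - qq') * MV) + K1 * (1 - qq') := by linarith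
      _ ≤ K * (SS + (qq' * W + (1 - qq'))) := by rw [hK]; nlinarith
  · refine ⟨gi i, gi_contDiff i, gi_per i, fun x v t => ?_⟩
    apply key i
    have e : ho i = 0 := by simp [ho, hi]
    rw [e, gi_deriv, Lr_eq]
    have hs : 0 ≤ 1 / 2 * ∑ i, (wo x v t i) ^ 2 :=
      mul_nonneg (by norm_num) (Finset.sum_nonneg fun i _ => sq_nonneg _)
    have hth := th_bound i hi x t
    have h0 := th_nonneg (x i)
    have h1 := th_le (x i)
    have hX1 : |Xo (x, t) i| ≤ MX := (norm_le_pi_norm (Xo (x, t)) i).trans (hX (x, t))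
    have hv : |v i| ≤ |wo x v t i| + MX := by
      have : v i = wo x v t i + Xo (x, t) i := by unfold wo; ring
      rw [this]
      exact (abs_add_le _ _).trans (by linarith)
    have hsq := sq_le_sum x v t i
    have hV0 := Vo_nonneg (x, t)
    rw [abs_mul, abs_of_nonneg h0]
    have h2 : th (x i) * |v i| ≤ th (x i) * (|wo x v t i| + MX) :=
      mul_le_mul_of_nonneg_left hv h0
    have h3 : th (x i) * |wo x v t i| ≤ 1 / 2 * (wo x v t i) ^ 2 + 1 / 2 * (th (x i)) ^ 2 := by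
      rw [← sq_abs (wo x v t i)]
      nlinarith [sq_nonneg (th (x i) - |wo x v t i|)]
    have h4 : (th (x i)) ^ 2 ≤ (1 / mB) * th (x i) := by nlinarith
    have h5 : (1 / 2 * (1 / mB) + MX) * th (x i) ≤ K2 * Vo (x, t) := by
      rw [hK2, mul_assoc]
      exact mul_le_mul_of_nonneg_left hth (by positivity)
    have h6 : 0 ≤ (MV + K1 + K2) * (1 / 2 * ∑ i, (wo x v t i) ^ 2) := by positivity
    have h7 : 0 ≤ (1 + MV + K1) * Vo (x, t) := by positivity
    rw [hK]
    nlinarith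

end Pool.Agent.LibMather41
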