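import Pool.Agent.LibMather41.Whitney

/-!
Flat extension of a function given on a parametrized set.
-/

set_option linter.unusedSectionVars false

open MeasureTheory Metric Set Filter Topology ContinuousLinearMap
open scoped ContDiff

namespace Pool.Agent.LibMather41

theorem add_pow_four_le {a b : ℝ} (ha : 0 ≤ a) (hb : 0 ≤ b) :
    (a + b) ^ 4 ≤ 8 * (a ^ 4 + b ^ 4) := by
  nlinarith [sq_nonneg (a - b), sq_nonneg (a ^ 2 - b ^ 2), mul_nonneg ha hb,
    sq_nonneg (a + b), mul_nonneg (mul_nonneg ha hb) (sq_nonneg (a - b)),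
    sq_nonneg (a * b)]

section

variable {E : Type} [NormedAddCommGroup E] [NormedSpace ℝ E] [FiniteDimensional ℝ E]
  [MeasurableSpace E] [BorelSpace E]

theorem exists_flat_param (Θ : Type) [Nonempty Θ] (σ : Θ → E) (φ : Θ → ℝ) (B : ℝ)
    (hB : ∀ α, |φ α| ≤ B) (C0 : ℝ) (hC0 : 0 ≤ C0)
    (h : ∀ α β, |φ α - φ β| ≤ C0 * ‖σ α - σ β‖ ^ 4)
    (P : Set E) (hP : ∀ k ∈ P, ∀ α, ∃ β, σ β = σ α + k ∧ φ β = φ α) (hP' : ∀ k ∈ P, -k ∈ P) :
    ∃ (F : E → ℝ) (C' : ℝ), 0 ≤ C' ∧ ContDiff ℝ 3 F ∧ (∀ α, F (σ α) = φ α) ∧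
      (∀ α x, |F x - φ α| ≤ C' * ‖x - σ α‖ ^ 4) ∧ (∀ k ∈ P, ∀ x, F (x + k) = F x) := by
  set t : Θ → E → ℝ := fun α x => min (φ α + 8 * C0 * ‖x - σ α‖ ^ 4) B with ht
  set g : E → ℝ := fun x => ⨅ α, t α x with hg
  have hlow : ∀ α x, -B ≤ t α x := by
    intro α x
    have h1 := (abs_le.1 (hB α)).1
    have h2 := (abs_le.1 (hB α)).2
    have h3 : 0 ≤ 8 * C0 * ‖x - σ α‖ ^ 4 := by positivity
    exact le_min (by linarith) (by linarith)
  have hbdd : ∀ x, BddBelow (Set.range (fun α => t α x)) := by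
    intro x
    refine ⟨-B, ?_⟩
    rintro _ ⟨α, rfl⟩
    exact hlow α x
  have hup : ∀ α x, g x ≤ t α x := fun α x => ciInf_le (hbdd x) α
  have hkey : ∀ α x, φ α - 8 * C0 * ‖x - σ α‖ ^ 4 ≤ g x := by
    intro α x
    apply le_ciInf
    intro β
    apply le_min
    · have h1 := (abs_le.1 (h α β)).2
      have h2 : ‖σ α - σ β‖ ≤ ‖x - σ α‖ + ‖x - σ β‖ := by
        have : σ α - σ β = (x - σ β) - (x - σ α) := by abel
        rw [this]
        exact (norm_sub_le _ _).trans (le_of_eq (add_comm _ _))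
      have h3 : ‖σ α - σ β‖ ^ 4 ≤ 8 * (‖x - σ α‖ ^ 4 + ‖x - σ β‖ ^ 4) :=
        (pow_le_pow_left₀ (norm_nonneg _) h2 4).trans
          (add_pow_four_le (norm_nonneg _) (norm_nonneg _))
      have h4 : C0 * ‖σ α - σ β‖ ^ 4 ≤ C0 * (8 * (‖x - σ α‖ ^ 4 + ‖x - σ β‖ ^ 4)) :=
        mul_le_mul_of_nonneg_left h3 hC0
      nlinarith
    · have h2 := (abs_le.1 (hB α)).2
      have h3 : 0 ≤ 8 * C0 * ‖x - σ α‖ ^ 4 := by positivity
      linarith
  have hupφ : ∀ α x, g x ≤ φ α + 8 * C0 * ‖x - σ α‖ ^ 4 := fun α x =>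
    (hup α x).trans (min_le_left _ _)
  have hgσ : ∀ α, g (σ α) = φ α := by
    intro α
    have h1 := hkey α (σ α)
    have h2 := hupφ α (σ α)
    simp only [sub_self, norm_zero, ne_eq, OfNat.ofNat_ne_zero, not_false_eq_true, zero_pow,
      mul_zero, sub_zero, add_zero] at h1 h2
    exact le_antisymm h2 h1
  have hgBM : BM g := by
    refine ⟨?_, B, ?_⟩
    · apply UpperSemicontinuous.measurable
      apply upperSemicontinuous_ciInf hbdd
      intro α
      apply Continuous.upperSemicontinuous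
      simp only [ht]
      fun_prop
    · intro x
      rw [abs_le]
      constructor
      · exact le_ciInf (fun α => hlow α x)
      · exact (hup (Classical.arbitrary Θ) x).trans (min_le_right _ _)
  have hper1 : ∀ k ∈ P, ∀ x, g (x + k) ≤ g x := by
    intro k hk x
    apply le_ciInf
    intro α
    obtain ⟨β, hβ1, hβ2⟩ := hP k hk α
    have h1 : t β (x + k) = t α x := by
      simp only [ht]
      rw [hβ1, hβ2, add_sub_add_right_eq_sub]
    rw [← h1]
    exact hup β (x + k)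
  have hper : ∀ k ∈ P, ∀ x, g (x + k) = g x := by
    intro k hk x
    apply le_antisymm (hper1 k hk x)
    have := hper1 (-k) (hP' k hk) (x + k)
    simpa using this
  obtain ⟨F, C', hC', hF1, hF2, hF3, hF4⟩ := exists_flat_extension (Set.range σ)
    (Set.range_nonempty σ) g hgBM (8 * C0) (by positivity) (by
      rintro _ ⟨α, rfl⟩ x
      rw [hgσ α, abs_le]
      have h1 := hkey α x
      have h2 := hupφ α x
      constructor <;> linarith) P (by
      intro k hk x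
      constructor
      · rintro ⟨α, rfl⟩
        obtain ⟨β, hβ, _⟩ := hP k hk α
        exact ⟨β, hβ⟩
      · rintro ⟨α, hα⟩
        obtain ⟨β, hβ, _⟩ := hP (-k) (hP' k hk) α
        refine ⟨β, ?_⟩
        rw [hβ, hα]
        abel) hper
  refine ⟨F, C', hC', hF1, ?_, ?_, hF4⟩
  · intro α
    rw [hF2 _ ⟨α, rfl⟩, hgσ]
  · intro α x
    have := hF3 _ ⟨α, rfl⟩ x
    rwa [hgσ] at this

end

end Pool.Agent.LibMather41
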