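import Pool.Agent.LibMather41.Tonelli

/-!
Invariant measures: holonomy, lower bounds, convexity of `beta`.
-/

set_option linter.unusedSectionVars false
set_option linter.unusedVariables false

open MeasureTheory Metric Set Filter Topology Bornology
open scoped ContDiff

namespace Pool.Agent.LibMather41

variable {ι : Type} [Fintype ι] [DecidableEq ι] (D : Sys ι)

namespace Sys

theorem inv_Phi {μ : Measure (Phase ι)} (h : IsInvMeasure D.L μ) (s : ℝ) :
    MeasurePreserving (D.Phi s) μ μ := by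
  obtain ⟨_, _, Φ, h1, h2⟩ := h
  rw [← D.Phi_unique h1]
  exact h2 s

/-- Invariant measures have bounded velocities. -/
theorem exists_vbound {μ : Measure (Phase ι)} (h : IsInvMeasure D.L μ) :
    ∃ R : ℝ, 0 ≤ R ∧ ∀ᵐ z ∂μ, ‖z.2.1‖ ≤ R := by
  obtain ⟨_, ⟨C, hC, hCμ⟩, _⟩ := h
  obtain ⟨R, hR⟩ := hC.exists_bound_of_continuousOn
    (f := fun z : Phase ι => z.2.1) (by fun_prop)
  refine ⟨max R 0, le_max_right _ _, ?_⟩
  rw [ae_iff]
  refine measure_mono_null ?_ hCμ
  intro z hz hzC
  exact hz ((hR z hzC).trans (le_max_left _ _))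

theorem chart_norm_le {z : Phase ι} {R M : ℝ} (hM : 0 ≤ M) (hX : ∀ y, ‖D.X y‖ ≤ M)
    (hz : ‖z.2.1‖ ≤ R) :
    ‖D.chart z‖ ≤ 1 + R + M := by
  have hR : 0 ≤ R := (norm_nonneg _).trans hz
  unfold chart
  rw [Prod.norm_def, Prod.norm_def]
  refine max_le ?_ (max_le ?_ ?_)
  · simp only
    rw [pi_norm_le_iff_of_nonneg (by positivity)]
    intro i
    have := rep_mem (z.1 i)
    rw [Real.norm_eq_abs, abs_of_nonneg this.1]
    linarith [this.2]
  · simp only
    have h1 : ‖z.2.1 - D.X (fun i => rep (z.1 i), rep z.2.2)‖ ≤ R + M :=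
      (norm_sub_le _ _).trans (add_le_add hz (hX _))
    have h2 : (fun i => z.2.1 i - D.X (fun i => rep (z.1 i), rep z.2.2) i) =
      z.2.1 - D.X (fun i => rep (z.1 i), rep z.2.2) := rfl
    rw [h2]
    linarith
  · have := rep_mem z.2.2
    simp only
    rw [Real.norm_eq_abs, abs_of_nonneg this.1]
    linarith [this.2]

/-- The function `g` on the circle bundle. -/
noncomputable def gc (g : (ι → ℝ) × ℝ → ℝ) (z : Phase ι) : ℝ :=
  g (fun i => rep (z.1 i), rep z.2.2)

theorem gc_unchart (g : (ι → ℝ) × ℝ → ℝ)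
    (hper : ∀ (k : ι → ℤ) (m : ℤ) (z : (ι → ℝ) × ℝ), g (z + (zv k, (m : ℝ))) = g z)
    (c : (ι → ℝ) × (ι → ℝ) × ℝ) : gc g (D.unchart c) = g (c.1, c.2.2) := by
  unfold gc unchart proj
  have h := hper (fun i => -⌊c.1 i⌋) (-⌊c.2.2⌋) (c.1, c.2.2)
  rw [← h]
  congr 1
  refine Prod.ext ?_ ?_
  · ext i
    simp only [rep_coe, Prod.fst_add, Pi.add_apply, zv, Int.cast_neg]
    rw [← sub_eq_add_neg, Int.self_sub_floor]
  · simp only [rep_coe, Prod.snd_add, Int.cast_neg]
    rw [← sub_eq_add_neg, Int.self_sub_floor]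

/-- Total derivative of `g` on the phase space. -/
noncomputable def dg (g : (ι → ℝ) × ℝ → ℝ) (z : Phase ι) : ℝ :=
  fderiv ℝ g (fun i => rep (z.1 i), rep z.2.2) (z.2.1, 1)

/-- Holonomy. -/
theorem holonomy {μ : Measure (Phase ι)} (h : IsInvMeasure D.L μ)
    (g : (ι → ℝ) × ℝ → ℝ) (hg : ContDiff ℝ 1 g)
    (hper : ∀ (k : ι → ℤ) (m : ℤ) (z : (ι → ℝ) × ℝ), g (z + (zv k, (m : ℝ))) = g z) :
    Integrable (dg g) μ ∧ ∫ z, dg g z ∂μ = 0 := by
  have hprob : IsProbabilityMeasure μ := h.1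
  obtain ⟨R, hR, hv⟩ := D.exists_vbound h
  obtain ⟨M, hM, hX⟩ := exists_bound_of_periodic D.X D.hX.continuous D.perX
  obtain ⟨Mg, hMg, hgb⟩ := exists_bound_of_periodic g hg.continuous hper
  obtain ⟨Mg', hMg', hgb'⟩ := exists_bound_of_periodic (fderiv ℝ g)
    (hg.continuous_fderiv one_ne_zero) (fderiv_per g hper)
  set E : ℝ := (1 + R + M + 1) * Real.exp (D.A * 1) with hE
  set F : ℝ → Phase ι → ℝ := fun s z => g ((D.good.flow s (D.chart z)).1,
    (D.good.flow s (D.chart z)).2.2) with hF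
  set F' : ℝ → Phase ι → ℝ := fun s z => fderiv ℝ g ((D.good.flow s (D.chart z)).1,
    (D.good.flow s (D.chart z)).2.2) ((D.Y (D.good.flow s (D.chart z))).1,
    (D.Y (D.good.flow s (D.chart z))).2.2) with hF'
  have hflow : ∀ s, Measurable (fun z => D.good.flow s (D.chart z)) := fun s =>
    (D.good.flow_continuous s).measurable.comp D.measurable_chart
  have hpr : ∀ s, Measurable (fun z => ((D.good.flow s (D.chart z)).1,
      (D.good.flow s (D.chart z)).2.2)) := fun s =>
    (measurable_fst.comp (hflow s)).prodMk (measurable_snd.comp (measurable_snd.comp (hflow s)))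
  have hFm : ∀ s, Measurable (F s) := fun s => hg.continuous.measurable.comp (hpr s)
  have hF'm : Measurable (F' 0) := by
    have hc : Continuous (fun z : (ι → ℝ) × (ι → ℝ) × ℝ =>
        fderiv ℝ g (z.1, z.2.2) ((D.Y z).1, (D.Y z).2.2)) := by
      have h1 : Continuous (fun z : (ι → ℝ) × (ι → ℝ) × ℝ => fderiv ℝ g (z.1, z.2.2)) :=
        (hg.continuous_fderiv one_ne_zero).comp (by fun_prop)
      have h2 : Continuous D.Y := D.Y_contDiff.continuous
      exact h1.clm_apply ((continuous_fst.comp h2).prodMk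
        (continuous_snd.comp (continuous_snd.comp h2)))
    exact hc.measurable.comp (hflow 0)
  have hFint : Integrable (F 0) μ := by
    refine Integrable.of_bound (hFm 0).aestronglyMeasurable Mg (ae_of_all _ fun z => hgb _)
  have hder : ∀ (z : Phase ι) (s : ℝ), HasDerivAt (fun s => F s z) (F' s z) s := by
    intro z s
    have h1 := D.good.flow_deriv (D.chart z) s
    have h2 : HasDerivAt (fun s => ((D.good.flow s (D.chart z)).1,
        (D.good.flow s (D.chart z)).2.2)) ((D.Y (D.good.flow s (D.chart z))).1,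
        (D.Y (D.good.flow s (D.chart z))).2.2) s := (hd_fst h1).prodMk (hd_snd (hd_snd h1))
    have h3 : HasFDerivAt g (fderiv ℝ g ((D.good.flow s (D.chart z)).1,
        (D.good.flow s (D.chart z)).2.2)) ((D.good.flow s (D.chart z)).1,
        (D.good.flow s (D.chart z)).2.2) :=
      ((hg.differentiable one_ne_zero) _).hasFDerivAt
    exact h3.comp_hasDerivAt s h2
  have hApos := D.good.pos
  have hbd : ∀ᵐ z ∂μ, ∀ s ∈ ball (0 : ℝ) 1, ‖F' s z‖ ≤ Mg' * (D.A * E) := by
    filter_upwards [hv] with z hz s hs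
    have hs1 : |s| ≤ 1 := by
      rw [mem_ball, dist_zero_right, Real.norm_eq_abs] at hs; exact hs.le
    have h1 := D.good.bound (c := fun s => D.good.flow s (D.chart z))
      (fun t => D.good.flow_deriv (D.chart z) t) s
    simp only [D.good.flow_zero] at h1
    have h2 := D.chart_norm_le hM hX hz
    have h3 : Real.exp (D.A * |s|) ≤ Real.exp (D.A * 1) :=
      Real.exp_le_exp.2 (mul_le_mul_of_nonneg_left hs1 hApos.le)
    have h4 : ‖D.good.flow s (D.chart z)‖ + 1 ≤ E := by
      refine h1.trans ?_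
      rw [hE]
      apply mul_le_mul (by linarith) h3 (Real.exp_pos _).le (by positivity)
    have h5 := D.good.grow (D.good.flow s (D.chart z))
    have h6 : ‖D.Y (D.good.flow s (D.chart z))‖ ≤ D.A * E := by
      refine h5.trans ?_
      apply mul_le_mul_of_nonneg_left _ hApos.le
      linarith
    have h7 : ‖((D.Y (D.good.flow s (D.chart z))).1,
        (D.Y (D.good.flow s (D.chart z))).2.2)‖ ≤ D.A * E := by
      rw [Prod.norm_def]
      refine max_le ((norm_fst_le (D.Y (D.good.flow s (D.chart z)))).trans h6) ?_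
      exact ((norm_snd_le (D.Y (D.good.flow s (D.chart z))).2).trans
        (norm_snd_le (D.Y (D.good.flow s (D.chart z))))).trans h6
    refine (ContinuousLinearMap.le_opNorm _ _).trans ?_
    exact mul_le_mul (hgb' _) h7 (norm_nonneg _) hMg'
  have key := hasDerivAt_integral_of_dominated_loc_of_deriv_le (μ := μ) (F := F) (F' := F')
    (x₀ := (0 : ℝ)) (s := ball (0 : ℝ) 1) (bound := fun _ => Mg' * (D.A * E))
    (ball_mem_nhds _ one_pos)
    (Eventually.of_forall fun s => (hFm s).aestronglyMeasurable) hFint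
    hF'm.aestronglyMeasurable hbd (integrable_const _)
    (ae_of_all _ fun z s _ => hder z s)
  have hconst : ∀ s, ∫ z, F s z ∂μ = ∫ z, F 0 z ∂μ := by
    intro s
    have hgcm : Measurable (gc g : Phase ι → ℝ) := by
      unfold gc
      refine hg.continuous.measurable.comp (Measurable.prodMk ?_ ?_)
      · exact measurable_pi_lambda _ fun i =>
          measurable_rep.comp ((measurable_pi_apply i).comp measurable_fst)
      · exact measurable_rep.comp (measurable_snd.comp measurable_snd)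
    have h1 : ∀ s, F s = fun z => gc g (D.Phi s z) := by
      intro s
      ext z
      unfold Phi
      rw [D.gc_unchart g hper]
    have h2 : ∀ s, ∫ z, F s z ∂μ = ∫ z, gc g z ∂μ := by
      intro s
      rw [h1 s]
      have hmp := D.inv_Phi h s
      calc ∫ z, gc g (D.Phi s z) ∂μ = ∫ z, gc g z ∂(μ.map (D.Phi s)) :=
            (integral_map hmp.measurable.aemeasurable hgcm.aestronglyMeasurable).symm
        _ = ∫ z, gc g z ∂μ := by rw [hmp.map_eq]
    rw [h2 s, h2 0]
  have h0 : (fun s => ∫ z, F s z ∂μ) = fun _ => ∫ z, F 0 z ∂μ := by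
    ext s; exact hconst s
  have h1 := key.2
  rw [h0] at h1
  have h2 : ∫ z, F' 0 z ∂μ = 0 := h1.unique (hasDerivAt_const _ _)
  have h3 : F' 0 = dg g := by
    ext z
    rw [hF']
    simp only [D.good.flow_zero]
    unfold dg chart Y
    simp only
    congr 2
    ext i
    simp
  rw [h3] at h2
  refine ⟨?_, h2⟩
  rw [← h3]
  exact key.1

theorem measurable_base : Measurable (fun z : Phase ι =>
    ((fun i => rep (z.1 i) : ι → ℝ), rep z.2.2)) := by
  refine Measurable.prodMk ?_ ?_
  · exact measurable_pi_lambda _ fun i =>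
      measurable_rep.comp ((measurable_pi_apply i).comp measurable_fst)
  · exact measurable_rep.comp (measurable_snd.comp measurable_snd)

theorem measurable_L : Measurable D.L := by
  unfold L Lr
  have h1 : Measurable (fun z : Phase ι => D.X (fun i => rep (z.1 i), rep z.2.2)) :=
    D.hX.continuous.measurable.comp measurable_base
  have h2 : Measurable (fun z : Phase ι => D.V (fun i => rep (z.1 i), rep z.2.2)) :=
    D.hV.continuous.measurable.comp measurable_base
  refine Measurable.add (Measurable.const_mul (Finset.measurable_sum _ fun i _ => ?_) _) h2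
  refine Measurable.pow_const ?_ 2
  exact ((measurable_pi_apply i).comp (measurable_fst.comp measurable_snd)).sub
    ((measurable_pi_apply i).comp h1)

theorem integrable_L {μ : Measure (Phase ι)} (h : IsInvMeasure D.L μ) : Integrable D.L μ := by
  have hprob : IsProbabilityMeasure μ := h.1
  obtain ⟨R, hR, hv⟩ := D.exists_vbound h
  obtain ⟨M, hM, hX⟩ := exists_bound_of_periodic D.X D.hX.continuous D.perX
  obtain ⟨M2, hM2, hV⟩ := exists_bound_of_periodic D.V D.hV.continuous D.perV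
  refine Integrable.of_bound D.measurable_L.aestronglyMeasurable
    (1 / 2 * (Fintype.card ι * (R + M) ^ 2) + M2) ?_
  filter_upwards [hv] with z hz
  unfold L Lr
  refine (norm_add_le _ _).trans (add_le_add ?_ (hV _))
  rw [norm_mul]
  refine mul_le_mul (by norm_num) ?_ (norm_nonneg _) (by norm_num)
  refine (norm_sum_le _ _).trans ?_
  have h1 : ∀ i ∈ (Finset.univ : Finset ι),
      ‖(z.2.1 i - D.X (fun i => rep (z.1 i), rep z.2.2) i) ^ 2‖ ≤ (R + M) ^ 2 := by
    intro i _
    rw [norm_pow]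
    refine pow_le_pow_left₀ (norm_nonneg _) ?_ 2
    refine (norm_sub_le _ _).trans (add_le_add ((norm_le_pi_norm _ i).trans hz)
      ((norm_le_pi_norm _ i).trans (hX _)))
  refine (Finset.sum_le_sum h1).trans ?_
  rw [Finset.sum_const, Finset.card_univ, nsmul_eq_mul]

theorem integrable_v {μ : Measure (Phase ι)} (h : IsInvMeasure D.L μ) (i : ι) :
    Integrable (fun z : Phase ι => z.2.1 i) μ := by
  have hprob : IsProbabilityMeasure μ := h.1
  obtain ⟨R, hR, hv⟩ := D.exists_vbound h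
  refine Integrable.of_bound
    ((measurable_pi_apply i).comp (measurable_fst.comp measurable_snd)).aestronglyMeasurable R ?_
  filter_upwards [hv] with z hz
  exact (norm_le_pi_norm _ i).trans hz

/-- Lower bound of the action. -/
theorem lower {μ : Measure (Phase ι)} (h : IsInvMeasure D.L μ)
    (g : (ι → ℝ) × ℝ → ℝ) (hg : ContDiff ℝ 1 g)
    (hper : ∀ (k : ι → ℤ) (m : ℤ) (z : (ι → ℝ) × ℝ), g (z + (zv k, (m : ℝ))) = g z)
    (i : ι) (a c : ℝ) (hc : 0 ≤ c)
    (hb : ∀ x v t, c * |fderiv ℝ g (x, t) (v, 1) + v i - a| ≤ D.Lr x v t) :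
    c * |homology μ i - a| ≤ ∫ z, D.L z ∂μ := by
  have hprob : IsProbabilityMeasure μ := h.1
  obtain ⟨h1, h2⟩ := D.holonomy h g hg hper
  have h3 := D.integrable_v h i
  have h4 : ∫ z, (dg g z + z.2.1 i - a) ∂μ = homology μ i - a := by
    have h13 : Integrable (fun z => dg g z + z.2.1 i) μ := h1.add h3
    rw [integral_sub h13 (integrable_const _), integral_add h1 h3, h2]
    simp [homology]
  rw [← h4]
  have h5 : Integrable (fun z => dg g z + z.2.1 i - a) μ :=
    (h1.add h3).sub (integrable_const _)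
  calc c * |∫ z, (dg g z + z.2.1 i - a) ∂μ| ≤ c * ∫ z, |dg g z + z.2.1 i - a| ∂μ :=
        mul_le_mul_of_nonneg_left abs_integral_le_integral_abs hc
    _ = ∫ z, c * |dg g z + z.2.1 i - a| ∂μ := (integral_const_mul _ _).symm
    _ ≤ ∫ z, D.L z ∂μ := by
        refine integral_mono (h5.abs.const_mul c) (D.integrable_L h) fun z => ?_
        exact hb _ _ _

theorem L_nonneg (hV : ∀ z, 0 ≤ D.V z) (z : Phase ι) : 0 ≤ D.L z := by
  unfold L Lr
  have h1 := hV (fun i => rep (z.1 i), rep z.2.2)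
  have h2 : 0 ≤ ∑ i, (z.2.1 i - D.X (fun i => rep (z.1 i), rep z.2.2) i) ^ 2 :=
    Finset.sum_nonneg fun i _ => sq_nonneg _
  positivity

theorem actions_nonneg (hV : ∀ z, 0 ≤ D.V z) (h : ι → ℝ) {a : ℝ} (ha : a ∈ actions D.L h) :
    0 ≤ a := by
  obtain ⟨μ, _, _, rfl⟩ := ha
  exact integral_nonneg (D.L_nonneg hV)

/-- Convex combinations. -/
theorem combine {h₁ h₂ : ι → ℝ} {a₁ a₂ : ℝ} (ha₁ : a₁ ∈ actions D.L h₁)
    (ha₂ : a₂ ∈ actions D.L h₂) {a b : ℝ} (ha : 0 ≤ a) (hb : 0 ≤ b) (hab : a + b = 1) :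
    a * a₁ + b * a₂ ∈ actions D.L (a • h₁ + b • h₂) := by
  obtain ⟨μ, hμ, rfl, rfl⟩ := ha₁
  obtain ⟨ν, hν, rfl, rfl⟩ := ha₂
  have pμ : IsProbabilityMeasure μ := hμ.1
  have pν : IsProbabilityMeasure ν := hν.1
  have haf : ENNReal.ofReal a ≠ ⊤ := ENNReal.ofReal_ne_top
  have hbf : ENNReal.ofReal b ≠ ⊤ := ENNReal.ofReal_ne_top
  have key : ∀ f : Phase ι → ℝ, Integrable f μ → Integrable f ν →
      ∫ z, f z ∂(ENNReal.ofReal a • μ + ENNReal.ofReal b • ν) =
        a * ∫ z, f z ∂μ + b * ∫ z, f z ∂ν := by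
    intro f h1 h2
    rw [integral_add_measure (h1.smul_measure haf) (h2.smul_measure hbf),
      integral_smul_measure, integral_smul_measure, ENNReal.toReal_ofReal ha,
      ENNReal.toReal_ofReal hb, smul_eq_mul, smul_eq_mul]
  refine ⟨ENNReal.ofReal a • μ + ENNReal.ofReal b • ν, ⟨⟨?_⟩, ?_, D.Phi, D.isELFlow, ?_⟩, ?_, ?_⟩
  · simp only [Measure.coe_add, Measure.coe_smul, Pi.add_apply, Pi.smul_apply, measure_univ,
      smul_eq_mul, mul_one]
    rw [← ENNReal.ofReal_add ha hb, hab, ENNReal.ofReal_one]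
  · obtain ⟨C, hC, hC'⟩ := hμ.2.1
    obtain ⟨K, hK, hK'⟩ := hν.2.1
    refine ⟨C ∪ K, hC.union hK, ?_⟩
    have h1 : μ (C ∪ K)ᶜ = 0 :=
      measure_mono_null (compl_subset_compl.2 subset_union_left) hC'
    have h2 : ν (C ∪ K)ᶜ = 0 :=
      measure_mono_null (compl_subset_compl.2 subset_union_right) hK'
    rw [Measure.coe_add, Measure.coe_smul, Measure.coe_smul, Pi.add_apply, Pi.smul_apply,
      Pi.smul_apply, h1, h2, smul_zero, smul_zero, add_zero]
  · intro s
    refine ⟨D.measurable_Phi s, ?_⟩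
    rw [Measure.map_add _ _ (D.measurable_Phi s), Measure.map_smul, Measure.map_smul,
      (D.inv_Phi hμ s).map_eq, (D.inv_Phi hν s).map_eq]
  · ext i
    exact key _ (D.integrable_v hμ i) (D.integrable_v hν i)
  · exact (key _ (D.integrable_L hμ) (D.integrable_L hν)).symm

theorem beta_convex (hV : ∀ z, 0 ≤ D.V z) (hne : ∀ h, (actions D.L h).Nonempty) :
    ConvexOn ℝ univ (beta D.L) := by
  refine ⟨convex_univ, fun x _ y _ a b ha hb hab => ?_⟩
  have hbdd : ∀ h, BddBelow (actions D.L h) := fun h => ⟨0, fun a ha => D.actions_nonneg hV h ha⟩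
  apply le_of_forall_pos_le_add
  intro ε hε
  obtain ⟨a₁, h1, h1'⟩ := Real.lt_sInf_add_pos (hne x) hε
  obtain ⟨a₂, h2, h2'⟩ := Real.lt_sInf_add_pos (hne y) hε
  have h3 := D.combine h1 h2 ha hb hab
  have h4 : beta D.L (a • x + b • y) ≤ a * a₁ + b * a₂ := csInf_le (hbdd _) h3
  have h5 : a * a₁ ≤ a * (beta D.L x + ε) := mul_le_mul_of_nonneg_left h1'.le ha
  have h6 : b * a₂ ≤ b * (beta D.L y + ε) := mul_le_mul_of_nonneg_left h2'.le hb
  simp only [smul_eq_mul]
  calc beta D.L (a • x + b • y) ≤ a * (beta D.L x + ε) + b * (beta D.L y + ε) := by linarith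
    _ = a * beta D.L x + b * beta D.L y + (a + b) * ε := by ring
    _ = a * beta D.L x + b * beta D.L y + ε := by rw [hab, one_mul]

/-- Invariant measures from semiconjugacies. -/
theorem inv_of_map {S : Type} [MeasurableSpace S] (m : Measure S) [IsProbabilityMeasure m]
    (Ψ : S → Phase ι) (hΨ : Measurable Ψ) (T : ℝ → S → S)
    (hT : ∀ s, MeasurePreserving (T s) m m) (C : Set (Phase ι)) (hC : IsCompact C)
    (hΨC : ∀ σ, Ψ σ ∈ C) (heq : ∀ s σ, D.Phi s (Ψ σ) = Ψ (T s σ)) :
    IsInvMeasure D.L (m.map Ψ) := by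
  refine ⟨Measure.isProbabilityMeasure_map hΨ.aemeasurable, ⟨C, hC, ?_⟩, D.Phi, D.isELFlow, ?_⟩
  · rw [Measure.map_apply hΨ hC.measurableSet.compl]
    have : Ψ ⁻¹' Cᶜ = ∅ := by
      ext σ; simp [hΨC σ]
    rw [this, measure_empty]
  · intro s
    refine ⟨D.measurable_Phi s, ?_⟩
    rw [Measure.map_map (D.measurable_Phi s) hΨ]
    have : D.Phi s ∘ Ψ = Ψ ∘ T s := by ext1 σ; exact heq s σ
    rw [this, ← Measure.map_map hΨ (hT s).measurable, (hT s).map_eq]

end Sys

end Pool.Agent.LibMather41
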