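import Mathlib

/-!
Mollification with uniform derivative bounds at all scales.
-/

set_option linter.unusedSectionVars false

open MeasureTheory Metric Set Filter Topology ContinuousLinearMap
open scoped ContDiff

namespace Pool.Agent.LibMather41

section cv

variable {E : Type} [NormedAddCommGroup E] [NormedSpace ℝ E] [FiniteDimensional ℝ E]
  [MeasurableSpace E] [BorelSpace E] (μ : Measure E) [μ.IsAddHaarMeasure]

/-- Convolution of a vector valued function `f` with a scalar function `g`. -/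
noncomputable def cv {F : Type} [NormedAddCommGroup F] [NormedSpace ℝ F]
    (f : E → F) (g : E → ℝ) (x : E) : F := ∫ w, g (x - w) • f w ∂μ

theorem cv_eq {F : Type} [NormedAddCommGroup F] [NormedSpace ℝ F]
    (f : E → F) (g : E → ℝ) :
    cv μ f g = MeasureTheory.convolution f g (ContinuousLinearMap.lsmul ℝ ℝ).flip μ := by
  ext x
  simp [cv, MeasureTheory.convolution_def]

theorem fderiv_cv {F : Type} [NormedAddCommGroup F] [NormedSpace ℝ F] [CompleteSpace F]
    (f : E → F) (hf : ContDiff ℝ ∞ f) (hcf : HasCompactSupport f)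
    (g : E → ℝ) (hg : LocallyIntegrable g μ) :
    fderiv ℝ (cv μ f g) = cv μ (fderiv ℝ f) g := by
  ext1 x
  have h := hcf.hasFDerivAt_convolution_left (𝕜 := ℝ) (μ := μ)
    (ContinuousLinearMap.lsmul ℝ ℝ).flip (hf.of_le (by exact_mod_cast le_top)) hg x
  rw [cv_eq, h.fderiv]
  rw [MeasureTheory.convolution_def]
  unfold cv
  congr 1

theorem contDiff_cv {F : Type} [NormedAddCommGroup F] [NormedSpace ℝ F] [CompleteSpace F]
    (f : E → F) (hf : ContDiff ℝ ∞ f) (hcf : HasCompactSupport f)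
    (g : E → ℝ) (hg : LocallyIntegrable g μ) : ContDiff ℝ ∞ (cv μ f g) := by
  rw [cv_eq]
  exact hcf.contDiff_convolution_left _ hf hg

theorem norm_iteratedFDeriv_cv_le (k : ℕ) : ∀ {F : Type} [NormedAddCommGroup F]
    [NormedSpace ℝ F] [CompleteSpace F]
    (f : E → F) (_ : ContDiff ℝ ∞ f) (_ : tsupport f ⊆ closedBall 0 1)
    (g : E → ℝ) (_ : LocallyIntegrable g μ) (x : E) (B : ℝ)
    (_ : ∀ y ∈ closedBall x 1, |g y| ≤ B),
    ‖iteratedFDeriv ℝ k (cv μ f g) x‖ ≤ B * ∫ w, ‖iteratedFDeriv ℝ k f w‖ ∂μ := by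
  induction k with
  | zero =>
    intro F _ _ _ f hf hs g hg x B hB
    have hcs : HasCompactSupport f := HasCompactSupport.of_support_subset_isCompact
      (isCompact_closedBall 0 1) ((subset_tsupport f).trans hs)
    rw [norm_iteratedFDeriv_zero]
    simp_rw [norm_iteratedFDeriv_zero]
    unfold cv
    calc ‖∫ w, g (x - w) • f w ∂μ‖ ≤ ∫ w, B * ‖f w‖ ∂μ := by
          apply norm_integral_le_of_norm_le
          · exact ((hf.continuous.norm.integrable_of_hasCompactSupport
              (hcs.norm)).const_mul B)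
          · refine Filter.Eventually.of_forall (fun w => ?_)
            rw [norm_smul, Real.norm_eq_abs]
            by_cases hw : f w = 0
            · simp [hw]
            · have hw1 : w ∈ closedBall (0:E) 1 := hs (subset_tsupport f hw)
              have : x - w ∈ closedBall x 1 := by
                rw [mem_closedBall, dist_eq_norm]
                rw [mem_closedBall, dist_zero_right] at hw1
                simpa using hw1
              exact mul_le_mul_of_nonneg_right (hB _ this) (norm_nonneg _)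
      _ = B * ∫ w, ‖f w‖ ∂μ := integral_const_mul _ _
  | succ k ih =>
    intro F _ _ _ f hf hs g hg x B hB
    have hcs : HasCompactSupport f := HasCompactSupport.of_support_subset_isCompact
      (isCompact_closedBall 0 1) ((subset_tsupport f).trans hs)
    rw [← norm_iteratedFDeriv_fderiv, fderiv_cv μ f hf hcs g hg]
    have h := ih (fderiv ℝ f) (hf.fderiv_right (m := ∞) (by simp))
      ((tsupport_fderiv_subset ℝ).trans hs) g hg x B hB
    simp_rw [norm_iteratedFDeriv_fderiv] at h
    exact h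

/-- The standard mollifier: smooth, nonnegative, integral one, supported in the unit ball. -/
noncomputable def rho : E → ℝ :=
  (⟨1 / 2, 1, by norm_num, by norm_num⟩ : ContDiffBump (0 : E)).normed μ

theorem rho_contDiff : ContDiff ℝ ∞ (rho μ) := ContDiffBump.contDiff_normed _

theorem rho_nonneg (w : E) : 0 ≤ rho μ w := ContDiffBump.nonneg_normed _ _

theorem rho_tsupport : tsupport (rho μ) ⊆ closedBall 0 1 :=
  (ContDiffBump.tsupport_normed_eq _).le

theorem rho_hcs : HasCompactSupport (rho μ) := ContDiffBump.hasCompactSupport_normed _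

theorem rho_integral : ∫ w, rho μ w ∂μ = 1 := ContDiffBump.integral_normed _

theorem rho_eq_zero {w : E} (hw : 1 < ‖w‖) : rho μ w = 0 := by
  by_contra h
  have := rho_tsupport μ (subset_tsupport _ h)
  rw [mem_closedBall, dist_zero_right] at this
  linarith

/-- Bounded measurable functions. -/
def BM (g : E → ℝ) : Prop := Measurable g ∧ ∃ M, ∀ x, |g x| ≤ M

theorem BM.locallyIntegrable {g : E → ℝ} (hg : BM g) : LocallyIntegrable g μ := by
  obtain ⟨hm, M, hM⟩ := hg
  intro x
  refine ⟨closedBall x 1, closedBall_mem_nhds x one_pos, ?_⟩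
  exact Measure.integrableOn_of_bounded (M := M) (isCompact_closedBall x 1).measure_lt_top.ne
    hm.aestronglyMeasurable (Filter.Eventually.of_forall (fun y => by simpa using hM y))

theorem BM.smul {g : E → ℝ} (hg : BM g) (r : ℝ) : BM (fun w => g (r • w)) := by
  obtain ⟨hm, M, hM⟩ := hg
  exact ⟨hm.comp (measurable_const_smul r), M, fun x => hM _⟩

theorem BM.sub_const {g : E → ℝ} (hg : BM g) (c : ℝ) : BM (fun w => g w - c) := by
  obtain ⟨hm, M, hM⟩ := hg
  exact ⟨hm.sub_const c, M + |c|, fun x => (abs_sub _ _).trans (add_le_add (hM x) le_rfl)⟩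

/-- Mollification at scale `r`. -/
noncomputable def moll (r : ℝ) (g : E → ℝ) (x : E) : ℝ :=
  cv μ (rho μ) (fun w => g (r • w)) (r⁻¹ • x)

theorem moll_apply {r : ℝ} (hr : r ≠ 0) (g : E → ℝ) (x : E) :
    moll μ r g x = ∫ w, g (x - r • w) * rho μ w ∂μ := by
  unfold moll cv
  congr 1
  ext w
  change g (r • (r⁻¹ • x - w)) • rho μ w = g (x - r • w) * rho μ w
  rw [smul_sub, smul_inv_smul₀ hr, smul_eq_mul]

theorem moll_contDiff (r : ℝ) {g : E → ℝ} (hg : BM g) : ContDiff ℝ ∞ (moll μ r g) := by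
  have h := contDiff_cv μ (rho μ) (rho_contDiff μ) (rho_hcs μ) (fun w => g (r • w))
    ((hg.smul r).locallyIntegrable μ)
  exact h.comp (contDiff_const_smul _)

theorem integrable_moll_aux {r : ℝ} {g : E → ℝ} (hg : BM g) (x : E) :
    Integrable (fun w => g (x - r • w) * rho μ w) μ := by
  obtain ⟨hm, M, hM⟩ := hg
  have h1 : Integrable (rho μ) μ :=
    (rho_contDiff μ).continuous.integrable_of_hasCompactSupport (rho_hcs μ)
  refine h1.bdd_mul (c := M) ?_ ?_
  · exact (hm.comp (measurable_const.sub (measurable_const_smul r))).aestronglyMeasurable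
  · exact Filter.Eventually.of_forall (fun w => by simpa using hM _)

theorem moll_sub_const {r : ℝ} (hr : r ≠ 0) {g : E → ℝ} (hg : BM g) (c : ℝ) (x : E) :
    moll μ r (fun w => g w - c) x = moll μ r g x - c := by
  rw [moll_apply μ hr, moll_apply μ hr]
  simp_rw [sub_mul]
  rw [integral_sub (integrable_moll_aux μ hg x), integral_const_mul, rho_integral, mul_one]
  exact ((rho_contDiff μ).continuous.integrable_of_hasCompactSupport (rho_hcs μ)).const_mul c

theorem norm_iteratedFDeriv_moll_le (k : ℕ) {r : ℝ} (hr : 0 < r) {g : E → ℝ} (hg : BM g)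
    (x : E) {B : ℝ} (hB : ∀ y ∈ closedBall x r, |g y| ≤ B) :
    ‖iteratedFDeriv ℝ k (moll μ r g) x‖ ≤
      (r⁻¹) ^ k * (B * ∫ w, ‖iteratedFDeriv ℝ k (rho μ) w‖ ∂μ) := by
  set S : E → ℝ := cv μ (rho μ) (fun w => g (r • w)) with hS
  have hSc : ContDiff ℝ ∞ S := contDiff_cv μ (rho μ) (rho_contDiff μ) (rho_hcs μ)
    (fun w => g (r • w)) ((hg.smul r).locallyIntegrable μ)
  have h1 : moll μ r g = S ∘ (r⁻¹ • ContinuousLinearMap.id ℝ E) := by
    ext y; simp [moll, hS]
  have h2 : ‖iteratedFDeriv ℝ k S (r⁻¹ • x)‖ ≤ B * ∫ w, ‖iteratedFDeriv ℝ k (rho μ) w‖ ∂μ := by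
    apply norm_iteratedFDeriv_cv_le μ k (rho μ) (rho_contDiff μ) (rho_tsupport μ) _
      ((hg.smul r).locallyIntegrable μ)
    intro y hy
    apply hB
    rw [mem_closedBall, dist_eq_norm] at hy ⊢
    have : r • y - x = r • (y - r⁻¹ • x) := by rw [smul_sub, smul_inv_smul₀ hr.ne']
    rw [this, norm_smul, Real.norm_eq_abs, abs_of_pos hr]
    nlinarith [norm_nonneg (y - r⁻¹ • x)]
  have hC : 0 ≤ ∫ w, ‖iteratedFDeriv ℝ k (rho μ) w‖ ∂μ := integral_nonneg (fun _ => norm_nonneg _)
  rw [h1, ContinuousLinearMap.iteratedFDeriv_comp_right _ hSc _ (i := k)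
    (by exact_mod_cast le_top)]
  refine (ContinuousMultilinearMap.norm_compContinuousLinearMap_le _ _).trans ?_
  have h3 : ‖(r⁻¹ • ContinuousLinearMap.id ℝ E : E →L[ℝ] E)‖ ≤ r⁻¹ := by
    rw [norm_smul, Real.norm_eq_abs, abs_of_pos (inv_pos.2 hr)]
    have := ContinuousLinearMap.norm_id_le (𝕜 := ℝ) (E := E)
    have h4 : (0:ℝ) < r⁻¹ := inv_pos.2 hr
    nlinarith
  rw [mul_comm]
  simp only [Finset.prod_const, Finset.card_univ, Fintype.card_fin]
  have h5 : (r⁻¹ • ContinuousLinearMap.id ℝ E : E →L[ℝ] E) x = r⁻¹ • x := by simp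
  rw [h5]
  exact mul_le_mul (pow_le_pow_left₀ (norm_nonneg _) h3 k) h2 (norm_nonneg _)
    (pow_nonneg (inv_pos.2 hr).le k)

theorem abs_moll_le {r : ℝ} (hr : 0 < r) {g : E → ℝ} (hg : BM g)
    (x : E) {B : ℝ} (hB : ∀ y ∈ closedBall x r, |g y| ≤ B) : |moll μ r g x| ≤ B := by
  have h := norm_iteratedFDeriv_moll_le μ 0 hr hg x hB
  simp_rw [norm_iteratedFDeriv_zero] at h
  have h2 : ∫ w, ‖rho μ w‖ ∂μ = 1 := by
    rw [← rho_integral μ]
    congr 1
    ext w
    rw [Real.norm_eq_abs, abs_of_nonneg (rho_nonneg μ w)]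
  rw [h2] at h
  simpa using h

theorem moll_nonneg {r : ℝ} (hr : r ≠ 0) {g : E → ℝ} (hg : ∀ x, 0 ≤ g x) (x : E) :
    0 ≤ moll μ r g x := by
  rw [moll_apply μ hr]
  exact integral_nonneg (fun w => mul_nonneg (hg _) (rho_nonneg μ w))

theorem moll_eq_of_const {r : ℝ} (hr : 0 < r) {g : E → ℝ} (hg : BM g) (x : E) (c : ℝ)
    (h : ∀ y ∈ closedBall x r, g y = c) : moll μ r g x = c := by
  have h1 := abs_moll_le μ hr (hg.sub_const c) x (B := 0) (by
    intro y hy
    simp [h y hy])
  rw [moll_sub_const μ hr.ne' hg] at h1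
  have := abs_nonpos_iff.1 h1
  linarith

theorem moll_periodic {r : ℝ} (hr : r ≠ 0) {g : E → ℝ} (k : E) (h : ∀ x, g (x + k) = g x) (x : E) :
    moll μ r g (x + k) = moll μ r g x := by
  rw [moll_apply μ hr, moll_apply μ hr]
  congr 1
  ext w
  rw [add_sub_right_comm, h]

end cv

end Pool.Agent.LibMather41
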