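import Pool.Agent.LibMather41.Lagr

/-!
`|v - X|^2/2 + V` is a Tonelli Lagrangian; its Euler-Lagrange flow.
-/

set_option linter.unusedSectionVars false
set_option linter.unusedVariables false

open MeasureTheory Metric Set Filter Topology Bornology
open scoped ContDiff

namespace Pool.Agent.LibMather41

variable {ι : Type} [Fintype ι] [DecidableEq ι] (D : Sys ι)

theorem hd_fst {E F : Type} [NormedAddCommGroup E] [NormedSpace ℝ E] [NormedAddCommGroup F]
    [NormedSpace ℝ F] {c : ℝ → E × F} {c' : E × F} {t : ℝ} (h : HasDerivAt c c' t) :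
    HasDerivAt (fun t => (c t).1) c'.1 t :=
  (ContinuousLinearMap.fst ℝ E F).hasFDerivAt.comp_hasDerivAt t h

theorem hd_snd {E F : Type} [NormedAddCommGroup E] [NormedSpace ℝ E] [NormedAddCommGroup F]
    [NormedSpace ℝ F] {c : ℝ → E × F} {c' : E × F} {t : ℝ} (h : HasDerivAt c c' t) :
    HasDerivAt (fun t => (c t).2) c'.2 t :=
  (ContinuousLinearMap.snd ℝ E F).hasFDerivAt.comp_hasDerivAt t h

namespace Sys

theorem sum_sq_pos {w : ι → ℝ} (hw : w ≠ 0) : 0 < ∑ i, w i * w i := by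
  obtain ⟨i, hi⟩ := Function.ne_iff.1 hw
  apply Finset.sum_pos' (fun j _ => mul_self_nonneg _)
  exact ⟨i, Finset.mem_univ _, mul_self_pos.2 hi⟩

theorem hess_pos (x v : ι → ℝ) (t : ℝ) (w : ι → ℝ) (hw : w ≠ 0) :
    0 < fderiv ℝ (fderiv ℝ (fun u : ι → ℝ => D.L (proj x u t))) v w w := by
  have h : (fun u : ι → ℝ => D.L (proj x u t)) = fun u => D.Lr x u t := by
    ext u; exact D.L_proj x u t
  have h1 : fderiv ℝ (fun u : ι → ℝ => D.L (proj x u t)) = fun v =>
      ∑ i, (v i - D.X (x, t) i) • (ContinuousLinearMap.proj i : (ι → ℝ) →L[ℝ] ℝ) := by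
    ext1 v
    rw [h]
    exact (D.hasFDerivAt_v x v t).fderiv
  rw [h1]
  have h2 : ∀ i ∈ (Finset.univ : Finset ι), HasFDerivAt
      (fun v : ι → ℝ => (v i - D.X (x, t) i) • (ContinuousLinearMap.proj i : (ι → ℝ) →L[ℝ] ℝ))
      ((ContinuousLinearMap.proj i : (ι → ℝ) →L[ℝ] ℝ).smulRight
        (ContinuousLinearMap.proj i : (ι → ℝ) →L[ℝ] ℝ)) v := by
    intro i _
    have h3 : HasFDerivAt (fun w : ι → ℝ => w i - D.X (x, t) i)
        (ContinuousLinearMap.proj i : (ι → ℝ) →L[ℝ] ℝ) v :=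
      (ContinuousLinearMap.proj (R := ℝ) (φ := fun _ : ι => ℝ) i).hasFDerivAt.sub_const _
    exact HasFDerivAt.smul_const (𝕜 := ℝ) (𝕜' := ℝ) h3
      (ContinuousLinearMap.proj i : (ι → ℝ) →L[ℝ] ℝ)
  have h4 := (HasFDerivAt.fun_sum h2).fderiv
  rw [h4]
  simp only [FunLike.coe_sum, Finset.sum_apply, ContinuousLinearMap.smulRight_apply,
    ContinuousLinearMap.proj_apply, FunLike.coe_smul, Pi.smul_apply, smul_eq_mul]
  exact sum_sq_pos hw

theorem norm_sq_le_sum (w : ι → ℝ) : ‖w‖ ^ 2 ≤ ∑ i, (w i) ^ 2 := by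
  have h : ‖w‖ ≤ Real.sqrt (∑ i, (w i) ^ 2) := by
    rw [pi_norm_le_iff_of_nonneg (Real.sqrt_nonneg _)]
    intro i
    apply Real.le_sqrt_of_sq_le
    rw [Real.norm_eq_abs, sq_abs]
    exact Finset.single_le_sum (f := fun i => (w i) ^ 2) (fun j _ => sq_nonneg _)
      (Finset.mem_univ i)
  calc ‖w‖ ^ 2 ≤ (Real.sqrt (∑ i, (w i) ^ 2)) ^ 2 :=
        pow_le_pow_left₀ (norm_nonneg _) h 2
    _ = ∑ i, (w i) ^ 2 := Real.sq_sqrt (Finset.sum_nonneg fun j _ => sq_nonneg _)

theorem superlin (x : ι → ℝ) (t : ℝ) :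
    Tendsto (fun v : ι → ℝ => D.L (proj x v t) / ‖v‖) (cobounded (ι → ℝ)) atTop := by
  have h1 : Tendsto (fun v : ι → ℝ => ‖v‖ * (1 / 2) - (‖D.X (x, t)‖ + |D.V (x, t)|))
      (cobounded (ι → ℝ)) atTop := by
    have := (tendsto_norm_cobounded_atTop (E := ι → ℝ)).atTop_mul_const
      (show (0 : ℝ) < 1 / 2 by norm_num)
    exact tendsto_atTop_add_const_right _ _ this
  apply tendsto_atTop_mono' _ _ h1
  have h2 : ∀ᶠ v : ι → ℝ in cobounded (ι → ℝ), 1 ≤ ‖v‖ :=
    (tendsto_norm_cobounded_atTop (E := ι → ℝ)).eventually (eventually_ge_atTop 1)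
  filter_upwards [h2] with v hv
  rw [le_div_iff₀ (by linarith), D.L_proj]
  unfold Lr
  have h3 := norm_sq_le_sum (fun i => v i - D.X (x, t) i)
  have h4 : ‖v‖ - ‖D.X (x, t)‖ ≤ ‖(fun i => v i - D.X (x, t) i : ι → ℝ)‖ :=
    norm_sub_norm_le v (D.X (x, t))
  have h5 := norm_nonneg (D.X (x, t))
  have h6 := neg_abs_le (D.V (x, t))
  have h7 := norm_nonneg (fun i => v i - D.X (x, t) i : ι → ℝ)
  have h8 := abs_nonneg (D.V (x, t))
  set a := ‖v‖
  set b := ‖D.X (x, t)‖
  set c := ‖(fun i => v i - D.X (x, t) i : ι → ℝ)‖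
  set m := |D.V (x, t)|
  have h9 : a ^ 2 - 2 * a * b ≤ c ^ 2 := by
    rcases le_or_gt a b with hab | hab
    · nlinarith
    · nlinarith
  nlinarith

/-- The phase vector field in the coordinates `(x, p, t)`, `p = v - X`. -/
noncomputable def Y (z : (ι → ℝ) × (ι → ℝ) × ℝ) : (ι → ℝ) × (ι → ℝ) × ℝ :=
  (z.2.1 + D.X (z.1, z.2.2), D.qf z.1 z.2.1 z.2.2, 1)

theorem Y_contDiff : ContDiff ℝ 1 D.Y := by
  unfold Y
  have h1 : ContDiff ℝ 1 (fun z : (ι → ℝ) × (ι → ℝ) × ℝ => (z.1, z.2.2)) :=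
    contDiff_fst.prodMk (contDiff_snd.comp contDiff_snd)
  have h2 : ContDiff ℝ 1 (fun z : (ι → ℝ) × (ι → ℝ) × ℝ => z.2.1) :=
    contDiff_fst.comp contDiff_snd
  have hX : ContDiff ℝ 1 (fun z : (ι → ℝ) × (ι → ℝ) × ℝ => D.X (z.1, z.2.2)) :=
    (D.hX.of_le one_le_two).comp h1
  have hX' : ContDiff ℝ 1 (fun z : (ι → ℝ) × (ι → ℝ) × ℝ => fderiv ℝ D.X (z.1, z.2.2)) :=
    (D.hX.fderiv_right (m := 1) (by norm_num)).comp h1
  have hV' : ContDiff ℝ 1 (fun z : (ι → ℝ) × (ι → ℝ) × ℝ => fderiv ℝ D.V (z.1, z.2.2)) :=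
    (D.hV.fderiv_right (m := 1) (by norm_num)).comp h1
  refine (h2.add hX).prodMk (ContDiff.prodMk ?_ contDiff_const)
  rw [contDiff_pi]
  intro i
  unfold qf
  refine ContDiff.add (ContDiff.neg (ContDiff.sum fun j _ => ?_)) ?_
  · refine ContDiff.mul ((contDiff_pi.1 h2) j) ?_
    exact (contDiff_pi.1 (hX'.clm_apply contDiff_const)) j
  · exact hV'.clm_apply contDiff_const

theorem fderiv_per {F : Type} [NormedAddCommGroup F] [NormedSpace ℝ F]
    (f : (ι → ℝ) × ℝ → F)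
    (hper : ∀ (k : ι → ℤ) (m : ℤ) (z : (ι → ℝ) × ℝ), f (z + (zv k, (m : ℝ))) = f z)
    (k : ι → ℤ) (m : ℤ) (z : (ι → ℝ) × ℝ) :
    fderiv ℝ f (z + (zv k, (m : ℝ))) = fderiv ℝ f z := by
  rw [← fderiv_comp_add_right]
  congr 1
  ext z
  exact hper k m z

theorem exists_grow : ∃ A : ℝ, 0 < A ∧ ∀ z, ‖D.Y z‖ ≤ A * (1 + ‖z‖) := by
  obtain ⟨M0, hM0, hX0⟩ := exists_bound_of_periodic D.X D.hX.continuous D.perX
  obtain ⟨M1, hM1, hX1⟩ := exists_bound_of_periodic (fderiv ℝ D.X)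
    (D.hX.continuous_fderiv two_ne_zero) (fderiv_per D.X D.perX)
  obtain ⟨M2, hM2, hV1⟩ := exists_bound_of_periodic (fderiv ℝ D.V)
    (D.hV.continuous_fderiv two_ne_zero) (fderiv_per D.V D.perV)
  refine ⟨1 + M0 + Fintype.card ι * M1 + M2, by positivity, fun z => ?_⟩
  have hc : (0:ℝ) ≤ Fintype.card ι := Nat.cast_nonneg _
  have hz : 0 ≤ ‖z‖ := norm_nonneg _
  have hp : ‖z.2.1‖ ≤ ‖z‖ := (norm_fst_le z.2).trans (norm_snd_le z)
  have hcM : 0 ≤ Fintype.card ι * M1 := by positivity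
  have hcMz : 0 ≤ Fintype.card ι * M1 * ‖z‖ := by positivity
  unfold Y
  rw [Prod.norm_def, Prod.norm_def]
  refine max_le ?_ (max_le ?_ ?_)
  · have h1 := norm_add_le z.2.1 (D.X (z.1, z.2.2))
    have h2 := hX0 (z.1, z.2.2)
    simp only
    nlinarith
  · simp only
    rw [pi_norm_le_iff_of_nonneg (by positivity)]
    intro i
    unfold qf
    have hs : ‖((Pi.single i 1 : ι → ℝ), (0 : ℝ))‖ ≤ 1 := by
      rw [Prod.norm_def, norm_zero]
      refine max_le ?_ zero_le_one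
      rw [pi_norm_le_iff_of_nonneg zero_le_one]
      intro j
      by_cases hj : j = i
      · subst hj; simp
      · simp [Pi.single_eq_of_ne hj]
    have h3 : ∀ j, ‖z.2.1 j * (fderiv ℝ D.X (z.1, z.2.2) (Pi.single i 1, 0)) j‖ ≤ ‖z‖ * M1 := by
      intro j
      rw [norm_mul]
      refine mul_le_mul ((norm_le_pi_norm _ j).trans hp) ?_ (norm_nonneg _) hz
      refine (norm_le_pi_norm _ j).trans ?_
      refine ((fderiv ℝ D.X (z.1, z.2.2)).le_opNorm _).trans ?_
      have := hX1 (z.1, z.2.2)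
      calc ‖fderiv ℝ D.X (z.1, z.2.2)‖ * ‖((Pi.single i 1 : ι → ℝ), (0 : ℝ))‖ ≤ M1 * 1 :=
            mul_le_mul this hs (norm_nonneg _) hM1
        _ = M1 := mul_one _
    have h4 : ‖∑ j, z.2.1 j * (fderiv ℝ D.X (z.1, z.2.2) (Pi.single i 1, 0)) j‖ ≤
        Fintype.card ι * (‖z‖ * M1) := by
      refine (norm_sum_le _ _).trans ?_
      refine (Finset.sum_le_sum fun j _ => h3 j).trans ?_
      rw [Finset.sum_const, Finset.card_univ, nsmul_eq_mul]
    have h5 : ‖fderiv ℝ D.V (z.1, z.2.2) (Pi.single i 1, 0)‖ ≤ M2 := by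
      refine ((fderiv ℝ D.V (z.1, z.2.2)).le_opNorm _).trans ?_
      have := hV1 (z.1, z.2.2)
      calc ‖fderiv ℝ D.V (z.1, z.2.2)‖ * ‖((Pi.single i 1 : ι → ℝ), (0 : ℝ))‖ ≤ M2 * 1 :=
            mul_le_mul this hs (norm_nonneg _) hM2
        _ = M2 := mul_one _
    refine (norm_add_le _ _).trans ?_
    rw [norm_neg]
    nlinarith
  · simp only [norm_one]
    nlinarith

/-- The growth constant. -/
noncomputable def A : ℝ := D.exists_grow.choose

theorem good : GoodField D.Y D.A :=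
  GoodField.of_contDiff D.exists_grow.choose_spec.1 D.Y_contDiff D.exists_grow.choose_spec.2

theorem qf_per (k : ι → ℤ) (m : ℤ) (x p : ι → ℝ) (t : ℝ) :
    D.qf (x + zv k) p (t + m) = D.qf x p t := by
  ext i
  unfold qf
  have h1 := fderiv_per D.X D.perX k m (x, t)
  have h2 := fderiv_per D.V D.perV k m (x, t)
  simp only [Prod.mk_add_mk] at h1 h2
  rw [h1, h2]

theorem Y_per (k : ι → ℤ) (m : ℤ) (z : (ι → ℝ) × (ι → ℝ) × ℝ) :
    D.Y (z + (zv k, 0, (m : ℝ))) = D.Y z := by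
  unfold Y
  simp only [Prod.fst_add, Prod.snd_add, add_zero]
  rw [D.qf_per]
  have h1 := D.perX k m (z.1, z.2.2)
  simp only [Prod.mk_add_mk] at h1
  rw [h1]

/-- An extremal gives a trajectory. -/
theorem traj_of_extremal {γ : ℝ → ι → ℝ} (h : IsExtremal D.L γ) (t : ℝ) :
    HasDerivAt (fun t => (γ t, (fun i => deriv γ t i - D.X (γ t, t) i), t))
      (D.Y (γ t, (fun i => deriv γ t i - D.X (γ t, t) i), t)) t := by
  obtain ⟨h1, h2⟩ := h
  have hd : HasDerivAt γ (deriv γ t) t :=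
    ((h1.differentiable two_ne_zero) t).hasDerivAt
  unfold Y
  refine HasDerivAt.prodMk ?_ (HasDerivAt.prodMk ?_ (hasDerivAt_id t))
  · have e : (fun i => deriv γ t i - D.X (γ t, t) i) + D.X (γ t, t) = deriv γ t := by
      ext i; simp
    simp only [e]
    exact hd
  · rw [hasDerivAt_pi]
    intro i
    have h3 := h2 i t
    simp only [D.dV_eq, D.dX_eq] at h3
    exact h3

/-- A trajectory gives an extremal. -/
theorem extremal_of_traj {c : ℝ → (ι → ℝ) × (ι → ℝ) × ℝ}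
    (hc : ∀ t, HasDerivAt c (D.Y (c t)) t) (t₀ : ℝ) (h0 : (c t₀).2.2 = t₀) :
    IsExtremal D.L (fun t => (c t).1) ∧
    ∀ t, deriv (fun t => (c t).1) t = (c t).2.1 + D.X ((c t).1, t) ∧ (c t).2.2 = t := by
  have h1 : ∀ t, (c t).2.2 = t := by
    have hd : ∀ t, HasDerivAt (fun t => (c t).2.2 - t) 0 t := by
      intro t
      have h := HasDerivAt.sub (hd_snd (hd_snd (hc t))) (hasDerivAt_id t)
      have h2 : (D.Y (c t)).2.2 - 1 = 0 := by simp [Y]
      rw [h2] at h
      exact h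
    intro t
    have h : (c t).2.2 - t = (c t₀).2.2 - t₀ :=
      is_const_of_deriv_eq_zero (f := fun t => (c t).2.2 - t) (fun t => (hd t).differentiableAt)
      (fun t => (hd t).deriv) t t₀
    linarith
  have hx : ∀ t, HasDerivAt (fun t => (c t).1) ((c t).2.1 + D.X ((c t).1, t)) t := by
    intro t
    have := hd_fst (hc t)
    unfold Y at this
    rw [h1 t] at this
    exact this
  have hp : ∀ t, HasDerivAt (fun t => (c t).2.1) (D.qf (c t).1 (c t).2.1 t) t := by
    intro t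
    have := hd_fst (hd_snd (hc t))
    unfold Y at this
    rw [h1 t] at this
    exact this
  have hcont : Continuous c := continuous_iff_continuousAt.2 fun t => (hc t).continuousAt
  have hc1 : ContDiff ℝ 1 c := by
    rw [contDiff_one_iff_deriv]
    refine ⟨fun t => (hc t).differentiableAt, ?_⟩
    have : deriv c = fun t => D.Y (c t) := by ext1 t; exact (hc t).deriv
    rw [this]
    exact D.Y_contDiff.continuous.comp hcont
  have hc2 : ContDiff ℝ 2 c := by
    have h2 : (2 : WithTop ℕ∞) = 1 + 1 := by norm_num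
    rw [h2, contDiff_succ_iff_deriv]
    refine ⟨fun t => (hc t).differentiableAt, by simp, ?_⟩
    have : deriv c = fun t => D.Y (c t) := by ext1 t; exact (hc t).deriv
    rw [this]
    exact D.Y_contDiff.comp hc1
  have hder : deriv (fun t => (c t).1) = fun t => (c t).2.1 + D.X ((c t).1, t) := by
    ext1 t; exact (hx t).deriv
  refine ⟨⟨contDiff_fst.comp hc2, ?_⟩, fun t => ⟨(hx t).deriv, h1 t⟩⟩
  intro i s
  simp only [D.dV_eq, D.dX_eq, hder]
  have h3 := (hasDerivAt_pi.1 (hp s)) i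
  have e : ∀ (s : ℝ), (fun j => ((c s).2.1 + D.X ((c s).1, s)) j - D.X ((c s).1, s) j) =
      (c s).2.1 := by
    intro s; ext j; simp
  have e' : (fun τ => ((c τ).2.1 + D.X ((c τ).1, τ)) i - D.X ((c τ).1, τ) i) =
      fun τ => (c τ).2.1 i := by
    ext τ; simp
  rw [e, e']
  exact h3

/-- Initial point in the chart. -/
noncomputable def chart (z : Phase ι) : (ι → ℝ) × (ι → ℝ) × ℝ :=
  (fun i => rep (z.1 i), fun i => z.2.1 i - D.X (fun i => rep (z.1 i), rep z.2.2) i, rep z.2.2)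

/-- Back to the phase space. -/
noncomputable def unchart (c : (ι → ℝ) × (ι → ℝ) × ℝ) : Phase ι :=
  proj c.1 (c.2.1 + D.X (c.1, c.2.2)) c.2.2

theorem unchart_chart (z : Phase ι) : D.unchart (D.chart z) = z := by
  unfold unchart chart proj
  simp only [coe_rep]
  refine Prod.ext rfl (Prod.ext ?_ rfl)
  ext i
  simp

theorem unchart_per (k : ι → ℤ) (m : ℤ) (c : (ι → ℝ) × (ι → ℝ) × ℝ) :
    D.unchart (c + (zv k, 0, (m : ℝ))) = D.unchart c := by
  unfold unchart proj
  simp only [Prod.fst_add, Prod.snd_add, add_zero]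
  have h1 := D.perX k m (c.1, c.2.2)
  simp only [Prod.mk_add_mk] at h1
  rw [h1]
  refine Prod.ext ?_ (Prod.ext rfl ?_)
  · ext i
    simp only [Pi.add_apply, zv, AddCircle.coe_add]
    have : ((k i : ℝ) : UnitAddCircle) = 0 := by
      rw [AddCircle.coe_eq_zero_iff]; exact ⟨k i, by simp⟩
    rw [this, add_zero]
  · simp only [AddCircle.coe_add]
    have : ((m : ℝ) : UnitAddCircle) = 0 := by
      rw [AddCircle.coe_eq_zero_iff]; exact ⟨m, by simp⟩
    rw [this, add_zero]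

theorem chart_proj (x v : ι → ℝ) (t : ℝ) : D.chart (proj x v t) =
    (x, (fun i => v i - D.X (x, t) i), t) + (zv (fun i => -⌊x i⌋), 0, ((-⌊t⌋ : ℤ) : ℝ)) := by
  have h1 := D.perX (fun i => -⌊x i⌋) (-⌊t⌋) (x, t)
  simp only [Prod.mk_add_mk] at h1
  have h2 : (fun i => rep ((x i : ℝ) : UnitAddCircle)) = x + zv (fun i => -⌊x i⌋) := by
    ext i
    simp only [rep_coe, Pi.add_apply, zv, Int.cast_neg]
    rw [← sub_eq_add_neg, Int.self_sub_floor]
  have h3 : rep ((t : ℝ) : UnitAddCircle) = t + ((-⌊t⌋ : ℤ) : ℝ) := by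
    rw [rep_coe]
    push_cast
    rw [← sub_eq_add_neg, Int.self_sub_floor]
  unfold chart proj
  simp only [h2, h3, h1, Prod.mk_add_mk, add_zero]

/-- The flow on the phase space. -/
noncomputable def Phi (s : ℝ) (z : Phase ι) : Phase ι := D.unchart (D.good.flow s (D.chart z))

/-- Translation of a trajectory. -/
theorem traj_per {c : ℝ → (ι → ℝ) × (ι → ℝ) × ℝ}
    (hc : ∀ t, HasDerivAt c (D.Y (c t)) t) (k : ι → ℤ) (m : ℤ) (t : ℝ) :
    HasDerivAt (fun t => c t + (zv k, 0, (m : ℝ))) (D.Y (c t + (zv k, 0, (m : ℝ)))) t := by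
  rw [D.Y_per]
  exact (hc t).add_const _

/-- `Phi` along trajectories. -/
theorem Phi_traj {c : ℝ → (ι → ℝ) × (ι → ℝ) × ℝ}
    (hc : ∀ t, HasDerivAt c (D.Y (c t)) t) (t s : ℝ) :
    D.Phi s (D.unchart (c t)) = D.unchart (c (t + s)) := by
  unfold Phi
  have h1 : D.chart (D.unchart (c t)) = c t +
      (zv (fun i => -⌊(c t).1 i⌋), 0, ((-⌊(c t).2.2⌋ : ℤ) : ℝ)) := by
    conv_lhs => rw [unchart]
    rw [D.chart_proj]
    congr 1
    refine Prod.ext rfl (Prod.ext ?_ rfl)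
    ext i
    simp
  rw [h1, ← D.good.eq_flow (D.traj_per hc _ _) t s, D.unchart_per]

theorem isELFlow : IsELFlow D.L D.Phi := by
  constructor
  · intro x v t
    have hc : ∀ u, HasDerivAt (fun u => D.good.flow (u - t) (x, (fun i => v i - D.X (x, t) i), t))
        (D.Y (D.good.flow (u - t) (x, (fun i => v i - D.X (x, t) i), t))) u := by
      intro u
      have h := D.good.flow_deriv (x, (fun i => v i - D.X (x, t) i), t) (u - t)
      have := h.scomp u ((hasDerivAt_id u).sub_const t)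
      simpa [Function.comp_def] using this
    have h0 : D.good.flow (t - t) (x, (fun i => v i - D.X (x, t) i), t) =
        (x, (fun i => v i - D.X (x, t) i), t) := by
      rw [sub_self, D.good.flow_zero]
    obtain ⟨h1, h2⟩ := D.extremal_of_traj hc t (by rw [h0])
    refine ⟨_, h1, by rw [h0], ?_⟩
    rw [(h2 t).1, h0]
    ext i
    simp
  · intro γ hγ t s
    have h := D.Phi_traj (D.traj_of_extremal hγ) t s
    unfold unchart at h
    simp only at h
    have e : ∀ t : ℝ, (fun i => deriv γ t i - D.X (γ t, t) i) + D.X (γ t, t) = deriv γ t := by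
      intro t; ext i; simp
    rw [e, e] at h
    exact h

theorem isTonelli : IsTonelli D.L where
  contDiff := by
    have : (fun z : (ι → ℝ) × (ι → ℝ) × ℝ => D.L (proj z.1 z.2.1 z.2.2)) =
        fun z => D.Lr z.1 z.2.1 z.2.2 := by
      ext z; exact D.L_proj _ _ _
    rw [this]
    exact D.contDiff_Lr
  convex := D.hess_pos
  superlinear := D.superlin
  complete := ⟨D.Phi, D.isELFlow⟩

/-- The Euler-Lagrange flow is unique. -/
theorem Phi_unique {Φ : ℝ → Phase ι → Phase ι} (h : IsELFlow D.L Φ) : Φ = D.Phi := by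
  ext1 s
  ext1 z
  obtain ⟨γ, hγ, h1, h2⟩ := h.1 (fun i => rep (z.1 i)) z.2.1 (rep z.2.2)
  have h3 := h.2 γ hγ (rep z.2.2) s
  have h4 := D.isELFlow.2 γ hγ (rep z.2.2) s
  rw [h1, h2] at h3 h4
  have h5 : proj (fun i => rep (z.1 i)) z.2.1 (rep z.2.2) = z := by
    unfold proj
    simp only [coe_rep]
  rw [h5] at h3 h4
  rw [h3, h4]

theorem measurable_chart : Measurable D.chart := by
  unfold chart
  have h1 : Measurable (fun z : Phase ι => (fun i => rep (z.1 i))) :=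
    measurable_pi_lambda _ fun i =>
      measurable_rep.comp ((measurable_pi_apply i).comp measurable_fst)
  have h2 : Measurable (fun z : Phase ι => rep z.2.2) :=
    measurable_rep.comp (measurable_snd.comp measurable_snd)
  have h3 : Measurable (fun z : Phase ι => D.X (fun i => rep (z.1 i), rep z.2.2)) :=
    D.hX.continuous.measurable.comp (h1.prodMk h2)
  refine h1.prodMk (Measurable.prodMk ?_ h2)
  refine measurable_pi_lambda _ fun i => ?_
  exact ((measurable_pi_apply i).comp (measurable_fst.comp measurable_snd)).sub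
    ((measurable_pi_apply i).comp h3)

theorem measurable_unchart : Measurable D.unchart := by
  unfold unchart proj
  have h1 : Measurable (fun c : (ι → ℝ) × (ι → ℝ) × ℝ => c.1) := measurable_fst
  have h2 : Measurable (fun c : (ι → ℝ) × (ι → ℝ) × ℝ => c.2.2) :=
    measurable_snd.comp measurable_snd
  have h0 : Measurable (fun c : (ι → ℝ) × (ι → ℝ) × ℝ => c.2.1) :=
    measurable_fst.comp measurable_snd
  have h3 : Measurable (fun c : (ι → ℝ) × (ι → ℝ) × ℝ => D.X (c.1, c.2.2)) :=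
    D.hX.continuous.measurable.comp (h1.prodMk h2)
  refine Measurable.prodMk ?_ (Measurable.prodMk (h0.add h3) ?_)
  · refine measurable_pi_lambda _ fun i => ?_
    exact (AddCircle.continuous_mk' 1).measurable.comp ((measurable_pi_apply i).comp h1)
  · exact (AddCircle.continuous_mk' 1).measurable.comp h2

theorem measurable_Phi (s : ℝ) : Measurable (D.Phi s) := by
  unfold Phi
  exact D.measurable_unchart.comp ((D.good.flow_continuous s).measurable.comp D.measurable_chart)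

end Sys

end Pool.Agent.LibMather41
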