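import Pool.Agent.LibMather41.Moll

/-!
Smooth majorants of flat functions and a flat extension theorem.
-/

set_option linter.unusedSectionVars false

open MeasureTheory Metric Set Filter Topology ContinuousLinearMap
open scoped ContDiff

namespace Pool.Agent.LibMather41

/-- Dyadic scales. -/
noncomputable def rr (j : ℕ) : ℝ := (1 / 2 : ℝ) ^ j

theorem rr_pos (j : ℕ) : 0 < rr j := by unfold rr; positivity

theorem rr_le_one (j : ℕ) : rr j ≤ 1 := by
  unfold rr; exact pow_le_one₀ (by norm_num) (by norm_num)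

theorem rr_succ (j : ℕ) : rr (j + 1) = rr j / 2 := by unfold rr; ring

theorem rr_zero : rr 0 = 1 := by unfold rr; simp

theorem rr_summable : Summable rr := by
  unfold rr; exact summable_geometric_of_lt_one (by norm_num) (by norm_num)

theorem rr_tendsto : Tendsto rr atTop (𝓝 0) :=
  tendsto_pow_atTop_nhds_zero_of_lt_one (by norm_num) (by norm_num)

/-- `r_j^4 * r_j^{-k} ≤ r_j` for `k ≤ 3`. -/
theorem rr_pow_le (j k : ℕ) (hk : k ≤ 3) : (rr j)⁻¹ ^ k * rr j ^ 4 ≤ rr j := by
  have h0 := rr_pos j
  have h1 := rr_le_one j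
  have : (rr j)⁻¹ ^ k * rr j ^ 4 = rr j ^ (3 - k) * rr j := by
    have : rr j ^ 4 = rr j ^ k * (rr j ^ (3 - k) * rr j) := by
      rw [← pow_succ, ← pow_add]
      congr 1
      omega
    rw [this, ← mul_assoc, inv_pow, inv_mul_cancel₀ (pow_ne_zero _ h0.ne'), one_mul]
  rw [this]
  have h2 : rr j ^ (3 - k) ≤ 1 := pow_le_one₀ h0.le h1
  nlinarith

/-- For `0 < d < 1` there is a dyadic scale comparable with `d`. -/
theorem exists_scale {d : ℝ} (hd : 0 < d) (hd1 : d < 1) :
    ∃ n : ℕ, rr (n + 1) ≤ d ∧ ∀ j ≤ n, d < rr j := by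
  classical
  have hex : ∃ n, rr n ≤ d := by
    have := (rr_tendsto.eventually (gt_mem_nhds hd)).exists
    obtain ⟨n, hn⟩ := this
    exact ⟨n, hn.le⟩
  obtain ⟨m, hm⟩ : ∃ m, Nat.find hex = m + 1 := by
    apply Nat.exists_eq_succ_of_ne_zero
    intro h0
    have := Nat.find_spec hex
    rw [h0, rr_zero] at this
    linarith
  refine ⟨m, ?_, fun j hj => ?_⟩
  · rw [← hm]; exact Nat.find_spec hex
  · have := Nat.find_min hex (m := j) (by omega)
    exact not_le.1 this

section

variable {E : Type} [NormedAddCommGroup E] [NormedSpace ℝ E] [FiniteDimensional ℝ E]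
  [MeasurableSpace E] [BorelSpace E] (μ : Measure E) [μ.IsAddHaarMeasure]

/-- The derivative constants of the mollifier. -/
noncomputable def CC (k : ℕ) : ℝ := ∫ w, ‖iteratedFDeriv ℝ k (rho μ) w‖ ∂μ

theorem CC_nonneg (k : ℕ) : 0 ≤ CC μ k := integral_nonneg (fun _ => norm_nonneg _)

theorem BM.indicator {A : Set E} (hA : MeasurableSet A) : BM (A.indicator (fun _ => (1 : ℝ))) := by
  refine ⟨measurable_const.indicator hA, 1, fun x => ?_⟩
  by_cases hx : x ∈ A <;> simp [hx]

theorem indicator_abs_le (A : Set E) (x : E) : |A.indicator (fun _ => (1 : ℝ)) x| ≤ 1 := by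
  by_cases hx : x ∈ A <;> simp [hx]

theorem infDist_periodic {S : Set E} {k : E} (h : ∀ x, x ∈ S ↔ x + k ∈ S) (x : E) :
    infDist (x + k) S = infDist x S := by
  have hS : S = (fun y => y + k) '' S := by
    ext y
    constructor
    · intro hy
      refine ⟨y - k, ?_, by simp⟩
      rw [h]; simpa using hy
    · rintro ⟨z, hz, rfl⟩
      exact (h z).1 hz
  have h2 : infDist (x + k) ((fun y => y + k) '' S) = infDist x S := by
    have hiso : Isometry (fun y : E => y + k) := isometry_add_right k
    exact infDist_image (Φ := fun y : E => y + k) hiso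
  rw [← hS] at h2
  exact h2

/-- A bounded function vanishing to fourth order on `S` has a `C^3` majorant vanishing on `S`. -/
theorem exists_majorant (S : Set E) (hS : S.Nonempty) (N : E → ℝ) (B C : ℝ)
    (hB : ∀ x, |N x| ≤ B) (hC0 : 0 ≤ C) (hC : ∀ a ∈ S, ∀ x, |N x| ≤ C * ‖x - a‖ ^ 4)
    (P : Set E) (hP : ∀ k ∈ P, ∀ x, x ∈ S ↔ x + k ∈ S) :
    ∃ W : E → ℝ, ContDiff ℝ 3 W ∧ (∀ x, |N x| ≤ W x) ∧ (∀ a ∈ S, W a = 0) ∧
      (∀ k ∈ P, ∀ x, W (x + k) = W x) := by
  let μ : Measure E := Measure.addHaar
  have hB0 : 0 ≤ B := by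
    obtain ⟨a, _⟩ := hS
    exact (abs_nonneg _).trans (hB a)
  set A : ℝ := B + C * 12 ^ 4 with hA
  have hA0 : 0 ≤ A := by positivity
  set U : ℕ → Set E := fun j => {y | 2 * rr j ≤ infDist y S} with hU
  have hUm : ∀ j, MeasurableSet (U j) := fun j =>
    measurableSet_le measurable_const (continuous_infDist_pt S).measurable
  set T : ℕ → E → ℝ := fun j x => (A * rr j ^ 4) *
    moll μ (rr j) ((U j).indicator (fun _ => (1 : ℝ))) x with hT
  have hTnn : ∀ j x, 0 ≤ T j x := by
    intro j x
    apply mul_nonneg (by have := rr_pos j; positivity)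
    apply moll_nonneg μ (rr_pos j).ne'
    intro y
    exact Set.indicator_nonneg (fun _ _ => zero_le_one) _
  have hTc : ∀ j, ContDiff ℝ ∞ (T j) := fun j =>
    contDiff_const.mul (moll_contDiff μ (rr j) (BM.indicator (hUm j)))
  have hTb : ∀ (k : ℕ) (j : ℕ) (x : E), k ≤ 3 →
      ‖iteratedFDeriv ℝ k (T j) x‖ ≤ (A * CC μ k) * rr j := by
    intro k j x hk
    have h1 := norm_iteratedFDeriv_moll_le μ k (rr_pos j) (BM.indicator (hUm j)) x (B := 1)
      (fun y _ => indicator_abs_le _ _)
    have h2 : iteratedFDeriv ℝ k (T j) x = (A * rr j ^ 4) •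
        iteratedFDeriv ℝ k (moll μ (rr j) ((U j).indicator (fun _ => (1 : ℝ)))) x := by
      have := iteratedFDeriv_const_smul_apply (𝕜 := ℝ) (i := k) (a := (A * rr j ^ 4)) (x := x)
        (f := moll μ (rr j) ((U j).indicator (fun _ => (1 : ℝ))))
        (((moll_contDiff μ (rr j) (BM.indicator (hUm j))).of_le
          (by exact_mod_cast le_top)).contDiffAt)
      rw [← this]
      rfl
    rw [h2, norm_smul, Real.norm_eq_abs, abs_of_nonneg (by have := rr_pos j; positivity)]
    calc A * rr j ^ 4 * ‖_‖ ≤ A * rr j ^ 4 * ((rr j)⁻¹ ^ k * (1 * CC μ k)) := by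
          apply mul_le_mul_of_nonneg_left h1
          have := rr_pos j; positivity
      _ = (A * CC μ k) * ((rr j)⁻¹ ^ k * rr j ^ 4) := by ring
      _ ≤ (A * CC μ k) * rr j := by
          apply mul_le_mul_of_nonneg_left (rr_pow_le j k hk)
          exact mul_nonneg hA0 (CC_nonneg μ k)
  have hsum : ∀ x, Summable (fun j => T j x) := by
    intro x
    refine Summable.of_norm_bounded (g := fun j => (A * CC μ 0) * rr j)
      (rr_summable.mul_left _) (fun j => ?_)
    have := hTb 0 j x (by norm_num)
    rwa [norm_iteratedFDeriv_zero] at this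
  refine ⟨fun x => ∑' j, T j x, ?_, ?_, ?_, ?_⟩
  · have := contDiff_tsum (𝕜 := ℝ) (N := 3) (f := T) (v := fun k j => (A * CC μ k) * rr j)
      (fun j => (hTc j).of_le (by exact_mod_cast le_top)) (fun k _ => rr_summable.mul_left _)
      (fun k j x hk => hTb k j x (by exact_mod_cast hk))
    exact this
  · intro x
    have hnn : 0 ≤ ∑' j, T j x := tsum_nonneg (fun j => hTnn j x)
    have key : ∀ j, 3 * rr j ≤ infDist x S → A * rr j ^ 4 ≤ ∑' j, T j x := by
      intro j hj
      have h1 : T j x = A * rr j ^ 4 := by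
        have : moll μ (rr j) ((U j).indicator (fun _ => (1 : ℝ))) x = 1 := by
          apply moll_eq_of_const μ (rr_pos j) (BM.indicator (hUm j))
          intro y hy
          have hyU : y ∈ U j := by
            change 2 * rr j ≤ infDist y S
            have h1 := infDist_le_infDist_add_dist (s := S) (x := x) (y := y)
            rw [mem_closedBall, dist_comm] at hy
            linarith
          simp [hyU]
        simp only [hT]
        rw [this, mul_one]
      rw [← h1]
      exact (hsum x).le_tsum j (fun i _ => hTnn i x)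
    rcases eq_or_lt_of_le (infDist_nonneg (x := x) (s := S)) with h0 | h0
    · -- distance zero
      have hN : |N x| ≤ 0 := by
        have hcl : x ∈ closure S := by
          rw [mem_closure_iff_infDist_zero hS]; exact h0.symm
        rw [mem_closure_iff_seq_limit] at hcl
        obtain ⟨s, hs, hlim⟩ := hcl
        have h1 : Tendsto (fun n => C * ‖x - s n‖ ^ 4) atTop (𝓝 (C * ‖x - x‖ ^ 4)) :=
          (((tendsto_const_nhds.sub hlim).norm).pow 4).const_mul C
        simp only [sub_self, norm_zero, ne_eq, OfNat.ofNat_ne_zero, not_false_eq_true, zero_pow,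
          mul_zero] at h1
        exact ge_of_tendsto' h1 (fun n => hC _ (hs n) x)
      linarith
    · rcases lt_or_ge (infDist x S) 3 with h3 | h3
      · obtain ⟨n, hn1, hn2⟩ := exists_scale (d := infDist x S / 3) (by linarith) (by linarith)
        have h4 := key (n + 1) (by linarith)
        have h5 := hn2 n le_rfl
        obtain ⟨a, ha, hxa⟩ := (infDist_lt_iff hS).1 (show infDist x S < 2 * infDist x S by linarith)
        have h6 : ‖x - a‖ ≤ 12 * rr (n + 1) := by
          rw [← dist_eq_norm, rr_succ]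
          linarith
        have h7 : |N x| ≤ C * (12 * rr (n + 1)) ^ 4 := by
          refine (hC a ha x).trans (mul_le_mul_of_nonneg_left ?_ hC0)
          exact pow_le_pow_left₀ (norm_nonneg _) h6 4
        refine h7.trans (le_trans ?_ h4)
        rw [hA, mul_pow]
        have : 0 ≤ B * rr (n + 1) ^ 4 := mul_nonneg hB0 (pow_nonneg (rr_pos _).le _)
        nlinarith
      · have h4 := key 0 (by rw [rr_zero]; linarith)
        rw [rr_zero] at h4
        refine (hB x).trans (le_trans ?_ h4)
        rw [hA]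
        nlinarith
  · intro a ha
    have : ∀ j, T j a = 0 := by
      intro j
      have : moll μ (rr j) ((U j).indicator (fun _ => (1 : ℝ))) a = 0 := by
        apply moll_eq_of_const μ (rr_pos j) (BM.indicator (hUm j))
        intro y hy
        have hyU : y ∉ U j := by
          intro hyU
          change 2 * rr j ≤ infDist y S at hyU
          have h1 := infDist_le_dist_of_mem (x := y) ha
          rw [mem_closedBall] at hy
          have := rr_pos j
          linarith
        simp [hyU]
      simp only [hT]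
      rw [this, mul_zero]
    simp [this]
  · intro k hk x
    have : ∀ j, T j (x + k) = T j x := by
      intro j
      simp only [hT]
      congr 1
      apply moll_periodic μ (rr_pos j).ne'
      intro y
      have h1 : (y + k ∈ U j) ↔ (y ∈ U j) := by
        change (2 * rr j ≤ infDist (y + k) S) ↔ (2 * rr j ≤ infDist y S)
        rw [infDist_periodic (hP k hk)]
      by_cases hy : y ∈ U j
      · simp [hy, h1.2 hy]
      · simp [hy, mt h1.1 hy]
    simp only [this]

/-- Flat extension: a bounded function which is flat of order four along `S` can be changed off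
`S` to a `C^3` function with the same flatness. -/
theorem exists_flat_extension (S : Set E) (hS : S.Nonempty) (g : E → ℝ) (hg : BM g)
    (C : ℝ) (hC0 : 0 ≤ C) (hC : ∀ a ∈ S, ∀ x, |g x - g a| ≤ C * ‖x - a‖ ^ 4)
    (P : Set E) (hP : ∀ k ∈ P, ∀ x, x ∈ S ↔ x + k ∈ S) (hgP : ∀ k ∈ P, ∀ x, g (x + k) = g x) :
    ∃ (F : E → ℝ) (C' : ℝ), 0 ≤ C' ∧ ContDiff ℝ 3 F ∧ (∀ a ∈ S, F a = g a) ∧
      (∀ a ∈ S, ∀ x, |F x - g a| ≤ C' * ‖x - a‖ ^ 4) ∧ (∀ k ∈ P, ∀ x, F (x + k) = F x) := by
  let μ : Measure E := Measure.addHaar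
  obtain ⟨Mg, hMg⟩ := hg.2
  have hMg0 : 0 ≤ Mg := by
    obtain ⟨a, _⟩ := hS
    exact (abs_nonneg _).trans (hMg a)
  set f : ℕ → E → ℝ := fun j => moll μ (rr j) g with hf
  set U : ℕ → Set E := fun j => {y | infDist y S < 2 * rr j} with hU
  have hUm : ∀ j, MeasurableSet (U j) := fun j =>
    measurableSet_lt (continuous_infDist_pt S).measurable measurable_const
  set β : ℕ → E → ℝ := fun j => moll μ (rr j) ((U j).indicator (fun _ => (1 : ℝ))) with hβ
  set G : ℕ → E → ℝ := fun j x => f (j + 1) x - f j x with hG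
  set T : ℕ → E → ℝ := fun j x => β j x * G j x with hT
  have hfc : ∀ j, ContDiff ℝ ∞ (f j) := fun j => moll_contDiff μ _ hg
  have hβc : ∀ j, ContDiff ℝ ∞ (β j) := fun j => moll_contDiff μ _ (BM.indicator (hUm j))
  have hGc : ∀ j, ContDiff ℝ ∞ (G j) := fun j => (hfc (j + 1)).sub (hfc j)
  have hTc : ∀ j, ContDiff ℝ ∞ (T j) := fun j => (hβc j).mul (hGc j)
  -- constants
  set D : ℕ → ℝ := fun k => (2 ^ k + 1) * CC μ k * (C * 5 ^ 4) with hD
  have hD0 : ∀ k, 0 ≤ D k := fun k => by
    have := CC_nonneg μ k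
    positivity
  -- bound for `G` near `S`
  have hGb : ∀ (k j : ℕ) (x : E), infDist x S < 4 * rr j →
      ‖iteratedFDeriv ℝ k (G j) x‖ ≤ D k * ((rr j)⁻¹ ^ k * rr j ^ 4) := by
    intro k j x hx
    obtain ⟨a, ha, hxa⟩ := (infDist_lt_iff hS).1 hx
    have h1 : G j = fun y => moll μ (rr (j + 1)) (fun w => g w - g a) y -
        moll μ (rr j) (fun w => g w - g a) y := by
      ext y
      rw [moll_sub_const μ (rr_pos _).ne' hg, moll_sub_const μ (rr_pos _).ne' hg]
      simp only [hG, hf]
      ring
    have hb : ∀ r, r ≤ rr j → ∀ y ∈ closedBall x r, |g y - g a| ≤ C * (5 * rr j) ^ 4 := by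
      intro r hr y hy
      refine (hC a ha y).trans (mul_le_mul_of_nonneg_left ?_ hC0)
      apply pow_le_pow_left₀ (norm_nonneg _)
      rw [← dist_eq_norm]
      rw [mem_closedBall] at hy
      have := dist_triangle y x a
      linarith
    have hr1 : rr (j + 1) ≤ rr j := by rw [rr_succ]; have := rr_pos j; linarith
    have e1 := norm_iteratedFDeriv_moll_le μ k (rr_pos (j + 1)) (hg.sub_const (g a)) x
      (hb _ hr1)
    have e2 := norm_iteratedFDeriv_moll_le μ k (rr_pos j) (hg.sub_const (g a)) x
      (hb _ le_rfl)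
    have h2 : iteratedFDeriv ℝ k (G j) x =
        iteratedFDeriv ℝ k (moll μ (rr (j + 1)) (fun w => g w - g a)) x -
        iteratedFDeriv ℝ k (moll μ (rr j) (fun w => g w - g a)) x := by
      rw [h1]
      exact iteratedFDeriv_sub_apply
        (((moll_contDiff μ _ (hg.sub_const (g a))).of_le
          (by exact_mod_cast le_top)).contDiffAt)
        (((moll_contDiff μ _ (hg.sub_const (g a))).of_le
          (by exact_mod_cast le_top)).contDiffAt)
    rw [h2]
    refine (norm_sub_le _ _).trans ((add_le_add e1 e2).trans (le_of_eq ?_))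
    have h3 : (rr (j + 1))⁻¹ ^ k = 2 ^ k * (rr j)⁻¹ ^ k := by
      rw [rr_succ, ← mul_pow]
      congr 1
      have := (rr_pos j).ne'
      field_simp
    rw [h3]
    simp only [hD, CC]
    ring
  -- bound for `T`
  set M : ℕ → ℝ := fun k => ∑ i ∈ Finset.range (k + 1), (k.choose i : ℝ) * CC μ i * D (k - i)
    with hM
  have hM0 : ∀ k, 0 ≤ M k := fun k => Finset.sum_nonneg (fun i _ => by
    have := CC_nonneg μ i
    have := hD0 (k - i)
    positivity)
  have hTb : ∀ (k j : ℕ) (x : E), ‖iteratedFDeriv ℝ k (T j) x‖ ≤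
      M k * ((rr j)⁻¹ ^ k * rr j ^ 4) := by
    intro k j x
    have hrp := rr_pos j
    rcases lt_or_ge (infDist x S) (4 * rr j) with hx | hx
    · have h1 := norm_iteratedFDeriv_mul_le (𝕜 := ℝ) (hβc j) (hGc j) x (n := k)
        (by exact_mod_cast le_top)
      refine h1.trans ?_
      rw [hM, Finset.sum_mul]
      apply Finset.sum_le_sum
      intro i hi
      have hik : i ≤ k := Nat.lt_succ_iff.1 (Finset.mem_range.1 hi)
      have e1 := norm_iteratedFDeriv_moll_le μ i (rr_pos j) (BM.indicator (hUm j)) x (B := 1)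
        (fun y _ => indicator_abs_le _ _)
      have e2 := hGb (k - i) j x hx
      have e3 : ‖iteratedFDeriv ℝ i (β j) x‖ * ‖iteratedFDeriv ℝ (k - i) (G j) x‖ ≤
          ((rr j)⁻¹ ^ i * (1 * CC μ i)) * (D (k - i) * ((rr j)⁻¹ ^ (k - i) * rr j ^ 4)) := by
        apply mul_le_mul e1 e2 (norm_nonneg _)
        have := CC_nonneg μ i
        positivity
      have e4 : (rr j)⁻¹ ^ k = (rr j)⁻¹ ^ i * (rr j)⁻¹ ^ (k - i) := by
        rw [← pow_add]; congr 1; omega
      have e5 : (0:ℝ) ≤ (k.choose i : ℝ) := Nat.cast_nonneg _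
      calc (k.choose i : ℝ) * ‖iteratedFDeriv ℝ i (β j) x‖ * ‖iteratedFDeriv ℝ (k - i) (G j) x‖
          = (k.choose i : ℝ) *
            (‖iteratedFDeriv ℝ i (β j) x‖ * ‖iteratedFDeriv ℝ (k - i) (G j) x‖) := by ring
        _ ≤ (k.choose i : ℝ) *
            (((rr j)⁻¹ ^ i * (1 * CC μ i)) * (D (k - i) * ((rr j)⁻¹ ^ (k - i) * rr j ^ 4))) :=
            mul_le_mul_of_nonneg_left e3 e5
        _ = _ := by rw [e4]; ring
    · have h0 : T j =ᶠ[𝓝 x] (fun _ => 0) := by
        have hopen : IsOpen {y | 3 * rr j < infDist y S} :=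
          isOpen_lt continuous_const (continuous_infDist_pt S)
        have hmem : x ∈ {y | 3 * rr j < infDist y S} := by
          change 3 * rr j < infDist x S
          linarith
        filter_upwards [hopen.mem_nhds hmem] with y hy
        have hβ0 : β j y = 0 := by
          apply moll_eq_of_const μ (rr_pos j) (BM.indicator (hUm j))
          intro z hz
          have hzU : z ∉ U j := by
            intro hzU
            change infDist z S < 2 * rr j at hzU
            change 3 * rr j < infDist y S at hy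
            have h1 := infDist_le_infDist_add_dist (s := S) (x := y) (y := z)
            rw [mem_closedBall, dist_comm] at hz
            linarith
          simp [hzU]
        simp only [hT]
        rw [hβ0, zero_mul]
      have h1 : iteratedFDeriv ℝ k (T j) x = 0 := by
        have h2 := (h0.iteratedFDeriv ℝ k).eq_of_nhds
        rw [h2]
        simp
      rw [h1, norm_zero]
      have := hM0 k
      positivity
  have hTv : ∀ j x, |T j x| ≤ M 0 * rr j ^ 4 := by
    intro j x
    have := hTb 0 j x
    rw [norm_iteratedFDeriv_zero] at this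
    simpa using this
  have hr4 : ∀ j, rr j ^ 4 ≤ rr j := fun j => by
    have := rr_pow_le j 0 (by norm_num)
    simpa using this
  have hsum : ∀ x, Summable (fun j => T j x) := by
    intro x
    refine Summable.of_norm_bounded (g := fun j => M 0 * rr j)
      (rr_summable.mul_left _) (fun j => ?_)
    rw [Real.norm_eq_abs]
    exact (hTv j x).trans (mul_le_mul_of_nonneg_left (hr4 j) (hM0 0))
  -- tails
  have hrsum : ∀ n, ∑' j, rr (j + n) = 2 * rr n := by
    intro n
    have h1 : (fun j => rr (j + n)) = fun j => rr n * rr j := by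
      ext j; unfold rr; ring
    rw [h1, tsum_mul_left]
    have h2 : ∑' j, rr j = 2 := by
      unfold rr
      exact tsum_geometric_two
    rw [h2]; ring
  have htail : ∀ n x, |∑' j, T (j + n) x| ≤ 2 * M 0 * rr n ^ 4 := by
    intro n x
    have h1 : ∀ j, ‖T (j + n) x‖ ≤ (M 0 * rr n ^ 3) * rr (j + n) := by
      intro j
      rw [Real.norm_eq_abs]
      refine (hTv (j + n) x).trans ?_
      have h2 : rr (j + n) ≤ rr n := by
        unfold rr
        exact pow_le_pow_of_le_one (by norm_num) (by norm_num) (Nat.le_add_left _ _)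
      have h3 : rr (j + n) ^ 3 ≤ rr n ^ 3 := pow_le_pow_left₀ (rr_pos _).le h2 3
      have h4 : rr (j + n) ^ 4 = rr (j + n) ^ 3 * rr (j + n) := by ring
      rw [h4, mul_assoc]
      apply mul_le_mul_of_nonneg_left _ (hM0 0)
      exact mul_le_mul_of_nonneg_right h3 (rr_pos _).le
    have h2 : Summable (fun j => (M 0 * rr n ^ 3) * rr (j + n)) :=
      ((summable_nat_add_iff n).2 rr_summable).mul_left _
    have h3 := tsum_of_norm_bounded h2.hasSum h1
    rw [tsum_mul_left, hrsum] at h3
    rw [Real.norm_eq_abs] at h3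
    refine h3.trans (le_of_eq ?_)
    ring
  have hfa : ∀ j, ∀ a ∈ S, ∀ x, ∀ d, ‖x - a‖ ≤ d → |f j x - g a| ≤ C * (d + rr j) ^ 4 := by
    intro j a ha x d hd
    have h1 := abs_moll_le μ (rr_pos j) (hg.sub_const (g a)) x (B := C * (d + rr j) ^ 4) (by
      intro y hy
      refine (hC a ha y).trans (mul_le_mul_of_nonneg_left ?_ hC0)
      apply pow_le_pow_left₀ (norm_nonneg _)
      have : y - a = (y - x) + (x - a) := by abel
      rw [this]
      refine (norm_add_le _ _).trans ?_
      rw [mem_closedBall, dist_eq_norm] at hy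
      linarith)
    rwa [moll_sub_const μ (rr_pos j).ne' hg] at h1
  have hβ1 : ∀ j x, infDist x S < rr j → β j x = 1 := by
    intro j x hx
    apply moll_eq_of_const μ (rr_pos j) (BM.indicator (hUm j))
    intro y hy
    have hyU : y ∈ U j := by
      change infDist y S < 2 * rr j
      have h1 := infDist_le_infDist_add_dist (s := S) (x := y) (y := x)
      rw [mem_closedBall] at hy
      linarith
    simp [hyU]
  set F : E → ℝ := fun x => f 0 x + ∑' j, T j x with hF
  have hFsplit : ∀ n x, (∀ j < n, infDist x S < rr j) →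
      F x = f n x + ∑' j, T (j + n) x := by
    intro n x hx
    have h1 := (hsum x).sum_add_tsum_nat_add n
    have h2 : ∑ j ∈ Finset.range n, T j x = f n x - f 0 x := by
      rw [← Finset.sum_range_sub (fun j => f j x)]
      apply Finset.sum_congr rfl
      intro j hj
      simp only [hT]
      rw [hβ1 j x (hx j (Finset.mem_range.1 hj)), one_mul]
    simp only [hF]
    rw [← h1, h2]
    ring
  have hFa : ∀ a ∈ S, F a = g a := by
    intro a ha
    have h0 : infDist a S = 0 := infDist_zero_of_mem ha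
    have h1 : ∀ n, |F a - g a| ≤ C * rr n ^ 4 + 2 * M 0 * rr n ^ 4 := by
      intro n
      rw [hFsplit n a (fun j _ => by rw [h0]; exact rr_pos j)]
      have e1 := hfa n a ha a 0 (by simp)
      rw [zero_add] at e1
      have e2 := htail n a
      have e3 : f n a + ∑' j, T (j + n) a - g a = (f n a - g a) + ∑' j, T (j + n) a := by ring
      rw [e3]
      exact (abs_add_le _ _).trans (add_le_add e1 e2)
    have h2 : Tendsto (fun n => C * rr n ^ 4 + 2 * M 0 * rr n ^ 4) atTop (𝓝 0) := by
      have := ((rr_tendsto.pow 4).const_mul C).add ((rr_tendsto.pow 4).const_mul (2 * M 0))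
      simpa using this
    have h3 : |F a - g a| ≤ 0 := ge_of_tendsto' h2 h1
    have := abs_nonpos_iff.1 h3
    linarith
  refine ⟨F, (16 * C + 2 * M 0) + 16 * (2 * Mg + 2 * M 0), ?_, ?_, hFa, ?_, ?_⟩
  · have := hM0 0; positivity
  · have h1 : ContDiff ℝ 3 (fun x => ∑' j, T j x) := by
      have := contDiff_tsum (𝕜 := ℝ) (N := 3) (f := T) (v := fun k j => M k * rr j)
        (fun j => (hTc j).of_le (by exact_mod_cast le_top)) (fun k _ => rr_summable.mul_left _)
        (fun k j x hk => (hTb k j x).trans (mul_le_mul_of_nonneg_left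
          (rr_pow_le j k (by exact_mod_cast hk)) (hM0 k)))
      exact this
    have h2 : ContDiff ℝ 3 (f 0) := (hfc 0).of_le ENat.LEInfty.out
    exact h2.add h1
  · intro a ha x
    have hM00 := hM0 0
    rcases eq_or_ne x a with hxa | hxa
    · rw [hxa, hFa a ha]; simp
    · have hd : 0 < ‖x - a‖ := norm_pos_iff.2 (sub_ne_zero.2 hxa)
      have hinf : infDist x S ≤ ‖x - a‖ := by
        rw [← dist_eq_norm]; exact infDist_le_dist_of_mem ha
      rcases lt_or_ge ‖x - a‖ 1 with h1 | h1
      · obtain ⟨n, hn1, hn2⟩ := exists_scale hd h1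
        rw [hFsplit (n + 1) x (fun j hj => hinf.trans_lt (hn2 j (by omega)))]
        have e1 := hfa (n + 1) a ha x ‖x - a‖ le_rfl
        have e2 := htail (n + 1) x
        have e3 : f (n + 1) x + ∑' j, T (j + (n + 1)) x - g a =
            (f (n + 1) x - g a) + ∑' j, T (j + (n + 1)) x := by ring
        rw [e3]
        refine (abs_add_le _ _).trans ((add_le_add e1 e2).trans ?_)
        have e4 : (‖x - a‖ + rr (n + 1)) ^ 4 ≤ (2 * ‖x - a‖) ^ 4 := by
          apply pow_le_pow_left₀ (by have := rr_pos (n + 1); positivity)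
          linarith
        have e5 : rr (n + 1) ^ 4 ≤ ‖x - a‖ ^ 4 := pow_le_pow_left₀ (rr_pos _).le hn1 4
        have e6 : (2 * ‖x - a‖) ^ 4 = 16 * ‖x - a‖ ^ 4 := by ring
        rw [e6] at e4
        have e7 : C * (‖x - a‖ + rr (n + 1)) ^ 4 ≤ C * (16 * ‖x - a‖ ^ 4) :=
          mul_le_mul_of_nonneg_left e4 hC0
        have e8 : 2 * M 0 * rr (n + 1) ^ 4 ≤ 2 * M 0 * ‖x - a‖ ^ 4 :=
          mul_le_mul_of_nonneg_left e5 (by positivity)
        have e9 : 0 ≤ 16 * (2 * Mg + 2 * M 0) * ‖x - a‖ ^ 4 := by positivity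
        nlinarith
      · have e0 := hFsplit 0 x (by intro j hj; omega)
        have e2 := htail 0 x
        rw [rr_zero] at e2
        have e1 : |f 0 x| ≤ Mg := abs_moll_le μ (rr_pos 0) hg x (fun y _ => hMg y)
        have e3 : |F x - g a| ≤ 2 * Mg + 2 * M 0 := by
          rw [e0]
          have e4 : f 0 x + ∑' j, T (j + 0) x - g a = (f 0 x - g a) + ∑' j, T (j + 0) x := by ring
          rw [e4]
          have e5 := abs_sub (f 0 x) (g a)
          have e6 := hMg a
          have e7 := abs_add_le (f 0 x - g a) (∑' j, T (j + 0) x)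
          linarith
        have e4 : (1:ℝ) ≤ ‖x - a‖ ^ 4 := one_le_pow₀ h1
        have e5 : 0 ≤ 2 * Mg + 2 * M 0 := by positivity
        have e6 : 0 ≤ 16 * C + 2 * M 0 := by positivity
        nlinarith
  · intro k hk x
    have h1 : ∀ j, f j (x + k) = f j x := fun j =>
      moll_periodic μ (rr_pos j).ne' k (hgP k hk) x
    have h2 : ∀ j, β j (x + k) = β j x := by
      intro j
      apply moll_periodic μ (rr_pos j).ne'
      intro y
      have h1 : (y + k ∈ U j) ↔ (y ∈ U j) := by
        change (infDist (y + k) S < 2 * rr j) ↔ (infDist y S < 2 * rr j)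
        rw [infDist_periodic (hP k hk)]
      by_cases hy : y ∈ U j
      · simp [hy, h1.2 hy]
      · simp [hy, mt h1.1 hy]
    simp only [hF, hT, hG, h1, h2]

end

end Pool.Agent.LibMather41
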